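import Mathlib

/-!
# Calculus of matrix valued curves
-/

set_option autoImplicit false

open Matrix Filter Topology
open scoped MatrixGroups

namespace Pool.Agent.Y245.HS

variable {n : ℕ}

theorem hasDerivAt_matrix {A : ℝ → Matrix (Fin n) (Fin n) ℝ} {D : Matrix (Fin n) (Fin n) ℝ}
    {x : ℝ} : HasDerivAt A D x ↔ ∀ i j, HasDerivAt (fun t => A t i j) (D i j) x := by
  constructor
  · intro h i j
    exact hasDerivAt_pi.1 (hasDerivAt_pi.1 h i) j
  · intro h
    exact hasDerivAt_pi.2 fun i => hasDerivAt_pi.2 fun j => h i j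

open scoped Matrix.Norms.Operator in
theorem HasDerivAt.matMul {A B : ℝ → Matrix (Fin n) (Fin n) ℝ} {D E : Matrix (Fin n) (Fin n) ℝ}
    {x : ℝ} (h : HasDerivAt A D x) (h' : HasDerivAt B E x) :
    HasDerivAt (fun t => A t * B t) (D * B x + A x * E) x := h.mul h'

open scoped Matrix.Norms.Operator in
/-- derivative of the inverse of a curve in `SL_n` -/
theorem HasDerivAt.slInv {A : ℝ → SL(n, ℝ)} {D : Matrix (Fin n) (Fin n) ℝ}
    {x : ℝ} (h : HasDerivAt (fun t => (A t : Matrix (Fin n) (Fin n) ℝ)) D x) :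
    HasDerivAt (fun t => (((A t)⁻¹ : SL(n, ℝ)) : Matrix (Fin n) (Fin n) ℝ))
      (-((((A x)⁻¹ : SL(n, ℝ)) : Matrix (Fin n) (Fin n) ℝ) * D *
        (((A x)⁻¹ : SL(n, ℝ)) : Matrix (Fin n) (Fin n) ℝ))) x := by
  have e : ∀ t, (((A t)⁻¹ : SL(n, ℝ)) : Matrix (Fin n) (Fin n) ℝ) =
      Ring.inverse (A t : Matrix (Fin n) (Fin n) ℝ) := by
    intro t
    have h1 : (A t : Matrix (Fin n) (Fin n) ℝ) *
        (((A t)⁻¹ : SL(n, ℝ)) : Matrix (Fin n) (Fin n) ℝ) = 1 := by
      rw [← Matrix.SpecialLinearGroup.coe_mul, mul_inv_cancel, Matrix.SpecialLinearGroup.coe_one]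
    rw [← Matrix.nonsing_inv_eq_ringInverse]
    exact (Matrix.inv_eq_right_inv h1).symm
  simp only [e]
  have hu : IsUnit (A x : Matrix (Fin n) (Fin n) ℝ) := by
    rw [Matrix.isUnit_iff_isUnit_det]
    rw [(A x).2]
    exact isUnit_one
  obtain ⟨u, hu⟩ := hu
  have h1 := hasFDerivAt_ringInverse (𝕜 := ℝ) u
  rw [hu] at h1
  have h2 := h1.comp_hasDerivAt x h
  have e2 : (Ring.inverse (A x : Matrix (Fin n) (Fin n) ℝ)) = (u⁻¹ : (Matrix (Fin n) (Fin n) ℝ)ˣ) := by
    rw [← hu, Ring.inverse_unit]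
  rw [e2]
  have e3 : (-((ContinuousLinearMap.mulLeftRight ℝ (Matrix (Fin n) (Fin n) ℝ))
      (u⁻¹ : (Matrix (Fin n) (Fin n) ℝ)ˣ)) (u⁻¹ : (Matrix (Fin n) (Fin n) ℝ)ˣ)) D =
      -((u⁻¹ : (Matrix (Fin n) (Fin n) ℝ)ˣ) * D * (u⁻¹ : (Matrix (Fin n) (Fin n) ℝ)ˣ)) := by
    simp [ContinuousLinearMap.mulLeftRight_apply]
  rw [e3] at h2
  exact h2

/-- the determinant is smooth -/
theorem contDiff_det : ContDiff ℝ ⊤ (fun M : Fin n → Fin n → ℝ => Matrix.det (Matrix.of M)) := by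
  simp only [Matrix.det_apply, Matrix.of_apply]
  refine ContDiff.sum fun σ _ => ?_
  refine ContDiff.const_smul _ ?_
  refine contDiff_prod fun i _ => ?_
  fun_prop

/-- the derivative of the determinant along a curve through the identity -/
theorem hasDerivAt_det_one {A : ℝ → Matrix (Fin n) (Fin n) ℝ} {D : Matrix (Fin n) (Fin n) ℝ}
    (h : HasDerivAt A D 0) (h0 : A 0 = 1) : HasDerivAt (fun t => (A t).det) D.trace 0 := by
  have h1 : DifferentiableAt ℝ (fun M : Fin n → Fin n → ℝ => Matrix.det (Matrix.of M))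
      (fun i j => (1 : Matrix (Fin n) (Fin n) ℝ) i j) := (contDiff_det.differentiable (by simp)) _
  obtain ⟨L, hL⟩ := h1
  -- the derivative along a line
  have hline : ∀ E : Matrix (Fin n) (Fin n) ℝ, L (fun i j => E i j) = E.trace := by
    intro E
    have h2 : HasDerivAt (fun t : ℝ => (fun i j => (1 + t • E) i j : Fin n → Fin n → ℝ))
        (fun i j => E i j) 0 := by
      refine hasDerivAt_pi.2 fun i => hasDerivAt_pi.2 fun j => ?_
      have : HasDerivAt (fun t : ℝ => (1 : Matrix (Fin n) (Fin n) ℝ) i j + t * E i j) (1 * E i j) 0 :=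
        ((hasDerivAt_id (0 : ℝ)).mul_const _).const_add _
      rw [one_mul] at this
      exact this
    have h3 : HasFDerivAt (fun M : Fin n → Fin n → ℝ => Matrix.det (Matrix.of M)) L
        ((fun t : ℝ => (fun i j => (1 + t • E) i j : Fin n → Fin n → ℝ)) 0) := by
      convert hL using 1
      funext i j
      simp
    have h4 := h3.comp_hasDerivAt (0 : ℝ) h2
    have h5 : HasDerivAt (fun t : ℝ => (1 + t • E).det) (L (fun i j => E i j)) 0 := h4
    have h6 : HasDerivAt (fun t : ℝ => (1 + t • E).det) E.trace 0 := by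
      obtain ⟨P, hP⟩ : ∃ P : Polynomial ℝ, ∀ t : ℝ, (1 + t • E).det = 1 + E.trace * t +
          Polynomial.eval t P * t ^ 2 := ⟨_, fun t => Matrix.det_one_add_smul t E⟩
      simp only [hP]
      have k1 : HasDerivAt (fun t : ℝ => 1 + E.trace * t) E.trace 0 := by
        have := ((hasDerivAt_id (0 : ℝ)).const_mul E.trace).const_add 1
        rwa [mul_one] at this
      have k2 := (P.hasDerivAt (0 : ℝ)).mul (hasDerivAt_pow 2 (0 : ℝ))
      have k3 := k1.add k2
      have k4 : E.trace = E.trace + (Polynomial.eval 0 (Polynomial.derivative P) * (0 : ℝ) ^ 2 +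
          Polynomial.eval 0 P * (((2 : ℕ) : ℝ) * (0 : ℝ) ^ (2 - 1))) := by
        simp
      rw [← k4] at k3
      exact k3
    exact h5.unique h6
  have h2 : HasFDerivAt (fun M : Fin n → Fin n → ℝ => Matrix.det (Matrix.of M)) L
      ((fun t : ℝ => (fun i j => A t i j : Fin n → Fin n → ℝ)) 0) := by
    convert hL using 1
    funext i j
    show A 0 i j = _
    rw [h0]
  have h3 : HasDerivAt (fun t : ℝ => (fun i j => A t i j : Fin n → Fin n → ℝ))
      (fun i j => D i j) 0 := h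
  have h4 := h2.comp_hasDerivAt (0 : ℝ) h3
  rw [hline] at h4
  exact h4

open scoped Matrix.Norms.Operator in
/-- the derivative of the determinant along a curve through an element of `SL_n` -/
theorem hasDerivAt_det {A : ℝ → Matrix (Fin n) (Fin n) ℝ} {u : Matrix (Fin n) (Fin n) ℝ}
    {a : SL(n, ℝ)} (h : HasDerivAt A (u * (a : Matrix (Fin n) (Fin n) ℝ)) 0)
    (h0 : A 0 = (a : Matrix (Fin n) (Fin n) ℝ)) : HasDerivAt (fun t => (A t).det) u.trace 0 := by
  have hinv : (a : Matrix (Fin n) (Fin n) ℝ) * ((a⁻¹ : SL(n, ℝ)) : Matrix (Fin n) (Fin n) ℝ) = 1 := by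
    rw [← Matrix.SpecialLinearGroup.coe_mul, mul_inv_cancel, Matrix.SpecialLinearGroup.coe_one]
  have h1 := HasDerivAt.matMul h
    (hasDerivAt_const (0 : ℝ) ((a⁻¹ : SL(n, ℝ)) : Matrix (Fin n) (Fin n) ℝ))
  rw [mul_zero, add_zero, mul_assoc, hinv, mul_one] at h1
  have h2 := hasDerivAt_det_one h1 (by show A 0 * _ = 1; rw [h0, hinv])
  have e : (fun t => (A t * ((a⁻¹ : SL(n, ℝ)) : Matrix (Fin n) (Fin n) ℝ)).det) =
      fun t => (A t).det := by
    funext t
    rw [det_mul]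
    have : ((a⁻¹ : SL(n, ℝ)) : Matrix (Fin n) (Fin n) ℝ).det = 1 := (a⁻¹).2
    rw [this, mul_one]
  rwa [e] at h2

end Pool.Agent.Y245.HS
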