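import Pool.Agent.Y245.HS.Sym

/-!
# The determinant of the symmetric powers; the irreducible representation `SL₂ → SL_n`
-/

set_option autoImplicit false

open Matrix Polynomial

namespace Pool.Agent.Y245.HS

variable {m : ℕ}

theorem det_sym_upper (b : ℝ) : (sym m !![1, b; 0, 1]).det = 1 := by
  have hP : ∀ j : ℕ, ((C (1 : ℝ) + C 0 * X) ^ (m - j) * (C b + C 1 * X) ^ j : ℝ[X]) =
      (X + C b) ^ j := by
    intro j
    simp [add_comm]
  have hmon : (X + C b : ℝ[X]).Monic := monic_X_add_C b
  have hdeg : ∀ j : ℕ, ((X + C b : ℝ[X]) ^ j).natDegree = j := by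
    intro j
    rw [hmon.natDegree_pow, natDegree_X_add_C, mul_one]
  rw [det_of_isUpperTriangular]
  · refine Finset.prod_eq_one fun j _ => ?_
    simp only [sym, of_apply, cons_val', cons_val_zero, cons_val_one, cons_val_fin_one]
    rw [hP]
    have := (hmon.pow (j : ℕ)).coeff_natDegree
    rwa [hdeg] at this
  · intro i j hij
    simp only [id] at hij
    simp only [sym, of_apply, cons_val', cons_val_zero, cons_val_one, cons_val_fin_one]
    rw [hP]
    exact coeff_eq_zero_of_natDegree_lt (by rw [hdeg]; exact_mod_cast hij)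

theorem det_sym_lower (c : ℝ) : (sym m !![1, 0; c, 1]).det = 1 := by
  have hP : ∀ j : ℕ, ((C (1 : ℝ) + C c * X) ^ (m - j) * (C 0 + C 1 * X) ^ j : ℝ[X]) =
      (C 1 + C c * X) ^ (m - j) * X ^ j := by
    intro j
    simp
  rw [det_of_isLowerTriangular]
  · refine Finset.prod_eq_one fun j _ => ?_
    simp only [sym, of_apply, cons_val', cons_val_zero, cons_val_one, cons_val_fin_one]
    rw [hP, coeff_mul_X_pow', if_pos le_rfl, Nat.sub_self, coeff_zero_eq_eval_zero]
    simp
  · intro i j hij
    have hij' : i < j := hij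
    simp only [sym, of_apply, cons_val', cons_val_zero, cons_val_one, cons_val_fin_one]
    rw [hP, coeff_mul_X_pow', if_neg]
    exact not_le.2 (by exact_mod_cast hij')

theorem det_sym_of_ne {g : Matrix (Fin 2) (Fin 2) ℝ} (hg : g.det = 1) (hc : g 1 0 ≠ 0) :
    (sym m g).det = 1 := by
  have h : g = !![1, (g 0 0 - 1) / g 1 0; 0, 1] * !![1, 0; g 1 0, 1] *
      !![1, (g 1 1 - 1) / g 1 0; 0, 1] := by
    rw [det_fin_two] at hg
    ext i j
    fin_cases i <;> fin_cases j
    · simp [Matrix.mul_apply, Fin.sum_univ_two]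
      field_simp
      ring
    · simp [Matrix.mul_apply, Fin.sum_univ_two]
      field_simp
      linear_combination -hg
    · simp [Matrix.mul_apply, Fin.sum_univ_two]
    · simp [Matrix.mul_apply, Fin.sum_univ_two]
      field_simp
      ring
  rw [h, sym_mul, sym_mul, det_mul, det_mul, det_sym_upper, det_sym_upper, det_sym_lower]
  ring

theorem det_sym {g : Matrix (Fin 2) (Fin 2) ℝ} (hg : g.det = 1) : (sym m g).det = 1 := by
  by_cases hc : g 1 0 = 0
  · have hg' := hg
    rw [det_fin_two, hc, mul_zero, sub_zero] at hg'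
    have ha : g 0 0 ≠ 0 := by
      intro h
      rw [h, zero_mul] at hg'
      exact zero_ne_one hg'
    have h1 : (sym m (!![1, 0; 1, 1] * g)).det = 1 := by
      apply det_sym_of_ne
      · rw [det_mul, hg]
        simp [det_fin_two]
      · simp [Matrix.mul_apply, Fin.sum_univ_two, hc, ha]
    rwa [sym_mul, det_mul, det_sym_lower, one_mul] at h1
  · exact det_sym_of_ne hg hc

open scoped MatrixGroups

/-- The irreducible representation of `SL(2, ℝ)` on the binary forms of degree `m`, as a
homomorphism into `SL(m + 1, ℝ)`. -/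
noncomputable def irr (m : ℕ) : SL(2, ℝ) →* SpecialLinearGroup (Fin (m + 1)) ℝ where
  toFun g := ⟨sym m (g : Matrix (Fin 2) (Fin 2) ℝ), det_sym g.2⟩
  map_one' := Subtype.ext (by
    show sym m (1 : Matrix (Fin 2) (Fin 2) ℝ) = 1
    exact sym_one)
  map_mul' g h := Subtype.ext (by
    show sym m ((g : Matrix (Fin 2) (Fin 2) ℝ) * (h : Matrix (Fin 2) (Fin 2) ℝ)) =
      sym m (g : Matrix (Fin 2) (Fin 2) ℝ) * sym m (h : Matrix (Fin 2) (Fin 2) ℝ)
    exact sym_mul _ _)

theorem irr_coe (g : SL(2, ℝ)) : ((irr m g : SpecialLinearGroup (Fin (m + 1)) ℝ) :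
    Matrix (Fin (m + 1)) (Fin (m + 1)) ℝ) = sym m (g : Matrix (Fin 2) (Fin 2) ℝ) := rfl

end Pool.Agent.Y245.HS
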