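import Pool.Agent.H225R3.SccDefs
import Pool.Agent.Y473.SA.Defs
import Pool.Agent.Y245.HS.SymDet

/-!
# Simple closed curve rigidity of the Hitchin components in genus two: definitions

The closed orientable surface `S` of genus two enters through its fundamental group
`SurfaceGroup 2` and the set of the elements represented by simple closed curves (`IsSimple`,
both from `Pool/Agent/H225R3`).
-/

set_option autoImplicit false

open Matrix Topology
open scoped MatrixGroups

namespace Pool.Agent.Y245.HS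

open Pool.Agent.H225R3.CV Pool.Agent.H225R3.Scc

/-- The group `PSL(n, ℝ)`. -/
abbrev PSLR (n : ℕ) : Type := ProjectiveSpecialLinearGroup (Fin n) ℝ

/-- The projection `SL(n, ℝ) → PSL(n, ℝ)`. -/
abbrev proj (n : ℕ) : SL(n, ℝ) →* PSLR n := QuotientGroup.mk' (Subgroup.center SL(n, ℝ))

/-- `f : PSL(n, ℝ) → ℝ` is differentiable and invariant under conjugation. (`f` is a
differentiable function on the manifold `PSL(n, ℝ)` if and only if its lift to the submanifold
`SL(n, ℝ)` of the space of matrices extends to a function differentiable at the points of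
`SL(n, ℝ)`.) -/
def IsDiffClass {n : ℕ} (f : PSLR n → ℝ) : Prop :=
  (∀ k g : PSLR n, f (k * g * k⁻¹) = f g) ∧
    ∃ h : Matrix (Fin n) (Fin n) ℝ → ℝ, ∀ A : SL(n, ℝ),
      h (A : Matrix (Fin n) (Fin n) ℝ) = f (proj n A) ∧
        DifferentiableAt ℝ h (A : Matrix (Fin n) (Fin n) ℝ)

/-- `Hom(π₁(S), PSL(n, ℝ))`, with the topology (of pointwise convergence) of `Rep`. -/
abbrev HRep (n : ℕ) : Type := Rep 2 (PSLR n)

/-- The holonomies (lifted to `SL(2, ℝ)`) of the hyperbolic structures on `S`: the faithful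
homomorphisms `π₁(S) → SL(2, ℝ)` whose image acts freely, properly discontinuously and
cocompactly on the hyperbolic plane. -/
def IsFuchsian (ρ₀ : SurfaceGroup 2 →* SL(2, ℝ)) : Prop :=
  Function.Injective ρ₀ ∧ Pool.Agent.Y473.SA.IsClosedSurface ρ₀.range

/-- The composition of `ρ₀` with the irreducible representation `SL(2, ℝ) → SL(m + 1, ℝ)` on the
binary forms of degree `m`, as a homomorphism into `PSL(m + 1, ℝ)`. -/
noncomputable def fuchsianPoint (m : ℕ) (ρ₀ : SurfaceGroup 2 →* SL(2, ℝ)) : HRep (m + 1) :=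
  (proj (m + 1)).comp ((irr m).comp ρ₀)

/-- The Hitchin component(s), as a set of homomorphisms: the union of the connected components of
`Hom(π₁(S), PSL(m + 1, ℝ))` that contain a Fuchsian point. -/
def Hitchin (m : ℕ) : Set (HRep (m + 1)) :=
  {σ | ∃ ρ₀, IsFuchsian ρ₀ ∧ σ ∈ connectedComponent (fuchsianPoint m ρ₀)}

/-- The curve `t ↦ s t` in `Hom(π₁(S), PSL(n, ℝ))` is differentiable at `t = 0`, with velocity
`u`: for every `γ` there is a lift `A t` of `s t γ` to `SL(n, ℝ)` with `A'(0) = u(γ) A(0)`. -/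
def HasVelocity {n : ℕ} (s : ℝ → HRep n) (u : SurfaceGroup 2 → Matrix (Fin n) (Fin n) ℝ) : Prop :=
  ∀ γ, ∃ A : ℝ → SL(n, ℝ), (∀ t, proj n (A t) = s t γ) ∧
    HasDerivAt (fun t => (A t : Matrix (Fin n) (Fin n) ℝ))
      (u γ * (A 0 : Matrix (Fin n) (Fin n) ℝ)) 0

/-- `u` is tangent at `σ` to the orbit of `σ` under conjugation: `u(γ) = X - Ad(σ(γ)) X` for some
matrix `X`. These `u` represent the tangent vector `0` of the character variety at `[σ]`. -/
def IsOrbitDirection {n : ℕ} (σ : HRep n) (u : SurfaceGroup 2 → Matrix (Fin n) (Fin n) ℝ) : Prop :=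
  ∃ X : Matrix (Fin n) (Fin n) ℝ, ∀ (γ : SurfaceGroup 2) (A : SL(n, ℝ)), proj n A = σ γ →
    u γ = X - (A : Matrix (Fin n) (Fin n) ℝ) * X * ((A⁻¹ : SL(n, ℝ)) : Matrix (Fin n) (Fin n) ℝ)

/-- The differentials at `[σ]` of the functions `f_γ : [σ] ↦ f(σ(γ))`, for `f ∈ F` and `γ` simple,
span the cotangent space of the character variety: a tangent vector (the velocity of a curve `s`
of homomorphisms through `σ`) on which all of them vanish is zero. -/
def SpanningAt {n : ℕ} (F : Set (PSLR n → ℝ)) (σ : HRep n) : Prop :=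
  ∀ (s : ℝ → HRep n) (u : SurfaceGroup 2 → Matrix (Fin n) (Fin n) ℝ), s 0 = σ → HasVelocity s u →
    (∀ f ∈ F, ∀ γ, IsSimple γ → HasDerivAt (fun t => f (s t γ)) 0 0) → IsOrbitDirection σ u

/-- The collection `F` is spanning on `X`. -/
def IsSpanning {n : ℕ} (F : Set (PSLR n → ℝ)) (X : Set (HRep n)) : Prop :=
  ∀ σ ∈ X, SpanningAt F σ

end Pool.Agent.Y245.HS
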