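import Pool.Agent.Y245.HS.Calc
import Pool.Agent.Y245.HS.HDefs

/-!
# Differentials of class functions
-/

set_option autoImplicit false

open Matrix Filter Topology
open scoped MatrixGroups

namespace Pool.Agent.Y245.HS

variable {m : ℕ}

/-- rescaling a matrix of positive determinant into `SL` -/
theorem exists_scale {M : Matrix (Fin (m + 1)) (Fin (m + 1)) ℝ} (h : 0 < M.det) :
    (M.det ^ (-(1 / ((m : ℝ) + 1))) • M).det = 1 := by
  rw [det_smul, Fintype.card_fin]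
  have h1 : (M.det ^ (-(1 / ((m : ℝ) + 1)))) ^ (m + 1) = M.det⁻¹ := by
    rw [← Real.rpow_natCast, ← Real.rpow_mul h.le]
    have h2 : -(1 / ((m : ℝ) + 1)) * ((m + 1 : ℕ) : ℝ) = -1 := by
      push_cast
      field_simp
    rw [h2, Real.rpow_neg_one]
  rw [h1, inv_mul_cancel₀ h.ne']

open scoped Matrix.Norms.Operator in
theorem conj_deriv {h : Matrix (Fin (m + 1)) (Fin (m + 1)) ℝ → ℝ} {a : SL(m + 1, ℝ)}
    (hconj : ∀ S : SL(m + 1, ℝ), h ((S * a * S⁻¹ : SL(m + 1, ℝ)) :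
      Matrix (Fin (m + 1)) (Fin (m + 1)) ℝ) = h a)
    {L : Matrix (Fin (m + 1)) (Fin (m + 1)) ℝ →L[ℝ] ℝ}
    (hL : HasFDerivAt h L (a : Matrix (Fin (m + 1)) (Fin (m + 1)) ℝ))
    (X : Matrix (Fin (m + 1)) (Fin (m + 1)) ℝ) : L (X * a - a * X) = 0 := by
  have h1 : HasDerivAt (fun t : ℝ => 1 + t • X) X 0 := by
    have := ((hasDerivAt_id (0 : ℝ)).smul_const X).const_add 1
    rwa [one_smul] at this
  have h2 : HasDerivAt (fun t : ℝ => Ring.inverse (1 + t • X)) (-X) 0 := by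
    have k1 := hasFDerivAt_ringInverse (𝕜 := ℝ) (1 : (Matrix (Fin (m + 1)) (Fin (m + 1)) ℝ)ˣ)
    have k2 : ((1 : (Matrix (Fin (m + 1)) (Fin (m + 1)) ℝ)ˣ) :
        Matrix (Fin (m + 1)) (Fin (m + 1)) ℝ) = (fun t : ℝ => 1 + t • X) 0 := by
      simp
    rw [k2] at k1
    have k3 := k1.comp_hasDerivAt (0 : ℝ) h1
    have k4 : (-((ContinuousLinearMap.mulLeftRight ℝ (Matrix (Fin (m + 1)) (Fin (m + 1)) ℝ))
      ((1 : (Matrix (Fin (m + 1)) (Fin (m + 1)) ℝ)ˣ)⁻¹ : (Matrix (Fin (m + 1)) (Fin (m + 1)) ℝ)ˣ))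
      ((1 : (Matrix (Fin (m + 1)) (Fin (m + 1)) ℝ)ˣ)⁻¹ : (Matrix (Fin (m + 1)) (Fin (m + 1)) ℝ)ˣ)) X
      = -X := by
      simp [ContinuousLinearMap.mulLeftRight_apply]
    rw [k4] at k3
    exact k3
  have h3 := (h1.mul (hasDerivAt_const (0 : ℝ) (a : Matrix (Fin (m + 1)) (Fin (m + 1)) ℝ))).mul h2
  have e0 : (1 : Matrix (Fin (m + 1)) (Fin (m + 1)) ℝ) + (0 : ℝ) • X = 1 := by simp
  have h4 : HasDerivAt (fun t : ℝ => (1 + t • X) * (a : Matrix (Fin (m + 1)) (Fin (m + 1)) ℝ) *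
      Ring.inverse (1 + t • X)) (X * a - a * X) 0 := by
    have e : X * (a : Matrix (Fin (m + 1)) (Fin (m + 1)) ℝ) - a * X =
        (X * (a : Matrix (Fin (m + 1)) (Fin (m + 1)) ℝ) + (1 + (0 : ℝ) • X) * 0) *
          Ring.inverse (1 + (0 : ℝ) • X) + (1 + (0 : ℝ) • X) * a * (-X) := by
      rw [e0, Ring.inverse_one, one_mul, one_mul, mul_one, add_zero, mul_neg, sub_eq_add_neg]
    rw [e]
    exact h3
  have hL' : HasFDerivAt h L ((fun t : ℝ => (1 + t • X) *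
      (a : Matrix (Fin (m + 1)) (Fin (m + 1)) ℝ) * Ring.inverse (1 + t • X)) 0) := by
    have : (fun t : ℝ => (1 + t • X) * (a : Matrix (Fin (m + 1)) (Fin (m + 1)) ℝ) *
      Ring.inverse (1 + t • X)) 0 = a := by
      show (1 + (0 : ℝ) • X) * (a : Matrix (Fin (m + 1)) (Fin (m + 1)) ℝ) *
        Ring.inverse (1 + (0 : ℝ) • X) = a
      rw [e0, Ring.inverse_one, one_mul, mul_one]
    rw [this]
    exact hL
  have h5 := hL'.comp_hasDerivAt (0 : ℝ) h4
  -- the composition is constant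
  have hdet : ∀ᶠ t : ℝ in 𝓝 0, 0 < (1 + t • X).det := by
    have hc : Continuous fun t : ℝ => (1 + t • X).det := by
      refine Continuous.matrix_det ?_
      fun_prop
    have h0 : 0 < (1 + (0 : ℝ) • X).det := by
      rw [e0, det_one]; exact one_pos
    exact hc.continuousAt.eventually (lt_mem_nhds h0)
  have h6 : (fun t : ℝ => h ((1 + t • X) * (a : Matrix (Fin (m + 1)) (Fin (m + 1)) ℝ) *
      Ring.inverse (1 + t • X))) =ᶠ[𝓝 0] fun _ => h a := by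
    filter_upwards [hdet] with t ht
    set M := 1 + t • X with hM
    set c := M.det ^ (-(1 / ((m : ℝ) + 1))) with hc
    let S : SL(m + 1, ℝ) := ⟨c • M, exists_scale ht⟩
    have hS : ((S : SL(m + 1, ℝ)) : Matrix (Fin (m + 1)) (Fin (m + 1)) ℝ) = c • M := rfl
    have hu : IsUnit M := by
      rw [Matrix.isUnit_iff_isUnit_det]
      exact isUnit_iff_ne_zero.2 ht.ne'
    have k1 : M * (a : Matrix (Fin (m + 1)) (Fin (m + 1)) ℝ) * Ring.inverse M * (S : Matrix (Fin (m + 1)) (Fin (m + 1)) ℝ) =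
        (S : Matrix (Fin (m + 1)) (Fin (m + 1)) ℝ) * a := by
      rw [hS, mul_smul_comm, mul_assoc, Ring.inverse_mul_cancel _ hu, mul_one, smul_mul_assoc]
    have k2 : M * (a : Matrix (Fin (m + 1)) (Fin (m + 1)) ℝ) * Ring.inverse M =
        ((S * a * S⁻¹ : SL(m + 1, ℝ)) : Matrix (Fin (m + 1)) (Fin (m + 1)) ℝ) := by
      rw [Matrix.SpecialLinearGroup.coe_mul, Matrix.SpecialLinearGroup.coe_mul, ← k1, mul_assoc _ _
        ((S⁻¹ : SL(m + 1, ℝ)) : Matrix (Fin (m + 1)) (Fin (m + 1)) ℝ),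
        ← Matrix.SpecialLinearGroup.coe_mul, mul_inv_cancel, Matrix.SpecialLinearGroup.coe_one,
        mul_one]
    rw [k2, hconj]
  have h7 : HasDerivAt (fun t : ℝ => h ((1 + t • X) *
      (a : Matrix (Fin (m + 1)) (Fin (m + 1)) ℝ) * Ring.inverse (1 + t • X))) 0 0 :=
    (hasDerivAt_const (0 : ℝ) (h a)).congr_of_eventuallyEq h6
  exact h5.unique h7

open scoped Matrix.Norms.Operator in
/-- A class function does not change to first order along a curve whose velocity is a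
coboundary. -/
theorem class_deriv {f : PSLR (m + 1) → ℝ} (hf : IsDiffClass f) {A : ℝ → SL(m + 1, ℝ)}
    {u X : Matrix (Fin (m + 1)) (Fin (m + 1)) ℝ}
    (hA : HasDerivAt (fun t => (A t : Matrix (Fin (m + 1)) (Fin (m + 1)) ℝ))
      (u * (A 0 : Matrix (Fin (m + 1)) (Fin (m + 1)) ℝ)) 0)
    (hu : u = X - (A 0 : Matrix (Fin (m + 1)) (Fin (m + 1)) ℝ) * X *
      (((A 0)⁻¹ : SL(m + 1, ℝ)) : Matrix (Fin (m + 1)) (Fin (m + 1)) ℝ)) :
    HasDerivAt (fun t => f (proj (m + 1) (A t))) 0 0 := by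
  obtain ⟨hc, h, hh⟩ := hf
  have e : (fun t => f (proj (m + 1) (A t))) = fun t => h (A t) := by
    funext t
    exact (hh (A t)).1.symm
  rw [e]
  obtain ⟨L, hL⟩ := (hh (A 0)).2
  have h1 := hL.comp_hasDerivAt (0 : ℝ) hA
  have h2 : u * (A 0 : Matrix (Fin (m + 1)) (Fin (m + 1)) ℝ) = X * A 0 - A 0 * X := by
    rw [hu, sub_mul, mul_assoc (_ * X), ← Matrix.SpecialLinearGroup.coe_mul, inv_mul_cancel,
      Matrix.SpecialLinearGroup.coe_one, mul_one]
  have h3 : L (u * (A 0 : Matrix (Fin (m + 1)) (Fin (m + 1)) ℝ)) = 0 := by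
    rw [h2]
    refine conj_deriv (fun S => ?_) hL X
    rw [(hh _).1, (hh _).1, map_mul, map_mul, map_inv, hc]
  have h4 : HasDerivAt (fun t => h (A t : Matrix (Fin (m + 1)) (Fin (m + 1)) ℝ))
      (L (u * (A 0 : Matrix (Fin (m + 1)) (Fin (m + 1)) ℝ))) 0 := h1
  rw [h3] at h4
  exact h4

end Pool.Agent.Y245.HS
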