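import Pool.Agent.Y245.HS.Dim

/-!
# Linear algebra: there are anti-invariant cocycles which are not coboundaries
-/

set_option autoImplicit false

open Matrix Module

namespace Pool.Agent.Y245.HS

section
variable {V : Type*} [AddCommGroup V] [Module ℝ V] [FiniteDimensional ℝ V]

theorem exists_y (S : Fin 4 → V →ₗ[ℝ] V) (T : V →ₗ[ℝ] V) (hT2 : ∀ v, T (T v) = v)
    (hST : ∀ i v, S i (T (S i v)) = T v)
    (hrel : ∀ v, S 0 (S 1 (S 2 (S 3 v))) = S 3 (S 2 (S 1 (S 0 v))))
    (hker : ∀ i, finrank ℝ (LinearMap.ker (S i ∘ₗ T - LinearMap.id)) = 3)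
    (hW : finrank ℝ (LinearMap.ker (S 3 ∘ₗ S 2 ∘ₗ S 1 ∘ₗ S 0 ∘ₗ T + LinearMap.id)) = 4)
    (hT : finrank ℝ (LinearMap.ker (T + LinearMap.id)) = 4) :
    ∃ y : Fin 4 → V, (∀ i, S i (T (y i)) = y i) ∧
      y 0 + S 0 (y 1) + S 0 (S 1 (y 2)) + S 0 (S 1 (S 2 (y 3))) =
        y 3 + S 3 (y 2) + S 3 (S 2 (y 1)) + S 3 (S 2 (S 1 (y 0))) ∧
      ¬ ∃ w, T w = -w ∧ ∀ i, y i = w - S i w := by
  classical
  -- the involution of the relator
  have hWW : ∀ v, S 3 (S 2 (S 1 (S 0 (T (S 3 (S 2 (S 1 (S 0 (T v))))))))) = v := by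
    intro v
    rw [← hrel (T v), hST 0, hST 1, hST 2, hST 3, hT2]
  have mem1 : ∀ i (x : LinearMap.ker (S i ∘ₗ T - LinearMap.id)), S i (T (x : V)) = x := by
    intro i x
    have h := x.2
    rw [LinearMap.mem_ker, LinearMap.sub_apply, LinearMap.id_apply, LinearMap.comp_apply,
      sub_eq_zero] at h
    exact h
  let D := (i : Fin 4) → LinearMap.ker (S i ∘ₗ T - LinearMap.id)
  have hD : finrank ℝ D = 12 := by
    rw [Module.finrank_pi_fintype ℝ]
    simp [hker]
  have hab : ∀ y : D, S 3 (S 2 (S 1 (S 0 (T ((y 0 : V) + S 0 (y 1) + S 0 (S 1 (y 2)) +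
      S 0 (S 1 (S 2 (y 3)))))))) = (y 3 : V) + S 3 (y 2) + S 3 (S 2 (y 1)) +
        S 3 (S 2 (S 1 (y 0))) := by
    intro y
    simp only [map_add]
    rw [mem1 0 (y 0), hST 0, hST 0, hST 0, mem1 1 (y 1), hST 1, hST 1, mem1 2 (y 2), hST 2,
      mem1 3 (y 3)]
    abel
  have hadd : ∀ (a b : D) (i : Fin 4), (((a + b) i : LinearMap.ker (S i ∘ₗ T - LinearMap.id)) : V)
      = (a i : V) + (b i : V) := fun _ _ _ => rfl
  have hsmul : ∀ (c : ℝ) (a : D) (i : Fin 4),
      (((c • a) i : LinearMap.ker (S i ∘ₗ T - LinearMap.id)) : V) = c • (a i : V) :=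
    fun _ _ _ => rfl
  let L0 : D →ₗ[ℝ] V :=
    { toFun := fun y => ((y 0 : V) + S 0 (y 1) + S 0 (S 1 (y 2)) + S 0 (S 1 (S 2 (y 3)))) -
        ((y 3 : V) + S 3 (y 2) + S 3 (S 2 (y 1)) + S 3 (S 2 (S 1 (y 0))))
      map_add' := fun a b => by
        simp only [hadd, map_add]
        abel
      map_smul' := fun c a => by
        simp only [hsmul, map_smul, RingHom.id_apply, smul_add, smul_sub] }
  have hL0 : ∀ y, L0 y ∈ LinearMap.ker (S 3 ∘ₗ S 2 ∘ₗ S 1 ∘ₗ S 0 ∘ₗ T + LinearMap.id) := by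
    intro y
    rw [LinearMap.mem_ker]
    show S 3 (S 2 (S 1 (S 0 (T (L0 y))))) + L0 y = 0
    show S 3 (S 2 (S 1 (S 0 (T (((y 0 : V) + S 0 (y 1) + S 0 (S 1 (y 2)) +
      S 0 (S 1 (S 2 (y 3)))) -
        ((y 3 : V) + S 3 (y 2) + S 3 (S 2 (y 1)) + S 3 (S 2 (S 1 (y 0))))))))) + L0 y = 0
    rw [← hab y]
    set a := (y 0 : V) + S 0 (y 1) + S 0 (S 1 (y 2)) + S 0 (S 1 (S 2 (y 3))) with ha
    have e : L0 y = a - S 3 (S 2 (S 1 (S 0 (T a)))) := by
      rw [ha, hab y]
      rfl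
    rw [e]
    simp only [map_sub]
    rw [hWW]
    abel
  let L := L0.codRestrict _ hL0
  have hrange : finrank ℝ (LinearMap.range L) ≤ 4 := (Submodule.finrank_le _).trans hW.le
  have hk : 8 ≤ finrank ℝ (LinearMap.ker L) := by
    have := LinearMap.finrank_range_add_finrank_ker L
    rw [hD] at this
    omega
  have hC : ∀ (w : LinearMap.ker (T + LinearMap.id)) (i : Fin 4),
      (w : V) - S i w ∈ LinearMap.ker (S i ∘ₗ T - LinearMap.id) := by
    intro w i
    have h := w.2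
    rw [LinearMap.mem_ker, LinearMap.add_apply, LinearMap.id_apply, add_eq_zero_iff_eq_neg] at h
    rw [LinearMap.mem_ker, LinearMap.sub_apply, LinearMap.id_apply, LinearMap.comp_apply, map_sub,
      map_sub, hST, h, map_neg]
    abel
  let Cb : LinearMap.ker (T + LinearMap.id) →ₗ[ℝ] D :=
    { toFun := fun w i => ⟨(w : V) - S i w, hC w i⟩
      map_add' := fun a b => by
        funext i
        apply Subtype.ext
        show ((a + b : LinearMap.ker (T + LinearMap.id)) : V) - S i _ = _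
        simp only [Submodule.coe_add, map_add]
        show _ = ((a : V) - S i a) + ((b : V) - S i b)
        abel
      map_smul' := fun c a => by
        funext i
        apply Subtype.ext
        show ((c • a : LinearMap.ker (T + LinearMap.id)) : V) - S i _ = _
        simp only [Submodule.coe_smul, map_smul]
        show _ = c • ((a : V) - S i a)
        rw [smul_sub] }
  have hCr : finrank ℝ (LinearMap.range Cb) ≤ 4 := (LinearMap.finrank_range_le Cb).trans hT.le
  have hnle : ¬ LinearMap.ker L ≤ LinearMap.range Cb := by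
    intro h
    have := Submodule.finrank_mono h
    omega
  obtain ⟨y, hy1, hy2⟩ := SetLike.not_le_iff_exists.1 hnle
  refine ⟨fun i => (y i : V), fun i => mem1 i (y i), ?_, ?_⟩
  · have h : L0 y = 0 := by
      have := congrArg Subtype.val (LinearMap.mem_ker.1 hy1)
      exact this
    exact sub_eq_zero.1 h
  · rintro ⟨w, hw, hwy⟩
    apply hy2
    refine ⟨⟨w, ?_⟩, ?_⟩
    · rw [LinearMap.mem_ker, LinearMap.add_apply, LinearMap.id_apply, hw, neg_add_cancel]
    · funext i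
      apply Subtype.ext
      exact (hwy i).symm

end

end Pool.Agent.Y245.HS
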