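import Pool.Agent.Y245.HS.Dim

/-!
# The copy of the binary sextics in the matrices of size `m + 1`
-/

set_option autoImplicit false

open Matrix

namespace Pool.Agent.Y245.HS

variable {m : ℕ}

/-- The action of a `2 × 2` matrix `N` on the binary forms of degree `m` by derivations. -/
noncomputable def DD (m : ℕ) (N : Matrix (Fin 2) (Fin 2) ℝ) :
    Matrix (Fin (m + 1)) (Fin (m + 1)) ℝ :=
  Matrix.of fun i j =>
    (if (i : ℕ) = (j : ℕ) then ((m : ℝ) - (j : ℕ)) * N 0 0 + ((j : ℕ) : ℝ) * N 1 1 else 0) +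
    (if (i : ℕ) = (j : ℕ) + 1 then ((m : ℝ) - (j : ℕ)) * N 1 0 else 0) +
    (if (i : ℕ) + 1 = (j : ℕ) then ((j : ℕ) : ℝ) * N 0 1 else 0)

theorem DD_add (N N' : Matrix (Fin 2) (Fin 2) ℝ) : DD m (N + N') = DD m N + DD m N' := by
  ext i j
  simp only [DD, of_apply, Matrix.add_apply]
  split_ifs <;> ring

theorem DD_smul (c : ℝ) (N : Matrix (Fin 2) (Fin 2) ℝ) : DD m (c • N) = c • DD m N := by
  ext i j
  simp only [DD, of_apply, Matrix.smul_apply, smul_eq_mul]
  split_ifs <;> ring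

theorem col_DD (N : Matrix (Fin 2) (Fin 2) ℝ) (j : Fin (m + 1)) (x y : ℝ) :
    ∑ i : Fin (m + 1), DD m N i j * x ^ (m - (i : ℕ)) * y ^ (i : ℕ) =
      ((m - (j : ℕ) : ℕ) : ℝ) * x ^ (m - (j : ℕ) - 1) * (x * N 0 0 + y * N 1 0) * y ^ (j : ℕ) +
      x ^ (m - (j : ℕ)) * (((j : ℕ) : ℝ) * y ^ ((j : ℕ) - 1) * (x * N 0 1 + y * N 1 1)) := by
  have hj : (j : ℕ) ≤ m := Nat.lt_succ_iff.1 j.2
  have hcast : ((m - (j : ℕ) : ℕ) : ℝ) = (m : ℝ) - (j : ℕ) := by
    rw [Nat.cast_sub hj]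
  simp only [DD, of_apply, add_mul, Finset.sum_add_distrib]
  have s1 : ∑ i : Fin (m + 1), (if (i : ℕ) = (j : ℕ) then
      ((m : ℝ) - (j : ℕ)) * N 0 0 + ((j : ℕ) : ℝ) * N 1 1 else 0) * x ^ (m - (i : ℕ)) *
      y ^ (i : ℕ) = (((m : ℝ) - (j : ℕ)) * N 0 0 + ((j : ℕ) : ℝ) * N 1 1) *
        x ^ (m - (j : ℕ)) * y ^ (j : ℕ) := by
    rw [Finset.sum_eq_single j]
    · rw [if_pos rfl]
    · intro i _ hi
      rw [if_neg fun h => hi (Fin.ext h), zero_mul, zero_mul]
    · simp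
  have s2 : ∑ i : Fin (m + 1), (if (i : ℕ) = (j : ℕ) + 1 then
      ((m : ℝ) - (j : ℕ)) * N 1 0 else 0) * x ^ (m - (i : ℕ)) *
      y ^ (i : ℕ) = ((m : ℝ) - (j : ℕ)) * N 1 0 * x ^ (m - (j : ℕ) - 1) * y ^ ((j : ℕ) + 1) := by
    by_cases h : (j : ℕ) + 1 < m + 1
    · rw [Finset.sum_eq_single ⟨(j : ℕ) + 1, h⟩]
      · rw [if_pos rfl]
        simp only [Nat.sub_sub]
      · intro i _ hi
        rw [if_neg fun h => hi (Fin.ext h), zero_mul, zero_mul]
      · simp
    · have hm : (j : ℕ) = m := by omega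
      rw [Finset.sum_eq_zero]
      · have hmr : ((j : ℕ) : ℝ) = m := by exact_mod_cast hm
        rw [hmr, sub_self, zero_mul, zero_mul, zero_mul]
      · intro i _
        have := i.2
        rw [if_neg (by omega), zero_mul, zero_mul]
  have s3 : ∑ i : Fin (m + 1), (if (i : ℕ) + 1 = (j : ℕ) then
      ((j : ℕ) : ℝ) * N 0 1 else 0) * x ^ (m - (i : ℕ)) *
      y ^ (i : ℕ) = ((j : ℕ) : ℝ) * N 0 1 * x ^ (m - (j : ℕ) + 1) * y ^ ((j : ℕ) - 1) := by
    by_cases h : (j : ℕ) = 0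
    · rw [Finset.sum_eq_zero]
      · rw [h]; simp
      · intro i _
        rw [if_neg (by omega), zero_mul, zero_mul]
    · have hlt : (j : ℕ) - 1 < m + 1 := by omega
      rw [Finset.sum_eq_single ⟨(j : ℕ) - 1, hlt⟩]
      · rw [if_pos (by show (j : ℕ) - 1 + 1 = j; omega)]
        have : m - ((j : ℕ) - 1) = m - (j : ℕ) + 1 := by omega
        simp only [this]
      · intro i _ hi
        rw [if_neg fun h' => hi (Fin.ext (by show (i : ℕ) = (j : ℕ) - 1; omega)), zero_mul,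
          zero_mul]
      · simp
  rw [s1, s2, s3, hcast]
  have e1 : ((m : ℝ) - (j : ℕ)) * x ^ (m - (j : ℕ) - 1) * x =
      ((m : ℝ) - (j : ℕ)) * x ^ (m - (j : ℕ)) := by
    by_cases h : (j : ℕ) = m
    · rw [h, sub_self, zero_mul, zero_mul, zero_mul]
    · have : x ^ (m - (j : ℕ)) = x ^ (m - (j : ℕ) - 1) * x := by
        rw [← pow_succ]
        congr 1
        omega
      rw [this, mul_assoc]
  have e2 : ((j : ℕ) : ℝ) * y ^ ((j : ℕ) - 1) * y = ((j : ℕ) : ℝ) * y ^ (j : ℕ) := by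
    by_cases h : (j : ℕ) = 0
    · rw [h]; simp
    · have : y ^ (j : ℕ) = y ^ ((j : ℕ) - 1) * y := by
        rw [← pow_succ]
        congr 1
        omega
      rw [this, mul_assoc]
  rw [pow_succ, pow_succ]
  linear_combination (-(N 0 0 * y ^ (j : ℕ))) * e1 - (x ^ (m - (j : ℕ)) * N 1 1) * e2

theorem ev_DD (N : Matrix (Fin 2) (Fin 2) ℝ) (f : Fin (m + 1) → ℝ) (x y : ℝ) :
    HasDerivAt (fun t : ℝ => ev f (x + t * (x * N 0 0 + y * N 1 0))
      (y + t * (x * N 0 1 + y * N 1 1))) (ev (DD m N *ᵥ f) x y) 0 := by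
  have h1 : ev (DD m N *ᵥ f) x y = ∑ j : Fin (m + 1), f j *
      ∑ i : Fin (m + 1), DD m N i j * x ^ (m - (i : ℕ)) * y ^ (i : ℕ) := by
    simp only [ev, mulVec, dotProduct, Finset.sum_mul, Finset.mul_sum]
    rw [Finset.sum_comm]
    exact Finset.sum_congr rfl fun j _ => Finset.sum_congr rfl fun i _ => by ring
  rw [h1]
  unfold ev
  refine HasDerivAt.fun_sum fun j _ => ?_
  rw [col_DD]
  have ha : HasDerivAt (fun t : ℝ => x + t * (x * N 0 0 + y * N 1 0))
      (x * N 0 0 + y * N 1 0) 0 := by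
    simpa using ((hasDerivAt_id (0 : ℝ)).mul_const (x * N 0 0 + y * N 1 0)).const_add x
  have hb : HasDerivAt (fun t : ℝ => y + t * (x * N 0 1 + y * N 1 1))
      (x * N 0 1 + y * N 1 1) 0 := by
    simpa using ((hasDerivAt_id (0 : ℝ)).mul_const (x * N 0 1 + y * N 1 1)).const_add y
  have h2 := ((ha.fun_pow (m - (j : ℕ))).const_mul (f j)).mul (hb.fun_pow (j : ℕ))
  refine h2.congr_deriv ?_
  simp only [zero_mul, add_zero]
  ring

theorem sym_DD {g N N' : Matrix (Fin 2) (Fin 2) ℝ} (h : g * N = N' * g) :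
    sym m g * DD m N = DD m N' * sym m g := by
  apply sym_mulVec_ext
  intro f y
  rw [← mulVec_mulVec, ← mulVec_mulVec, ev_sym]
  have h00 := congrFun (congrFun h 0) 0
  have h01 := congrFun (congrFun h 0) 1
  have h10 := congrFun (congrFun h 1) 0
  have h11 := congrFun (congrFun h 1) 1
  simp only [Matrix.mul_apply, Fin.sum_univ_two] at h00 h01 h10 h11
  have h1 := ev_DD N f (1 * g 0 0 + y * g 1 0) (1 * g 0 1 + y * g 1 1)
  have h2 := ev_DD N' (sym m g *ᵥ f) 1 y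
  simp only [ev_sym] at h2
  refine h1.unique (h2.congr_of_eventuallyEq (Filter.Eventually.of_forall fun t => ?_))
  simp only
  congr 1
  · linear_combination t * h00 + t * y * h10
  · linear_combination t * h01 + t * y * h11

/-- The nilpotent matrix of the linear form `a x + b y`. -/
def nil (a b : ℝ) : Matrix (Fin 2) (Fin 2) ℝ := !![-(a * b), a ^ 2; -b ^ 2, a * b]

theorem nil_conj (g : Matrix (Fin 2) (Fin 2) ℝ) (a b : ℝ) :
    g * (g.det • nil a b) = nil (g 0 0 * a + g 0 1 * b) (g 1 0 * a + g 1 1 * b) * g := by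
  rw [det_fin_two]
  ext i j
  fin_cases i <;> fin_cases j
  · simp [Matrix.mul_apply, Fin.sum_univ_two, nil]
    ring
  · simp [Matrix.mul_apply, Fin.sum_univ_two, nil]
    ring
  · simp [Matrix.mul_apply, Fin.sum_univ_two, nil]
    ring
  · simp [Matrix.mul_apply, Fin.sum_univ_two, nil]
    ring

/-- raising operator -/
noncomputable def EE (m : ℕ) : Matrix (Fin (m + 1)) (Fin (m + 1)) ℝ := DD m !![0, 1; 0, 0]
/-- lowering operator -/
noncomputable def FF (m : ℕ) : Matrix (Fin (m + 1)) (Fin (m + 1)) ℝ := DD m !![0, 0; 1, 0]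
/-- weight operator -/
noncomputable def HH (m : ℕ) : Matrix (Fin (m + 1)) (Fin (m + 1)) ℝ := DD m !![1, 0; 0, -1]

theorem DD_nil (a b : ℝ) : DD m (nil a b) = a ^ 2 • EE m - (a * b) • HH m - b ^ 2 • FF m := by
  have h : nil a b = a ^ 2 • !![0, 1; 0, 0] + (-(a * b)) • !![1, 0; 0, -1] +
      (-b ^ 2) • !![0, 0; 1, 0] := by
    ext i j
    fin_cases i <;> fin_cases j <;> simp [nil]
  rw [h, DD_add, DD_add, DD_smul, DD_smul, DD_smul, EE, HH, FF, neg_smul, neg_smul,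
    ← sub_eq_add_neg, ← sub_eq_add_neg]

/-- The equivariant embedding of the binary sextics into the matrices of size `m + 1`. -/
noncomputable def Th (m : ℕ) : V6 →ₗ[ℝ] Matrix (Fin (m + 1)) (Fin (m + 1)) ℝ where
  toFun q := q 0 • (EE m * EE m * EE m)
    - (q 1 / 6) • (EE m * EE m * HH m + EE m * HH m * EE m + HH m * EE m * EE m)
    + (q 2 / 15) • (EE m * HH m * HH m + HH m * EE m * HH m + HH m * HH m * EE m
      - EE m * EE m * FF m - EE m * FF m * EE m - FF m * EE m * EE m)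
    + (q 3 / 20) • (EE m * HH m * FF m + EE m * FF m * HH m + HH m * EE m * FF m
      + HH m * FF m * EE m + FF m * EE m * HH m + FF m * HH m * EE m - HH m * HH m * HH m)
    + (q 4 / 15) • (EE m * FF m * FF m + FF m * EE m * FF m + FF m * FF m * EE m
      - HH m * HH m * FF m - HH m * FF m * HH m - FF m * HH m * HH m)
    - (q 5 / 6) • (HH m * FF m * FF m + FF m * HH m * FF m + FF m * FF m * HH m)
    - q 6 • (FF m * FF m * FF m)
  map_add' q q' := by
    simp only [Pi.add_apply, add_div]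
    module
  map_smul' c q := by
    simp only [Pi.smul_apply, smul_eq_mul, mul_div_assoc, RingHom.id_apply]
    module

theorem Th_pw (a b : ℝ) : Th m (pw 6 a b) = DD m (nil a b) * DD m (nil a b) * DD m (nil a b) := by
  rw [DD_nil, pw6]
  show (_ : Matrix (Fin (m + 1)) (Fin (m + 1)) ℝ) = _
  simp only [Th, LinearMap.coe_mk, AddHom.coe_mk, cons_val]
  generalize EE m = e
  generalize FF m = f
  generalize HH m = h
  simp only [sub_mul, mul_sub, smul_mul_assoc, mul_smul_comm, smul_sub, smul_smul]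
  module

theorem Th_equiv (g : Matrix (Fin 2) (Fin 2) ℝ) (q : V6) :
    Th m (sym 6 g *ᵥ q) * sym m g = g.det ^ 3 • (sym m g * Th m q) := by
  let L : V6 →ₗ[ℝ] Matrix (Fin (m + 1)) (Fin (m + 1)) ℝ :=
    { toFun := fun q => Th m (sym 6 g *ᵥ q) * sym m g
      map_add' := fun a b => by rw [mulVec_add, map_add, add_mul]
      map_smul' := fun c a => by rw [mulVec_smul, map_smul, smul_mul_assoc]; rfl }
  let L' : V6 →ₗ[ℝ] Matrix (Fin (m + 1)) (Fin (m + 1)) ℝ :=
    { toFun := fun q => g.det ^ 3 • (sym m g * Th m q)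
      map_add' := fun a b => by rw [map_add, mul_add, smul_add]
      map_smul' := fun c a => by
        rw [map_smul, mul_smul_comm, smul_comm]; rfl }
  have h : L = L' := by
    apply ext_pw
    intro b
    show Th m (sym 6 g *ᵥ pw 6 1 b) * sym m g = g.det ^ 3 • (sym m g * Th m (pw 6 1 b))
    rw [sym_pw, Th_pw, Th_pw]
    have h1 := sym_DD (m := m) (nil_conj g 1 b)
    rw [DD_smul, mul_smul_comm] at h1
    set A := DD m (nil (g 0 0 * 1 + g 0 1 * b) (g 1 0 * 1 + g 1 1 * b)) with hA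
    set B := DD m (nil 1 b) with hB
    calc A * A * A * sym m g = A * A * (A * sym m g) := by rw [mul_assoc]
      _ = A * A * (g.det • (sym m g * B)) := by rw [h1]
      _ = g.det • (A * (A * sym m g) * B) := by
          rw [mul_smul_comm]; simp only [mul_assoc]
      _ = g.det • (A * (g.det • (sym m g * B)) * B) := by rw [h1]
      _ = (g.det * g.det) • ((A * sym m g) * (B * B)) := by
          rw [mul_smul_comm, smul_mul_assoc, smul_smul]; simp only [mul_assoc]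
      _ = (g.det * g.det) • ((g.det • (sym m g * B)) * (B * B)) := by rw [h1]
      _ = g.det ^ 3 • (sym m g * (B * B * B)) := by
          rw [smul_mul_assoc, smul_smul]
          simp only [mul_assoc]
          congr 1
          ring
  exact congrFun (congrArg DFunLike.coe h) q

/-- equivariance under `SL₂` -/
theorem Th_conj {g : Matrix (Fin 2) (Fin 2) ℝ} (hg : g.det = 1) (q : V6) :
    Th m (sym 6 g *ᵥ q) = sym m g * Th m q * sym m g⁻¹ := by
  have h := Th_equiv (m := m) g q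
  rw [hg, one_pow, one_smul] at h
  rw [← h, mul_assoc, ← sym_mul, Matrix.mul_nonsing_inv _ (by rw [hg]; exact isUnit_one), sym_one,
    mul_one]

theorem trace_conj {g : Matrix (Fin 2) (Fin 2) ℝ} (hg : g.det = 1)
    (A : Matrix (Fin (m + 1)) (Fin (m + 1)) ℝ) : (sym m g * A * sym m g⁻¹).trace = A.trace := by
  rw [trace_mul_comm, ← mul_assoc, ← sym_mul,
    Matrix.nonsing_inv_mul _ (by rw [hg]; exact isUnit_one), sym_one, one_mul]

theorem trace_Th (q : V6) : (Th m q).trace = 0 := by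
  have h0 : (Th m (pw 6 1 0)).trace = 0 := by
    have hg : (!![2, 0; 0, (2 : ℝ)⁻¹] : Matrix (Fin 2) (Fin 2) ℝ).det = 1 := by
      rw [det_fin_two_of]; norm_num
    have h1 := Th_conj (m := m) hg (pw 6 1 0)
    have h2 : sym 6 !![2, 0; 0, (2 : ℝ)⁻¹] *ᵥ pw 6 1 0 = (64 : ℝ) • pw 6 1 0 := by
      rw [sym_pw]
      apply ev_inj
      intro y
      rw [ev_smul, ev_pw, ev_pw]
      simp
      norm_num
    rw [h2, map_smul] at h1
    have h3 := congrArg Matrix.trace h1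
    rw [trace_conj hg, trace_smul, smul_eq_mul] at h3
    linarith
  let L : V6 →ₗ[ℝ] ℝ := (Matrix.traceLinearMap (Fin (m + 1)) ℝ ℝ) ∘ₗ Th m
  have h : L = 0 := by
    apply ext_pw
    intro b
    show (Th m (pw 6 1 b)).trace = 0
    have hg : (!![1, 0; b, 1] : Matrix (Fin 2) (Fin 2) ℝ).det = 1 := by
      rw [det_fin_two_of]; norm_num
    have h1 := Th_conj (m := m) hg (pw 6 1 0)
    have h2 : sym 6 !![1, 0; b, 1] *ᵥ pw 6 1 0 = pw 6 1 b := by
      rw [sym_pw]
      simp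
    rw [h2] at h1
    rw [h1, trace_conj hg, h0]
  exact congrFun (congrArg DFunLike.coe h) q

/-! ### The trace form -/

/-- The trace form on the sextics. -/
noncomputable def BM (m : ℕ) (q q' : V6) : ℝ := (Th m q * Th m q').trace

theorem BM_inv {g : Matrix (Fin 2) (Fin 2) ℝ} (hg : g.det = 1) (q q' : V6) :
    BM m (sym 6 g *ᵥ q) (sym 6 g *ᵥ q') = BM m q q' := by
  have hu : IsUnit g.det := by rw [hg]; exact isUnit_one
  rw [BM, Th_conj hg, Th_conj hg, BM]
  calc (sym m g * Th m q * sym m g⁻¹ * (sym m g * Th m q' * sym m g⁻¹)).trace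
      = (sym m g * Th m q * (sym m g⁻¹ * sym m g) * Th m q' * sym m g⁻¹).trace := by
        simp only [mul_assoc]
    _ = (sym m g * (Th m q * Th m q') * sym m g⁻¹).trace := by
        rw [← sym_mul, Matrix.nonsing_inv_mul _ hu, sym_one, mul_one]
        simp only [mul_assoc]
    _ = _ := trace_conj hg _

theorem BM_smul_right (c : ℝ) (q q' : V6) : BM m q (c • q') = c * BM m q q' := by
  rw [BM, map_smul, mul_smul_comm, trace_smul, smul_eq_mul, BM]

theorem BM_smul_left (c : ℝ) (q q' : V6) : BM m (c • q) q' = c * BM m q q' := by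
  rw [BM, map_smul, smul_mul_assoc, trace_smul, smul_eq_mul, BM]

theorem BM_add_left (q p q' : V6) : BM m (q + p) q' = BM m q q' + BM m p q' := by
  rw [BM, map_add, add_mul, trace_add, BM, BM]

theorem BM_sub_left (q p q' : V6) : BM m (q - p) q' = BM m q q' - BM m p q' := by
  rw [BM, map_sub, sub_mul, trace_sub, BM, BM]

theorem EE_apply (i j : Fin (m + 1)) :
    EE m i j = if (i : ℕ) + 1 = (j : ℕ) then ((j : ℕ) : ℝ) else 0 := by
  simp [EE, DD]

theorem FF_apply (i j : Fin (m + 1)) :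
    FF m i j = if (i : ℕ) = (j : ℕ) + 1 then ((m : ℝ) - (j : ℕ)) else 0 := by
  simp [FF, DD]

theorem EE_nonneg (i j : Fin (m + 1)) : 0 ≤ EE m i j := by
  rw [EE_apply]
  split_ifs <;> positivity

theorem FF_nonneg (i j : Fin (m + 1)) : 0 ≤ FF m i j := by
  rw [FF_apply]
  split_ifs
  · have : (j : ℕ) ≤ m := Nat.lt_succ_iff.1 j.2
    have : ((j : ℕ) : ℝ) ≤ m := by exact_mod_cast this
    linarith
  · exact le_rfl

theorem mul_nonneg' {A B : Matrix (Fin (m + 1)) (Fin (m + 1)) ℝ} (hA : ∀ i j, 0 ≤ A i j)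
    (hB : ∀ i j, 0 ≤ B i j) (i j : Fin (m + 1)) : 0 ≤ (A * B) i j := by
  rw [Matrix.mul_apply]
  exact Finset.sum_nonneg fun k _ => mul_nonneg (hA _ _) (hB _ _)

theorem mul_pos' {A B : Matrix (Fin (m + 1)) (Fin (m + 1)) ℝ} (hA : ∀ i j, 0 ≤ A i j)
    (hB : ∀ i j, 0 ≤ B i j) {i j : Fin (m + 1)} (k : Fin (m + 1)) (h1 : 0 < A i k)
    (h2 : 0 < B k j) : 0 < (A * B) i j := by
  rw [Matrix.mul_apply]
  exact lt_of_lt_of_le (mul_pos h1 h2)
    (Finset.single_le_sum (f := fun k => A i k * B k j)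
      (fun k _ => mul_nonneg (hA _ _) (hB _ _)) (Finset.mem_univ k))

theorem trace_EF (hm : 3 ≤ m) :
    0 < ((EE m * EE m * EE m) * (FF m * FF m * FF m)).trace := by
  have e1 := EE_nonneg (m := m)
  have f1 := FF_nonneg (m := m)
  have e2 := mul_nonneg' e1 e1
  have e3 := mul_nonneg' e2 e1
  have f2 := mul_nonneg' f1 f1
  have f3 := mul_nonneg' f2 f1
  have hm' : (3 : ℝ) ≤ m := by exact_mod_cast hm
  let i0 : Fin (m + 1) := ⟨0, by omega⟩
  let i1 : Fin (m + 1) := ⟨1, by omega⟩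
  let i2 : Fin (m + 1) := ⟨2, by omega⟩
  let i3 : Fin (m + 1) := ⟨3, by omega⟩
  have hE : 0 < (EE m * EE m * EE m) i0 i3 := by
    refine mul_pos' e2 e1 i2 (mul_pos' e1 e1 i1 ?_ ?_) ?_ <;> rw [EE_apply] <;>
      simp [i0, i1, i2, i3]
  have hF : 0 < (FF m * FF m * FF m) i3 i0 := by
    refine mul_pos' f2 f1 i1 (mul_pos' f1 f1 i2 ?_ ?_) ?_ <;> rw [FF_apply] <;>
      simp [i0, i1, i2, i3] <;> linarith
  have h00 : 0 < ((EE m * EE m * EE m) * (FF m * FF m * FF m)) i0 i0 := mul_pos' e3 f3 i3 hE hF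
  rw [Matrix.trace]
  exact lt_of_lt_of_le h00 (Finset.single_le_sum
    (f := fun i => ((EE m * EE m * EE m) * (FF m * FF m * FF m)) i i)
    (fun i _ => mul_nonneg' e3 f3 i i) (Finset.mem_univ i0))

theorem BM_last (hm : 3 ≤ m) : ∃ k : ℝ, k ≠ 0 ∧ ∀ w : V6, BM m w (pw 6 0 1) = k * w 0 := by
  have hg : (!![2, 0; 0, (2 : ℝ)⁻¹] : Matrix (Fin 2) (Fin 2) ℝ).det = 1 := by
    rw [det_fin_two_of]; norm_num
  have h6 : sym 6 !![2, 0; 0, (2 : ℝ)⁻¹] *ᵥ pw 6 0 1 = (64 : ℝ)⁻¹ • pw 6 0 1 := by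
    rw [sym_pw]
    apply ev_inj
    intro y
    rw [ev_smul, ev_pw, ev_pw]
    simp
    ring
  have key : ∀ w : V6, BM m (sym 6 !![2, 0; 0, (2 : ℝ)⁻¹] *ᵥ w) (pw 6 0 1) =
      64 * BM m w (pw 6 0 1) := by
    intro w
    have h1 := BM_inv (m := m) hg w (pw 6 0 1)
    rw [h6, BM_smul_right] at h1
    linarith
  have hz : ∀ r : Fin (6 + 1), r ≠ 0 → BM m (Pi.single r 1) (pw 6 0 1) = 0 := by
    intro r hr
    have h1 := key (Pi.single r 1)
    have h2 : sym 6 !![2, 0; 0, (2 : ℝ)⁻¹] *ᵥ (Pi.single r 1 : V6) =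
        ((2 : ℝ) ^ (6 - (r : ℕ)) * (2 : ℝ)⁻¹ ^ (r : ℕ)) • (Pi.single r 1 : V6) := by
      rw [sym_diag]
      funext j
      by_cases hj : j = r
      · subst hj; simp
      · simp [hj]
    rw [h2, BM_smul_left] at h1
    have h3 : (64 - (2 : ℝ) ^ (6 - (r : ℕ)) * (2 : ℝ)⁻¹ ^ (r : ℕ)) *
        BM m (Pi.single r 1) (pw 6 0 1) = 0 := by linarith
    rcases mul_eq_zero.1 h3 with h4 | h4
    · exfalso
      fin_cases r
      · exact hr rfl
      all_goals norm_num at h4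
    · exact h4
  refine ⟨BM m (Pi.single 0 1) (pw 6 0 1), ?_, ?_⟩
  · have h1 : Th m (Pi.single 0 1) = EE m * EE m * EE m := by
      simp [Th]
    have h2 : Th m (pw 6 0 1) = -(FF m * FF m * FF m) := by
      rw [pw6]
      simp [Th]
    rw [BM, h1, h2, mul_neg, trace_neg]
    exact (neg_neg_of_pos (trace_EF hm)).ne
  · intro w
    have hw : w = ∑ r : Fin (6 + 1), w r • (Pi.single r 1 : V6) := by
      funext j
      simp [Finset.sum_apply, Pi.single_apply]
    have hlin : ∀ (s : Finset (Fin (6 + 1))) , BM m (∑ r ∈ s, w r • (Pi.single r 1 : V6))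
        (pw 6 0 1) = ∑ r ∈ s, w r * BM m (Pi.single r 1) (pw 6 0 1) := by
      intro s
      rw [BM, map_sum, Finset.sum_mul, trace_sum]
      refine Finset.sum_congr rfl fun r _ => ?_
      rw [← BM_smul_left, BM]
    conv_lhs => rw [hw]
    rw [hlin, Finset.sum_eq_single 0]
    · ring
    · intro r _ hr
      rw [hz r hr, mul_zero]
    · simp

/-- The trace form is nondegenerate. -/
theorem BM_nondeg (hm : 3 ≤ m) {q : V6} (h : ∀ q', BM m q q' = 0) : q = 0 := by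
  obtain ⟨k, hk, hk'⟩ := BM_last (m := m) hm
  apply ev_inj
  intro y
  have hg : (!![1, y; 0, 1] : Matrix (Fin 2) (Fin 2) ℝ).det = 1 := by
    rw [det_fin_two_of]; norm_num
  have h1 := BM_inv (m := m) hg q (pw 6 (-y) 1)
  have h2 : sym 6 !![1, y; 0, 1] *ᵥ pw 6 (-y) 1 = pw 6 0 1 := by
    rw [sym_pw]
    simp
  rw [h2, hk', h] at h1
  have h3 : (sym 6 !![1, y; 0, 1] *ᵥ q) 0 = 0 := by
    rcases mul_eq_zero.1 h1 with h4 | h4
    · exact absurd h4 hk
    · exact h4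
  have h4 : ev (sym 6 !![1, y; 0, 1] *ᵥ q) 1 0 = (sym 6 !![1, y; 0, 1] *ᵥ q) 0 := by
    rw [ev6]; simp
  rw [ev_sym, h3] at h4
  simp at h4
  rw [h4]
  simp [ev]

end Pool.Agent.Y245.HS
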