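import Pool.Agent.Y245.HS.Coc1
import Pool.Agent.Y245.HS.Theta
import Pool.Agent.H225R3.SccGroup

/-!
# Cocycles of the surface group of genus two with values in the binary sextics
-/

set_option autoImplicit false

open Matrix Module
open scoped MatrixGroups

namespace Pool.Agent.Y245.HS

open Pool.Agent.H225R3.CV Pool.Agent.H225R3.Scc

/-- real `2 × 2` matrices -/
abbrev M2 : Type := Matrix (Fin 2) (Fin 2) ℝ

theorem anti_left (A B : M2) : A * (A * B - B * A) * A = A.det • (A * B - B * A) := by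
  rw [det_fin_two]
  ext i j
  fin_cases i <;> fin_cases j <;>
    · simp [Matrix.mul_apply, Fin.sum_univ_two]
      ring

theorem anti_right (A B : M2) : B * (A * B - B * A) * B = B.det • (A * B - B * A) := by
  rw [det_fin_two]
  ext i j
  fin_cases i <;> fin_cases j <;>
    · simp [Matrix.mul_apply, Fin.sum_univ_two]
      ring

theorem coe_mul' (a b : SL(2, ℝ)) : ((a * b : SL(2, ℝ)) : M2) = (a : M2) * (b : M2) := rfl

theorem coe_one' : ((1 : SL(2, ℝ)) : M2) = 1 := rfl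

theorem mul_inv' (a : SL(2, ℝ)) : (a : M2) * ((a⁻¹ : SL(2, ℝ)) : M2) = 1 := by
  rw [← coe_mul', mul_inv_cancel, coe_one']

theorem inv_mul' (a : SL(2, ℝ)) : ((a⁻¹ : SL(2, ℝ)) : M2) * (a : M2) = 1 := by
  rw [← coe_mul', inv_mul_cancel, coe_one']

theorem add_inv' (a : SL(2, ℝ)) : (a : M2) + ((a⁻¹ : SL(2, ℝ)) : M2) =
    (a : M2).trace • (1 : M2) := by
  have h : ((a⁻¹ : SL(2, ℝ)) : M2) = adjugate (a : M2) := Matrix.SpecialLinearGroup.coe_inv a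
  rw [h, adjugate_fin_two, trace_fin_two]
  ext i j
  fin_cases i <;> fin_cases j <;> simp
  ring

theorem comm1 (a b : SL(2, ℝ)) :
    (a : M2) * ((((a * b * a⁻¹ * b⁻¹)⁻¹ : SL(2, ℝ)) : M2) - 1) * (a : M2) =
      1 - ((a * b * a⁻¹ * b⁻¹ : SL(2, ℝ)) : M2) := by
  have h1 : (a : M2) * (((a * b * a⁻¹ * b⁻¹)⁻¹ : SL(2, ℝ)) : M2) * (a : M2) =
      (a : M2) * (b : M2) * (a : M2) * ((b⁻¹ : SL(2, ℝ)) : M2) := by
    simp only [← coe_mul']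
    congr 1
    group
  have h2 : (a : M2) * (b : M2) * (a : M2) * ((b⁻¹ : SL(2, ℝ)) : M2) +
      (a : M2) * (b : M2) * ((a⁻¹ : SL(2, ℝ)) : M2) * ((b⁻¹ : SL(2, ℝ)) : M2) =
      (a : M2).trace • (a : M2) := by
    rw [← add_mul, ← mul_add, add_inv', mul_smul_comm, mul_one, smul_mul_assoc, mul_assoc,
      mul_inv', mul_one]
  have h3 : (a : M2) * (a : M2) + 1 = (a : M2).trace • (a : M2) := by
    rw [← mul_inv' a, ← mul_add, add_inv', mul_smul_comm, mul_one]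
  rw [mul_sub, sub_mul, mul_one, h1]
  have h4 : ((a * b * a⁻¹ * b⁻¹ : SL(2, ℝ)) : M2) =
      (a : M2) * (b : M2) * ((a⁻¹ : SL(2, ℝ)) : M2) * ((b⁻¹ : SL(2, ℝ)) : M2) := rfl
  rw [h4, sub_eq_sub_iff_add_eq_add, h2, add_comm, h3]

theorem comm2 (a b : SL(2, ℝ)) :
    (b : M2) * (1 - ((a * b * a⁻¹ * b⁻¹ : SL(2, ℝ)) : M2)) * (b : M2) =
      (((a * b * a⁻¹ * b⁻¹)⁻¹ : SL(2, ℝ)) : M2) - 1 := by
  have h1 : (b : M2) * ((a * b * a⁻¹ * b⁻¹ : SL(2, ℝ)) : M2) * (b : M2) =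
      (b : M2) * (a : M2) * (b : M2) * ((a⁻¹ : SL(2, ℝ)) : M2) := by
    simp only [← coe_mul']
    congr 1
    group
  have h2 : (b : M2) * (a : M2) * (b : M2) * ((a⁻¹ : SL(2, ℝ)) : M2) +
      (b : M2) * (a : M2) * ((b⁻¹ : SL(2, ℝ)) : M2) * ((a⁻¹ : SL(2, ℝ)) : M2) =
      (b : M2).trace • (b : M2) := by
    rw [← add_mul, ← mul_add, add_inv', mul_smul_comm, mul_one, smul_mul_assoc, mul_assoc,
      mul_inv', mul_one]
  have h3 : (b : M2) * (b : M2) + 1 = (b : M2).trace • (b : M2) := by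
    rw [← mul_inv' b, ← mul_add, add_inv', mul_smul_comm, mul_one]
  have h4 : (((a * b * a⁻¹ * b⁻¹)⁻¹ : SL(2, ℝ)) : M2) =
      (b : M2) * (a : M2) * ((b⁻¹ : SL(2, ℝ)) : M2) * ((a⁻¹ : SL(2, ℝ)) : M2) := by
    simp only [← coe_mul']
    congr 1
    group
  rw [mul_sub, sub_mul, mul_one, h1, h4, sub_eq_sub_iff_add_eq_add, h3, add_comm, h2]

theorem trace_mul_zero {M : SL(2, ℝ)} {R : M2} (hR : R.trace = 0) (h : (M : M2) * R * M = R) :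
    ((M : M2) * R).trace = 0 := by
  have h1 : (M : M2) * R = R * ((M⁻¹ : SL(2, ℝ)) : M2) := by
    calc (M : M2) * R = (M : M2) * R * (M * ((M⁻¹ : SL(2, ℝ)) : M2)) := by rw [mul_inv', mul_one]
      _ = ((M : M2) * R * M) * ((M⁻¹ : SL(2, ℝ)) : M2) := by simp only [mul_assoc]
      _ = _ := by rw [h]
  have h2 : ((M⁻¹ : SL(2, ℝ)) : M2) = (M : M2).trace • (1 : M2) - (M : M2) := by
    rw [← add_inv' M]; abel
  have h3 := congrArg Matrix.trace h1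
  rw [h2, mul_sub, trace_sub, mul_smul_comm, trace_smul, mul_one, hR, smul_zero, zero_sub,
    trace_mul_comm R] at h3
  linarith

/-! ### nontrivial elements of the surface group -/

/-- a test homomorphism -/
def testRep : SurfaceGroup 2 →* Equiv.Perm (Fin 3) :=
  mkRep ![Equiv.swap 0 1 * Equiv.swap 1 2, 1, Equiv.swap 1 2 * (Equiv.swap 0 1)⁻¹,
    Equiv.swap 0 1] (by decide)

theorem testRep_Y (i : Fin 4) : testRep (Y i) =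
    (![Equiv.swap 0 1 * Equiv.swap 1 2, 1, Equiv.swap 1 2 * (Equiv.swap 0 1)⁻¹,
    Equiv.swap 0 1] : Fin 4 → Equiv.Perm (Fin 3)) i := mkRep_Y _ _ i

theorem A₁_ne : A₁ ≠ 1 := by
  intro h
  have h1 := congrArg testRep h
  rw [A₁_eq, map_mul, map_inv, map_mul, testRep_Y, testRep_Y, testRep_Y, map_one] at h1
  revert h1
  decide

theorem B₁_ne : B₁ ≠ 1 := by
  intro h
  have h1 := congrArg testRep h
  rw [B₁_eq, map_mul, map_mul, testRep_Y, testRep_Y, testRep_Y, map_one] at h1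
  revert h1
  decide

theorem Sep_ne : Pool.Agent.H225R3.Scc.Sep ≠ 1 := by
  intro h
  have h1 := congrArg testRep h
  rw [Sep_eq, map_mul, map_mul, map_mul, map_inv, map_inv, testRep_Y, testRep_Y, map_one] at h1
  revert h1
  decide

theorem mem_of_Y (H : Subgroup (SurfaceGroup 2)) (h : ∀ i, Y i ∈ H) (γ : SurfaceGroup 2) :
    γ ∈ H := by
  have h1 : (⊤ : Subgroup (SurfaceGroup 2)) ≤ H := by
    rw [← PresentedGroup.closure_range_of, Subgroup.closure_le]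
    rintro _ ⟨x, rfl⟩
    have h2 := app_gen_eq (MonoidHom.id (SurfaceGroup 2)) x
    simp only [MonoidHom.id_apply] at h2
    show gen x ∈ H
    rw [h2]
    rcases x with x | x <;> fin_cases x
    · exact H.mul_mem (h 0) (H.inv_mem (H.mul_mem (h 2) (h 3)))
    · exact H.mul_mem (h 2) (h 3)
    · exact H.mul_mem (H.mul_mem (h 2) (h 3)) (h 1)
    · exact h 3
  exact h1 (Subgroup.mem_top γ)

/-! ### The matrix `R` -/

/-- `ρ₀` sends all nontrivial elements to hyperbolic ones. -/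
def PurelyHyperbolic (ρ₀ : SurfaceGroup 2 →* SL(2, ℝ)) : Prop :=
  ∀ γ : SurfaceGroup 2, γ ≠ 1 → 2 < |(ρ₀ γ : M2).trace|

variable (ρ₀ : SurfaceGroup 2 →* SL(2, ℝ))

/-- the matrix of the hyperelliptic involution -/
def RR : M2 := (ρ₀ (Y 2) : M2) * (ρ₀ (Y 3) : M2) - (ρ₀ (Y 3) : M2) * (ρ₀ (Y 2) : M2)

theorem RR_trace : (RR ρ₀).trace = 0 := by
  rw [RR, trace_sub, trace_mul_comm, sub_self]

theorem RR_eq : RR ρ₀ = (1 - (ρ₀ Sep : M2)) * (ρ₀ A₂ : M2) := by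
  have h : ρ₀ Sep * ρ₀ A₂ = ρ₀ (Y 3) * ρ₀ (Y 2) := by
    rw [← map_mul, ← map_mul]
    congr 1
    rw [Sep_eq, A₂_eq]
    group
  rw [RR, sub_mul, one_mul, ← coe_mul', ← coe_mul', ← coe_mul', h, ← map_mul, A₂_eq]

theorem Sep_eq2 : ρ₀ Sep = ρ₀ B₂ * ρ₀ A₂ * (ρ₀ B₂)⁻¹ * (ρ₀ A₂)⁻¹ := by
  rw [← map_inv, ← map_inv, ← map_mul, ← map_mul, ← map_mul]
  congr 1
  rw [Sep_eq, A₂_eq, B₂_eq]
  group

theorem Sep_eq1 : ρ₀ Sep = ρ₀ A₁ * ρ₀ B₁ * (ρ₀ A₁)⁻¹ * (ρ₀ B₁)⁻¹ := by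
  rw [← map_inv, ← map_inv, ← map_mul, ← map_mul, ← map_mul]
  rfl

theorem RR_conj (i : Fin 4) : (ρ₀ (Y i) : M2) * RR ρ₀ * (ρ₀ (Y i) : M2) = RR ρ₀ := by
  have hdet : ∀ a : SL(2, ℝ), (a : M2).det = 1 := fun a => a.2
  have k1 := comm1 (ρ₀ A₁) (ρ₀ B₁)
  have k2 := comm2 (ρ₀ A₁) (ρ₀ B₁)
  have k3 := comm2 (ρ₀ B₂) (ρ₀ A₂)
  rw [← Sep_eq1] at k1 k2
  rw [← Sep_eq2] at k3
  fin_cases i
  · have e : (ρ₀ (Y 0) : M2) = (ρ₀ A₁ : M2) * (ρ₀ A₂ : M2) := by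
      rw [Y0_eq, map_mul, coe_mul']
    show (ρ₀ (Y 0) : M2) * RR ρ₀ * (ρ₀ (Y 0) : M2) = RR ρ₀
    rw [e, RR_eq]
    calc (ρ₀ A₁ : M2) * (ρ₀ A₂ : M2) * ((1 - (ρ₀ Sep : M2)) * (ρ₀ A₂ : M2)) *
          ((ρ₀ A₁ : M2) * (ρ₀ A₂ : M2))
        = (ρ₀ A₁ : M2) * ((ρ₀ A₂ : M2) * (1 - (ρ₀ Sep : M2)) * (ρ₀ A₂ : M2)) *
          (ρ₀ A₁ : M2) * (ρ₀ A₂ : M2) := by simp only [mul_assoc]
      _ = _ := by rw [k3, k1]
  · have e : (ρ₀ (Y 1) : M2) = (((ρ₀ A₂)⁻¹ : SL(2, ℝ)) : M2) * (ρ₀ B₁ : M2) := by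
      rw [Y1_eq, map_mul, map_inv, coe_mul']
    show (ρ₀ (Y 1) : M2) * RR ρ₀ * (ρ₀ (Y 1) : M2) = RR ρ₀
    rw [e, RR_eq]
    calc (((ρ₀ A₂)⁻¹ : SL(2, ℝ)) : M2) * (ρ₀ B₁ : M2) * ((1 - (ρ₀ Sep : M2)) * (ρ₀ A₂ : M2)) *
          ((((ρ₀ A₂)⁻¹ : SL(2, ℝ)) : M2) * (ρ₀ B₁ : M2))
        = (((ρ₀ A₂)⁻¹ : SL(2, ℝ)) : M2) * ((ρ₀ B₁ : M2) * (1 - (ρ₀ Sep : M2)) *
          ((ρ₀ A₂ : M2) * (((ρ₀ A₂)⁻¹ : SL(2, ℝ)) : M2)) * (ρ₀ B₁ : M2)) := by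
          simp only [mul_assoc]
      _ = (((ρ₀ A₂)⁻¹ : SL(2, ℝ)) : M2) *
          ((ρ₀ A₂ : M2) * (1 - (ρ₀ Sep : M2)) * (ρ₀ A₂ : M2)) := by
          rw [mul_inv', mul_one, k2, k3]
      _ = ((((ρ₀ A₂)⁻¹ : SL(2, ℝ)) : M2) * (ρ₀ A₂ : M2)) *
          ((1 - (ρ₀ Sep : M2)) * (ρ₀ A₂ : M2)) := by simp only [mul_assoc]
      _ = _ := by rw [inv_mul', one_mul]
  · show (ρ₀ (Y 2) : M2) * RR ρ₀ * (ρ₀ (Y 2) : M2) = RR ρ₀
    rw [RR, anti_left, hdet, one_smul]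
  · show (ρ₀ (Y 3) : M2) * RR ρ₀ * (ρ₀ (Y 3) : M2) = RR ρ₀
    rw [RR, anti_right, hdet, one_smul]

/-- `R ρ₀(γ) = ρ₀(ι γ) R` -/
theorem RR_iota (γ : SurfaceGroup 2) : RR ρ₀ * (ρ₀ γ : M2) = (ρ₀ (iota γ) : M2) * RR ρ₀ := by
  let H : Subgroup (SurfaceGroup 2) :=
    { carrier := {γ | RR ρ₀ * (ρ₀ γ : M2) = (ρ₀ (iota γ) : M2) * RR ρ₀}
      mul_mem' := by
        intro a b ha hb
        simp only [Set.mem_ofPred_eq] at ha hb ⊢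
        rw [map_mul, map_mul, map_mul, coe_mul', coe_mul', ← mul_assoc, ha, mul_assoc, hb,
          mul_assoc]
      one_mem' := by
        simp only [Set.mem_ofPred_eq, map_one, coe_one', one_mul, mul_one]
      inv_mem' := by
        intro a ha
        simp only [Set.mem_ofPred_eq] at ha ⊢
        rw [map_inv, map_inv, map_inv]
        calc RR ρ₀ * (((ρ₀ a)⁻¹ : SL(2, ℝ)) : M2)
            = (((ρ₀ (iota a))⁻¹ : SL(2, ℝ)) : M2) * ((ρ₀ (iota a) : M2) * RR ρ₀) *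
              (((ρ₀ a)⁻¹ : SL(2, ℝ)) : M2) := by
              rw [← mul_assoc, inv_mul', one_mul]
          _ = (((ρ₀ (iota a))⁻¹ : SL(2, ℝ)) : M2) * RR ρ₀ * ((ρ₀ a : M2) *
              (((ρ₀ a)⁻¹ : SL(2, ℝ)) : M2)) := by
              rw [← ha]; simp only [mul_assoc]
          _ = _ := by rw [mul_inv', mul_one] }
  refine mem_of_Y H (fun i => ?_) γ
  show RR ρ₀ * (ρ₀ (Y i) : M2) = (ρ₀ (iota (Y i)) : M2) * RR ρ₀
  rw [iota_Y, map_inv]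
  calc RR ρ₀ * (ρ₀ (Y i) : M2)
      = (((ρ₀ (Y i))⁻¹ : SL(2, ℝ)) : M2) * ((ρ₀ (Y i) : M2) * RR ρ₀ * (ρ₀ (Y i) : M2)) := by
        rw [mul_assoc (ρ₀ (Y i) : M2), ← mul_assoc, inv_mul', one_mul]
    _ = _ := by rw [RR_conj]

variable {ρ₀} in
theorem RR_det (h₀ : PurelyHyperbolic ρ₀) : (RR ρ₀).det ≠ 0 := by
  have h1 : (RR ρ₀).det = 2 - (ρ₀ Sep : M2).trace := by
    rw [RR_eq, det_mul]
    have h2 : (ρ₀ A₂ : M2).det = 1 := (ρ₀ A₂).2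
    have h3 : (ρ₀ Sep : M2).det = 1 := (ρ₀ Sep).2
    rw [h2, mul_one]
    rw [det_fin_two] at h3
    rw [det_fin_two, trace_fin_two]
    simp only [Matrix.sub_apply, Matrix.one_apply_eq, ne_eq, zero_ne_one, one_ne_zero,
      not_false_eq_true, Matrix.one_apply_ne]
    linear_combination h3
  have h2 := h₀ Sep Sep_ne
  rw [h1]
  intro h
  have h3 : (ρ₀ Sep : M2).trace = 2 := by linarith
  rw [h3] at h2
  norm_num at h2

/-- There are no invariant sextics. -/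
theorem no_inv {ρ₀ : SurfaceGroup 2 →* SL(2, ℝ)} (h₀ : PurelyHyperbolic ρ₀) {u : V6}
    (hu : ∀ γ, sym 6 (ρ₀ γ : M2) *ᵥ u = u) : u = 0 := by
  obtain ⟨c, hc⟩ := fixed_hyp (ρ₀ A₁).2 (h₀ A₁ A₁_ne) (hu A₁)
  obtain ⟨d, hd⟩ := fixed_hyp (ρ₀ B₁).2 (h₀ B₁ B₁_ne) (hu B₁)
  by_contra hne
  have hc0 : c ≠ 0 := by
    rintro rfl
    exact hne (by rw [hc, zero_smul])
  have h1 : zz (ρ₀ A₁ : M2) = (c⁻¹ * d) • zz (ρ₀ B₁ : M2) := by
    have h2 : c • zz (ρ₀ A₁ : M2) = d • zz (ρ₀ B₁ : M2) := by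
      exact hc.symm.trans hd
    rw [mul_smul, ← h2, smul_smul, inv_mul_cancel₀ hc0, one_smul]
  have h2 := comm_of_zz h1
  have h3 : ρ₀ A₁ * ρ₀ B₁ = ρ₀ B₁ * ρ₀ A₁ := Subtype.ext h2
  have h4 : ρ₀ Sep = 1 := by
    rw [Sep_eq1, h3]
    group
  have h5 := h₀ Sep Sep_ne
  rw [h4, coe_one', trace_one] at h5
  norm_num at h5

end Pool.Agent.Y245.HS
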