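import Pool.Agent.Y245.HS.Coc2

/-!
# The anti-invariant cocycle and its periods
-/

set_option autoImplicit false

open Matrix Module
open scoped MatrixGroups

namespace Pool.Agent.Y245.HS

open Pool.Agent.H225R3.CV Pool.Agent.H225R3.Scc

/-- The action of `SL(2, ℝ)` on the binary sextics. -/
noncomputable def act6 (g : SL(2, ℝ)) : V6 ≃+ V6 where
  toFun v := sym 6 (g : M2) *ᵥ v
  invFun v := sym 6 ((g⁻¹ : SL(2, ℝ)) : M2) *ᵥ v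
  left_inv v := by
    show sym 6 _ *ᵥ (sym 6 _ *ᵥ v) = v
    rw [mulVec_mulVec, ← sym_mul, ← coe_mul', inv_mul_cancel, coe_one', sym_one, one_mulVec]
  right_inv v := by
    show sym 6 _ *ᵥ (sym 6 _ *ᵥ v) = v
    rw [mulVec_mulVec, ← sym_mul, ← coe_mul', mul_inv_cancel, coe_one', sym_one, one_mulVec]
  map_add' v w := mulVec_add _ _ _

/-- The action as a homomorphism. -/
noncomputable def phi6 : SL(2, ℝ) →* MulAut (Multiplicative V6) where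
  toFun g := AddEquiv.toMultiplicative (act6 g)
  map_one' := by
    refine MulEquiv.ext fun v => ?_
    show Multiplicative.ofAdd (sym 6 ((1 : SL(2, ℝ)) : M2) *ᵥ Multiplicative.toAdd v) = v
    rw [coe_one', sym_one, one_mulVec]
    rfl
  map_mul' g h := by
    refine MulEquiv.ext fun v => ?_
    show Multiplicative.ofAdd (sym 6 ((g * h : SL(2, ℝ)) : M2) *ᵥ Multiplicative.toAdd v) =
      Multiplicative.ofAdd (sym 6 (g : M2) *ᵥ (sym 6 (h : M2) *ᵥ Multiplicative.toAdd v))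
    rw [coe_mul', sym_mul, mulVec_mulVec]

theorem phi6_apply (g : SL(2, ℝ)) (v : Multiplicative V6) :
    Multiplicative.toAdd (phi6 g v) = sym 6 (g : M2) *ᵥ Multiplicative.toAdd v := rfl

/-- A cocycle with prescribed values on the octagon generators. -/
theorem exists_cocycle (ρ₀ : SurfaceGroup 2 →* SL(2, ℝ)) (y : Fin 4 → V6)
    (h : y 0 + sym 6 (ρ₀ (Y 0) : M2) *ᵥ y 1 +
        sym 6 (ρ₀ (Y 0) : M2) *ᵥ (sym 6 (ρ₀ (Y 1) : M2) *ᵥ y 2) +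
        sym 6 (ρ₀ (Y 0) : M2) *ᵥ (sym 6 (ρ₀ (Y 1) : M2) *ᵥ (sym 6 (ρ₀ (Y 2) : M2) *ᵥ y 3)) =
      y 3 + sym 6 (ρ₀ (Y 3) : M2) *ᵥ y 2 +
        sym 6 (ρ₀ (Y 3) : M2) *ᵥ (sym 6 (ρ₀ (Y 2) : M2) *ᵥ y 1) +
        sym 6 (ρ₀ (Y 3) : M2) *ᵥ (sym 6 (ρ₀ (Y 2) : M2) *ᵥ (sym 6 (ρ₀ (Y 1) : M2) *ᵥ y 0))) :
    ∃ v : SurfaceGroup 2 → V6, (∀ γ δ, v (γ * δ) = v γ + sym 6 (ρ₀ γ : M2) *ᵥ v δ) ∧
      ∀ i, v (Y i) = y i := by
  have hr : ρ₀ (Y 0) * ρ₀ (Y 1) * ρ₀ (Y 2) * ρ₀ (Y 3) =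
      ρ₀ (Y 3) * ρ₀ (Y 2) * ρ₀ (Y 1) * ρ₀ (Y 0) := by
    simp only [← map_mul]
    rw [Y_rel]
  let z : Fin 4 → Multiplicative V6 ⋊[phi6] SL(2, ℝ) := fun i =>
    ⟨Multiplicative.ofAdd (y i), ρ₀ (Y i)⟩
  have hz : z 0 * z 1 * z 2 * z 3 = z 3 * z 2 * z 1 * z 0 := by
    apply SemidirectProduct.ext
    · simp only [SemidirectProduct.mul_left, SemidirectProduct.mul_right]
      apply Multiplicative.toAdd.injective
      simp only [toAdd_mul, phi6_apply, coe_mul', sym_mul, ← mulVec_mulVec]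
      exact h
    · simp only [SemidirectProduct.mul_right]
      exact hr
  let Φ : SurfaceGroup 2 →* Multiplicative V6 ⋊[phi6] SL(2, ℝ) := mkRep z hz
  have hright : ∀ γ, (Φ γ).right = ρ₀ γ := by
    have : (SemidirectProduct.rightHom.comp Φ : Rep 2 SL(2, ℝ)) = ρ₀ := by
      refine Rep.ext_Y fun i => ?_
      show (mkRep z hz (Y i)).right = _
      rw [mkRep_Y]
    intro γ
    exact DFunLike.congr_fun this γ
  refine ⟨fun γ => Multiplicative.toAdd (Φ γ).left, ?_, ?_⟩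
  · intro γ δ
    simp only [map_mul, SemidirectProduct.mul_left, toAdd_mul, phi6_apply, hright]
  · intro i
    show Multiplicative.toAdd (mkRep z hz (Y i)).left = y i
    rw [mkRep_Y]
    rfl

section
variable {ρ₀ : SurfaceGroup 2 →* SL(2, ℝ)}

theorem coc_one {v : SurfaceGroup 2 → V6}
    (hv : ∀ γ δ, v (γ * δ) = v γ + sym 6 (ρ₀ γ : M2) *ᵥ v δ) : v 1 = 0 := by
  have h := hv 1 1
  rw [mul_one, map_one, coe_one', sym_one, one_mulVec] at h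
  simpa using h

theorem coc_inv {v : SurfaceGroup 2 → V6}
    (hv : ∀ γ δ, v (γ * δ) = v γ + sym 6 (ρ₀ γ : M2) *ᵥ v δ) (γ : SurfaceGroup 2) :
    v γ⁻¹ = - (sym 6 (ρ₀ γ⁻¹ : M2) *ᵥ v γ) := by
  have h := hv γ⁻¹ γ
  rw [inv_mul_cancel, coc_one hv] at h
  exact eq_neg_of_add_eq_zero_left h.symm

theorem coc_conj {v : SurfaceGroup 2 → V6}
    (hv : ∀ γ δ, v (γ * δ) = v γ + sym 6 (ρ₀ γ : M2) *ᵥ v δ) (δ γ : SurfaceGroup 2) :
    v (δ * γ * δ⁻¹) = v δ + sym 6 (ρ₀ δ : M2) *ᵥ v γ -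
      sym 6 (ρ₀ (δ * γ * δ⁻¹) : M2) *ᵥ v δ := by
  rw [hv, hv, coc_inv hv, mulVec_neg, mulVec_mulVec, ← sym_mul, ← coe_mul', ← map_mul,
    sub_eq_add_neg]

/-- the period of the cocycle -/
noncomputable def per (ρ₀ : SurfaceGroup 2 →* SL(2, ℝ)) (v : SurfaceGroup 2 → V6)
    (γ : SurfaceGroup 2) : ℝ :=
  B6 (zz (ρ₀ γ : M2)) (v γ)

theorem B6_inv' (g : SL(2, ℝ)) (q q' : V6) :
    B6 (sym 6 (g : M2) *ᵥ q) (sym 6 (g : M2) *ᵥ q') = B6 q q' := by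
  have h : (g : M2).det = 1 := g.2
  rw [B6_inv, h, one_pow, one_mul]

theorem zz_fix (g : SL(2, ℝ)) : sym 6 (g : M2) *ᵥ zz (g : M2) = zz (g : M2) := by
  have h : (g : M2).det = 1 := g.2
  have h1 := zz_conj (k := (g : M2)) (g := (g : M2)) (g' := (g : M2)) rfl
  rw [h1, h, one_pow, one_smul]

theorem B6_fix (g : SL(2, ℝ)) (w : V6) :
    B6 (zz (g : M2)) (sym 6 (g : M2) *ᵥ w) = B6 (zz (g : M2)) w := by
  conv_lhs => rw [← zz_fix g]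
  exact B6_inv' g _ _

theorem per_conj {v : SurfaceGroup 2 → V6}
    (hv : ∀ γ δ, v (γ * δ) = v γ + sym 6 (ρ₀ γ : M2) *ᵥ v δ) (δ γ : SurfaceGroup 2) :
    per ρ₀ v (δ * γ * δ⁻¹) = per ρ₀ v γ := by
  have h : (ρ₀ δ : M2).det = 1 := (ρ₀ δ).2
  have h1 : sym 6 (ρ₀ δ : M2) *ᵥ zz (ρ₀ γ : M2) = zz (ρ₀ (δ * γ * δ⁻¹) : M2) := by
    have h2 := zz_conj (k := (ρ₀ δ : M2)) (g := (ρ₀ γ : M2)) (g' := (ρ₀ (δ * γ * δ⁻¹) : M2)) (by
      rw [← coe_mul', ← coe_mul', ← map_mul, ← map_mul, inv_mul_cancel_right])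
    rw [h2, h, one_pow, one_smul]
  rw [per, coc_conj hv, B6_sub_right, B6_add_right, B6_fix, ← h1, B6_inv', per]
  ring

theorem per_inv {v : SurfaceGroup 2 → V6}
    (hv : ∀ γ δ, v (γ * δ) = v γ + sym 6 (ρ₀ γ : M2) *ᵥ v δ) (γ : SurfaceGroup 2) :
    per ρ₀ v γ⁻¹ = per ρ₀ v γ := by
  have h1 : zz (ρ₀ γ⁻¹ : M2) = - zz (ρ₀ γ : M2) := by
    rw [map_inv, Matrix.SpecialLinearGroup.coe_inv, zz_adj]
  rw [per, coc_inv hv, B6_neg_right, B6_fix, h1, B6_neg_left, neg_neg, per]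

theorem per_iota (hR : (RR ρ₀).det ≠ 0) {v : SurfaceGroup 2 → V6}
    (ha : ∀ γ, v (iota γ) = - inv6 (RR ρ₀) (v γ)) (γ : SurfaceGroup 2) :
    per ρ₀ v (iota γ) = - per ρ₀ v γ := by
  have h1 := zz_conj (k := RR ρ₀) (RR_iota ρ₀ γ)
  have h2 : zz (ρ₀ (iota γ) : M2) = ((RR ρ₀).det ^ 3)⁻¹ • (sym 6 (RR ρ₀) *ᵥ zz (ρ₀ γ : M2)) := by
    rw [h1, smul_smul, inv_mul_cancel₀ (pow_ne_zero _ hR), one_smul]
  rw [per, ha, B6_neg_right, inv6_apply, B6_smul_right, h2, B6_smul_left, B6_inv, per]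
  field_simp

/-- The periods of an anti-invariant cocycle over simple curves vanish. -/
theorem per_simple (hR : (RR ρ₀).det ≠ 0) {v : SurfaceGroup 2 → V6}
    (hv : ∀ γ δ, v (γ * δ) = v γ + sym 6 (ρ₀ γ : M2) *ᵥ v δ)
    (ha : ∀ γ, v (iota γ) = - inv6 (RR ρ₀) (v γ)) {γ : SurfaceGroup 2} (hγ : IsSimple γ) :
    per ρ₀ v γ = 0 := by
  have h1 := per_iota hR ha γ
  obtain ⟨δ, h | h⟩ := rev_of_simple hγ
  · rw [h, per_conj hv] at h1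
    linarith
  · rw [h, per_conj hv, per_inv hv] at h1
    linarith

/-- The restriction of an anti-invariant cocycle to a simple curve is a coboundary. -/
theorem coc_simple (h₀ : PurelyHyperbolic ρ₀) {v : SurfaceGroup 2 → V6}
    (hv : ∀ γ δ, v (γ * δ) = v γ + sym 6 (ρ₀ γ : M2) *ᵥ v δ)
    (ha : ∀ γ, v (iota γ) = - inv6 (RR ρ₀) (v γ)) {γ : SurfaceGroup 2} (hγ : IsSimple γ) :
    ∃ w, v γ = w - sym 6 (ρ₀ γ : M2) *ᵥ w := by
  by_cases h : γ = 1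
  · refine ⟨0, ?_⟩
    rw [h, coc_one hv, mulVec_zero, sub_zero]
  · exact image_hyp (ρ₀ γ).2 (h₀ γ h) (per_simple (RR_det h₀) hv ha hγ)

theorem inv6_equiv (γ : SurfaceGroup 2) (q : V6) :
    inv6 (RR ρ₀) (sym 6 (ρ₀ γ : M2) *ᵥ q) = sym 6 (ρ₀ (iota γ) : M2) *ᵥ inv6 (RR ρ₀) q := by
  rw [inv6_apply, inv6_apply, mulVec_smul, mulVec_mulVec, mulVec_mulVec, ← sym_mul,
    ← sym_mul, RR_iota]

/-- **There is an anti-invariant cocycle with values in the sextics which is not a coboundary.** -/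
theorem exists_anti (h₀ : PurelyHyperbolic ρ₀) : ∃ v : SurfaceGroup 2 → V6,
    (∀ γ δ, v (γ * δ) = v γ + sym 6 (ρ₀ γ : M2) *ᵥ v δ) ∧
    (∀ γ, v (iota γ) = - inv6 (RR ρ₀) (v γ)) ∧
    ¬ ∃ w, ∀ γ, v γ = w - sym 6 (ρ₀ γ : M2) *ᵥ w := by
  have hR := RR_det h₀
  have hRt := RR_trace ρ₀
  set S : Fin 4 → V6 →ₗ[ℝ] V6 := fun i => (sym 6 (ρ₀ (Y i) : M2)).mulVecLin with hS
  set T : V6 →ₗ[ℝ] V6 := inv6 (RR ρ₀) with hT
  have hSa : ∀ i v, S i v = sym 6 (ρ₀ (Y i) : M2) *ᵥ v := fun _ _ => rfl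
  have hTT : ∀ v, T (T v) = v := inv6_inv6 hRt hR
  -- products with `R`
  have key : ∀ g : SL(2, ℝ), (g : M2) * RR ρ₀ * (g : M2) = RR ρ₀ →
      (∀ v, sym 6 (g : M2) *ᵥ T v = inv6 ((g : M2) * RR ρ₀) v) ∧
      ((g : M2) * RR ρ₀).trace = 0 ∧ ((g : M2) * RR ρ₀).det ≠ 0 := by
    intro g hg
    have hd : (g : M2).det = 1 := g.2
    refine ⟨fun v => ?_, trace_mul_zero hRt hg, ?_⟩
    · rw [hT, inv6_apply, inv6_apply, det_mul, hd, one_mul, mulVec_smul, mulVec_mulVec, ← sym_mul]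
    · rw [det_mul, hd, one_mul]; exact hR
  have hSTS : ∀ i v, S i (T (S i v)) = T v := by
    intro i v
    rw [hSa, hSa, hT, inv6_apply, inv6_apply, mulVec_smul, mulVec_mulVec, mulVec_mulVec, ← sym_mul,
      ← sym_mul, RR_conj]
  have hrelG : ρ₀ (Y 0) * ρ₀ (Y 1) * ρ₀ (Y 2) * ρ₀ (Y 3) =
      ρ₀ (Y 3) * ρ₀ (Y 2) * ρ₀ (Y 1) * ρ₀ (Y 0) := by
    simp only [← map_mul]
    rw [Y_rel]
  have hrel : ∀ v, S 0 (S 1 (S 2 (S 3 v))) = S 3 (S 2 (S 1 (S 0 v))) := by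
    intro v
    have h1 := congrArg (fun g : SL(2, ℝ) => sym 6 (g : M2) *ᵥ v) hrelG
    simp only [coe_mul', sym_mul, ← mulVec_mulVec] at h1
    exact h1
  have hker : ∀ i, finrank ℝ (LinearMap.ker (S i ∘ₗ T - LinearMap.id)) = 3 := by
    intro i
    obtain ⟨k1, k2, k3⟩ := key (ρ₀ (Y i)) (RR_conj ρ₀ i)
    have e : S i ∘ₗ T = inv6 ((ρ₀ (Y i) : M2) * RR ρ₀) := LinearMap.ext fun v => k1 v
    rw [e]
    exact (finrank_eig finrank_V6 _ (inv6_inv6 k2 k3) (trace_inv6 k2 k3)).1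
  have hW : finrank ℝ (LinearMap.ker (S 3 ∘ₗ S 2 ∘ₗ S 1 ∘ₗ S 0 ∘ₗ T + LinearMap.id)) = 4 := by
    have hg : ((ρ₀ (Y 3) * ρ₀ (Y 2) * ρ₀ (Y 1) * ρ₀ (Y 0) : SL(2, ℝ)) : M2) * RR ρ₀ *
        ((ρ₀ (Y 3) * ρ₀ (Y 2) * ρ₀ (Y 1) * ρ₀ (Y 0) : SL(2, ℝ)) : M2) = RR ρ₀ := by
      conv_lhs => rw [← hrelG]
      rw [hrelG]
      have h1 : ((ρ₀ (Y 3) * ρ₀ (Y 2) * ρ₀ (Y 1) * ρ₀ (Y 0) : SL(2, ℝ)) : M2) * RR ρ₀ *
          ((ρ₀ (Y 0) * ρ₀ (Y 1) * ρ₀ (Y 2) * ρ₀ (Y 3) : SL(2, ℝ)) : M2) = RR ρ₀ := by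
        simp only [coe_mul']
        calc (ρ₀ (Y 3) : M2) * (ρ₀ (Y 2) : M2) * (ρ₀ (Y 1) : M2) * (ρ₀ (Y 0) : M2) * RR ρ₀ *
              ((ρ₀ (Y 0) : M2) * (ρ₀ (Y 1) : M2) * (ρ₀ (Y 2) : M2) * (ρ₀ (Y 3) : M2))
            = (ρ₀ (Y 3) : M2) * ((ρ₀ (Y 2) : M2) * ((ρ₀ (Y 1) : M2) * ((ρ₀ (Y 0) : M2) * RR ρ₀ *
              (ρ₀ (Y 0) : M2)) * (ρ₀ (Y 1) : M2)) * (ρ₀ (Y 2) : M2)) * (ρ₀ (Y 3) : M2) := by
              simp only [mul_assoc]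
          _ = _ := by rw [RR_conj, RR_conj, RR_conj, RR_conj]
      rwa [hrelG] at h1
    obtain ⟨k1, k2, k3⟩ := key _ hg
    have e : S 3 ∘ₗ S 2 ∘ₗ S 1 ∘ₗ S 0 ∘ₗ T =
        inv6 (((ρ₀ (Y 3) * ρ₀ (Y 2) * ρ₀ (Y 1) * ρ₀ (Y 0) : SL(2, ℝ)) : M2) * RR ρ₀) := by
      refine LinearMap.ext fun v => ?_
      rw [← k1]
      simp only [coe_mul', sym_mul, ← mulVec_mulVec]
      rfl
    rw [e]
    exact (finrank_eig finrank_V6 _ (inv6_inv6 k2 k3) (trace_inv6 k2 k3)).2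
  have hTk : finrank ℝ (LinearMap.ker (T + LinearMap.id)) = 4 :=
    (finrank_eig finrank_V6 _ (inv6_inv6 hRt hR) (trace_inv6 hRt hR)).2
  obtain ⟨y, hy1, hy2, hy3⟩ := exists_y S T hTT hSTS hrel hker hW hTk
  obtain ⟨v, hv, hvy⟩ := exists_cocycle ρ₀ y hy2
  have hanti : ∀ γ, v (iota γ) = - T (v γ) := by
    let H : Subgroup (SurfaceGroup 2) :=
      { carrier := {γ | v (iota γ) = - T (v γ)}
        mul_mem' := by
          intro a b ha hb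
          simp only [Set.mem_ofPred_eq] at ha hb ⊢
          rw [map_mul, hv, hv, ha, hb, map_add, mulVec_neg]
          have h1 : T (sym 6 (ρ₀ a : M2) *ᵥ v b) = sym 6 (ρ₀ (iota a) : M2) *ᵥ T (v b) :=
            inv6_equiv a (v b)
          rw [h1]
          abel
        one_mem' := by
          simp only [Set.mem_ofPred_eq]
          rw [map_one, coc_one hv, map_zero, neg_zero]
        inv_mem' := by
          intro a ha
          simp only [Set.mem_ofPred_eq] at ha ⊢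
          have h1 : T (sym 6 (ρ₀ a⁻¹ : M2) *ᵥ v a) = sym 6 (ρ₀ (iota a⁻¹) : M2) *ᵥ T (v a) :=
            inv6_equiv a⁻¹ (v a)
          have h2 : v (iota a⁻¹) = - (sym 6 (ρ₀ (iota a⁻¹) : M2) *ᵥ v (iota a)) := by
            have h3 := coc_inv hv (iota a)
            have h4 : iota a⁻¹ = (iota a)⁻¹ := map_inv _ _
            rw [h4]
            exact h3
          rw [h2, coc_inv hv a, ha, mulVec_neg, map_neg, h1] }
    refine fun γ => mem_of_Y H (fun i => ?_) γ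
    show v (iota (Y i)) = - T (v (Y i))
    rw [iota_Y, coc_inv hv, hvy]
    congr 1
    have h1 := hy1 i
    rw [hSa] at h1
    conv_lhs => rw [← h1]
    rw [mulVec_mulVec, ← sym_mul, ← coe_mul', ← map_mul, inv_mul_cancel, map_one, coe_one',
      sym_one, one_mulVec]
  refine ⟨v, hv, hanti, ?_⟩
  rintro ⟨w, hw⟩
  apply hy3
  refine ⟨w, ?_, fun i => ?_⟩
  · -- `w + T w` is invariant
    have hinv : ∀ γ, sym 6 (ρ₀ γ : M2) *ᵥ (T w + w) = T w + w := by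
      intro γ
      have h1 := hanti γ
      rw [hw, hw, map_sub] at h1
      have h2 : T (sym 6 (ρ₀ γ : M2) *ᵥ w) = sym 6 (ρ₀ (iota γ) : M2) *ᵥ T w :=
        inv6_equiv γ w
      rw [h2] at h1
      -- `w + T w = ρ(ι γ) (w + T w)`
      have h3 : sym 6 (ρ₀ (iota γ) : M2) *ᵥ (T w + w) = T w + w := by
        rw [mulVec_add]
        have h4 : w + T w = sym 6 (ρ₀ (iota γ) : M2) *ᵥ w + sym 6 (ρ₀ (iota γ) : M2) *ᵥ T w := by
          have h5 : w + T w - (sym 6 (ρ₀ (iota γ) : M2) *ᵥ w +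
              sym 6 (ρ₀ (iota γ) : M2) *ᵥ T w) =
              (w - sym 6 (ρ₀ (iota γ) : M2) *ᵥ w) -
              -(T w - sym 6 (ρ₀ (iota γ) : M2) *ᵥ T w) := by abel
          rw [h1, sub_self] at h5
          exact sub_eq_zero.1 h5
        rw [add_comm (sym 6 (ρ₀ (iota γ) : M2) *ᵥ T w), ← h4]
        exact add_comm _ _
      -- apply `T`
      have h4 : T (sym 6 (ρ₀ γ : M2) *ᵥ (T w + w)) = T (T w + w) := by
        have h5 : T (sym 6 (ρ₀ γ : M2) *ᵥ (T w + w)) =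
            sym 6 (ρ₀ (iota γ) : M2) *ᵥ T (T w + w) := inv6_equiv γ (T w + w)
        have h6 : T (T w + w) = T w + w := by rw [map_add, hTT, add_comm]
        rw [h5, h6, h3]
      have h5 := congrArg T h4
      rwa [hTT, hTT] at h5
    exact eq_neg_of_add_eq_zero_left (no_inv h₀ hinv)
  · rw [← hvy, hw, hSa]

end

end Pool.Agent.Y245.HS
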