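import Pool.Agent.Y245.HS.Main1

/-!
# The commutant of the image of a Fuchsian representation
-/

set_option autoImplicit false

open Matrix Module
open scoped MatrixGroups

namespace Pool.Agent.Y245.HS

open Pool.Agent.H225R3.CV Pool.Agent.H225R3.Scc

variable {m : ℕ} {ρ₀ : SurfaceGroup 2 →* SL(2, ℝ)}

theorem sym_diagonal (a b : ℝ) : sym m !![a, 0; 0, b] =
    Matrix.diagonal (fun j : Fin (m + 1) => a ^ (m - (j : ℕ)) * b ^ (j : ℕ)) := by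
  apply sym_mulVec_ext
  intro f y
  rw [ev_sym]
  unfold ev
  simp only [of_apply, cons_val', cons_val_zero, cons_val_one, cons_val_fin_one,
    Matrix.mulVec_diagonal]
  refine Finset.sum_congr rfl fun j _ => ?_
  simp only [one_mul, mul_zero, add_zero, zero_add, mul_pow, one_pow]
  ring

theorem diag_inj {a : ℝ} (ha : a ≠ 0) (ha2 : a ^ 2 ≠ 1) {i j : Fin (m + 1)} (hij : i ≠ j) :
    a ^ (m - (i : ℕ)) * a⁻¹ ^ (i : ℕ) ≠ a ^ (m - (j : ℕ)) * a⁻¹ ^ (j : ℕ) := by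
  have key : ∀ k : ℕ, k ≠ 0 → (a ^ 2) ^ k ≠ 1 := by
    intro k hk h
    exact ha2 ((pow_eq_one_iff_of_nonneg (sq_nonneg a) hk).1 h)
  have main : ∀ i j : Fin (m + 1), (i : ℕ) < (j : ℕ) →
      a ^ (m - (i : ℕ)) * a⁻¹ ^ (i : ℕ) ≠ a ^ (m - (j : ℕ)) * a⁻¹ ^ (j : ℕ) := by
    intro i j hlt h
    have hj : (j : ℕ) ≤ m := Nat.lt_succ_iff.1 j.2
    apply key ((j : ℕ) - (i : ℕ)) (by omega)
    have h1 : a ^ (m - (i : ℕ)) = a ^ (m - (j : ℕ)) * a ^ ((j : ℕ) - (i : ℕ)) := by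
      rw [← pow_add]; congr 1; omega
    have h2 : a ^ (j : ℕ) = a ^ (i : ℕ) * a ^ ((j : ℕ) - (i : ℕ)) := by
      rw [← pow_add]; congr 1; omega
    rw [h1, inv_pow, inv_pow, h2] at h
    have h3 : a ^ (m - (j : ℕ)) ≠ 0 := pow_ne_zero _ ha
    have h4 : a ^ (i : ℕ) ≠ 0 := pow_ne_zero _ ha
    have h5 : a ^ ((j : ℕ) - (i : ℕ)) ≠ 0 := pow_ne_zero _ ha
    field_simp at h
    rw [← pow_mul, mul_comm 2, pow_mul]
    exact h
  rcases lt_or_gt_of_ne (fun h => hij (Fin.ext h) : (i : ℕ) ≠ (j : ℕ)) with h | h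
  · exact main i j h
  · exact (main j i h).symm

/-- There is an element in general position with respect to the axis of `A₁`. -/
theorem exists_good (h₀ : PurelyHyperbolic ρ₀) {p : M2} {a : ℝ} (hp : p.det ≠ 0) (ha : a ≠ 0)
    (h : (ρ₀ A₁ : M2) * p = p * !![a, 0; 0, a⁻¹]) :
    ∃ γ, (p⁻¹ * (ρ₀ γ : M2) * p) 0 0 ≠ 0 ∧ (p⁻¹ * (ρ₀ γ : M2) * p) 1 0 ≠ 0 := by
  have hu : IsUnit p.det := isUnit_iff_ne_zero.2 hp
  have hpp : p * p⁻¹ = 1 := Matrix.mul_nonsing_inv _ hu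
  have hpp' : p⁻¹ * p = 1 := Matrix.nonsing_inv_mul _ hu
  set H := p⁻¹ * (ρ₀ B₁ : M2) * p with hH
  have hdet : H.det = 1 := by
    rw [hH, det_mul, det_mul, (ρ₀ B₁).2, mul_one, ← det_mul, hpp', det_one]
  have htr : H.trace = (ρ₀ B₁ : M2).trace := by
    rw [hH, trace_mul_comm, ← mul_assoc, hpp, one_mul]
  have htr0 : H.trace ≠ 0 := by
    rw [htr]
    intro h1
    have h2 := h₀ B₁ B₁_ne
    rw [h1, abs_zero] at h2
    linarith
  have hdet2 := hdet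
  rw [det_fin_two] at hdet2
  rw [trace_fin_two] at htr0
  have h10 : H 1 0 ≠ 0 := by
    intro hz
    have hA : p⁻¹ * (ρ₀ A₁ : M2) * p = !![a, 0; 0, a⁻¹] := by
      rw [mul_assoc, h, ← mul_assoc, hpp', one_mul]
    have hA' : p⁻¹ * (((ρ₀ A₁)⁻¹ : SL(2, ℝ)) : M2) * p = !![a⁻¹, 0; 0, a] := by
      have h1 : !![a, 0; 0, a⁻¹] * (p⁻¹ * (((ρ₀ A₁)⁻¹ : SL(2, ℝ)) : M2) * p) = 1 := by
        rw [← hA]
        calc p⁻¹ * (ρ₀ A₁ : M2) * p * (p⁻¹ * (((ρ₀ A₁)⁻¹ : SL(2, ℝ)) : M2) * p)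
            = p⁻¹ * (ρ₀ A₁ : M2) * (p * p⁻¹) * (((ρ₀ A₁)⁻¹ : SL(2, ℝ)) : M2) * p := by
              simp only [mul_assoc]
          _ = p⁻¹ * ((ρ₀ A₁ : M2) * (((ρ₀ A₁)⁻¹ : SL(2, ℝ)) : M2)) * p := by
              rw [hpp, mul_one]; simp only [mul_assoc]
          _ = 1 := by rw [mul_inv', mul_one, hpp']
      have h2 : !![a⁻¹, 0; 0, a] * !![a, 0; 0, a⁻¹] = (1 : M2) := by
        ext i j
        fin_cases i <;> fin_cases j <;> simp [Matrix.mul_apply, Fin.sum_univ_two, ha]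
      calc p⁻¹ * (((ρ₀ A₁)⁻¹ : SL(2, ℝ)) : M2) * p
          = (!![a⁻¹, 0; 0, a] * !![a, 0; 0, a⁻¹]) *
            (p⁻¹ * (((ρ₀ A₁)⁻¹ : SL(2, ℝ)) : M2) * p) := by rw [h2, one_mul]
        _ = !![a⁻¹, 0; 0, a] := by rw [mul_assoc, h1, mul_one]
    have hB' : p⁻¹ * (((ρ₀ B₁)⁻¹ : SL(2, ℝ)) : M2) * p = adjugate H := by
      have h1 : H * (p⁻¹ * (((ρ₀ B₁)⁻¹ : SL(2, ℝ)) : M2) * p) = 1 := by
        calc p⁻¹ * (ρ₀ B₁ : M2) * p * (p⁻¹ * (((ρ₀ B₁)⁻¹ : SL(2, ℝ)) : M2) * p)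
            = p⁻¹ * (ρ₀ B₁ : M2) * (p * p⁻¹) * (((ρ₀ B₁)⁻¹ : SL(2, ℝ)) : M2) * p := by
              simp only [mul_assoc]
          _ = p⁻¹ * ((ρ₀ B₁ : M2) * (((ρ₀ B₁)⁻¹ : SL(2, ℝ)) : M2)) * p := by
              rw [hpp, mul_one]; simp only [mul_assoc]
          _ = 1 := by rw [mul_inv', mul_one, hpp']
      calc p⁻¹ * (((ρ₀ B₁)⁻¹ : SL(2, ℝ)) : M2) * p
          = (adjugate H * H) * (p⁻¹ * (((ρ₀ B₁)⁻¹ : SL(2, ℝ)) : M2) * p) := by
            rw [adjugate_mul, hdet, one_smul, one_mul]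
        _ = adjugate H := by rw [mul_assoc, h1, mul_one]
    have hS : p⁻¹ * (ρ₀ Sep : M2) * p =
        !![a, 0; 0, a⁻¹] * H * !![a⁻¹, 0; 0, a] * adjugate H := by
      rw [← hA, ← hA', ← hB', hH, Sep_eq1]
      have : ((ρ₀ A₁ * ρ₀ B₁ * (ρ₀ A₁)⁻¹ * (ρ₀ B₁)⁻¹ : SL(2, ℝ)) : M2) = (ρ₀ A₁ : M2) *
        (ρ₀ B₁ : M2) * (((ρ₀ A₁)⁻¹ : SL(2, ℝ)) : M2) * (((ρ₀ B₁)⁻¹ : SL(2, ℝ)) : M2) := rfl
      rw [this]
      calc p⁻¹ * ((ρ₀ A₁ : M2) * (ρ₀ B₁ : M2) * (((ρ₀ A₁)⁻¹ : SL(2, ℝ)) : M2) *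
            (((ρ₀ B₁)⁻¹ : SL(2, ℝ)) : M2)) * p
          = p⁻¹ * (ρ₀ A₁ : M2) * 1 * (ρ₀ B₁ : M2) * 1 * (((ρ₀ A₁)⁻¹ : SL(2, ℝ)) : M2) * 1 *
            (((ρ₀ B₁)⁻¹ : SL(2, ℝ)) : M2) * p := by simp only [mul_one, mul_assoc]
        _ = _ := by rw [← hpp]; simp only [mul_assoc]
    have hT : (ρ₀ Sep : M2).trace = 2 := by
      have h1 : (p⁻¹ * (ρ₀ Sep : M2) * p).trace = (ρ₀ Sep : M2).trace := by
        rw [trace_mul_comm, ← mul_assoc, hpp, one_mul]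
      have key : ∀ x y w : ℝ, x * w = 1 →
          (!![a, 0; 0, a⁻¹] * !![x, y; 0, w] * !![a⁻¹, 0; 0, a] * !![w, -y; 0, x] : M2).trace =
            2 := by
        intro x y w hxw
        rw [trace_fin_two]
        simp [Matrix.mul_apply, Fin.sum_univ_two]
        field_simp
        linear_combination 2 * hxw
      rw [hz, mul_zero, sub_zero] at hdet2
      have hHe : H = !![H 0 0, H 0 1; 0, H 1 1] := by
        ext i j
        fin_cases i <;> fin_cases j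
        · rfl
        · rfl
        · exact hz
        · rfl
      have hAd : adjugate H = !![H 1 1, -H 0 1; 0, H 0 0] := by
        rw [adjugate_fin_two, hz, neg_zero]
      rw [← h1, hS, hAd]
      conv_lhs => rw [hHe]
      exact key _ _ _ hdet2
    have h2 := h₀ Sep Sep_ne
    rw [hT] at h2
    norm_num at h2
  by_cases h00 : H 0 0 = 0
  · refine ⟨B₁ * B₁, ?_⟩
    have e : p⁻¹ * (ρ₀ (B₁ * B₁) : M2) * p = H * H := by
      rw [map_mul, coe_mul', hH]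
      calc p⁻¹ * ((ρ₀ B₁ : M2) * (ρ₀ B₁ : M2)) * p
          = p⁻¹ * (ρ₀ B₁ : M2) * 1 * (ρ₀ B₁ : M2) * p := by simp only [mul_one, mul_assoc]
        _ = _ := by rw [← hpp]; simp only [mul_assoc]
    rw [e]
    constructor
    · rw [Matrix.mul_apply, Fin.sum_univ_two, h00]
      rw [h00] at hdet2
      intro h1
      linarith
    · rw [Matrix.mul_apply, Fin.sum_univ_two, h00]
      rw [h00, zero_add] at htr0
      intro h1
      rw [mul_zero, zero_add] at h1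
      rcases mul_eq_zero.1 h1 with h2 | h2
      · exact htr0 h2
      · exact h10 h2
  · exact ⟨B₁, h00, h10⟩

/-- **The commutant of the image is trivial.** -/
theorem commutant (h₀ : PurelyHyperbolic ρ₀) {Z : MM m}
    (hZ : ∀ γ, Z * sym m (ρ₀ γ : M2) = sym m (ρ₀ γ : M2) * Z) : ∃ c : ℝ, Z = c • (1 : MM m) := by
  obtain ⟨p, a, hp, ha, ha2, h⟩ := exists_diag (ρ₀ A₁).2 (h₀ A₁ A₁_ne)
  obtain ⟨γ, g0, g1⟩ := exists_good h₀ hp ha h
  have hu : IsUnit p.det := isUnit_iff_ne_zero.2 hp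
  have hpp : p * p⁻¹ = 1 := Matrix.mul_nonsing_inv _ hu
  have hpp' : p⁻¹ * p = 1 := Matrix.nonsing_inv_mul _ hu
  have hP : sym m p * sym m p⁻¹ = 1 := by rw [← sym_mul, hpp, sym_one]
  have hP' : sym m p⁻¹ * sym m p = 1 := by rw [← sym_mul, hpp', sym_one]
  set Z' := sym m p⁻¹ * Z * sym m p with hZ'
  have hconj : ∀ δ, Z' * sym m (p⁻¹ * (ρ₀ δ : M2) * p) =
      sym m (p⁻¹ * (ρ₀ δ : M2) * p) * Z' := by
    intro δ
    rw [hZ', sym_mul, sym_mul]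
    calc sym m p⁻¹ * Z * sym m p * (sym m p⁻¹ * sym m (ρ₀ δ : M2) * sym m p)
        = sym m p⁻¹ * Z * (sym m p * sym m p⁻¹) * sym m (ρ₀ δ : M2) * sym m p := by
          simp only [mul_assoc]
      _ = sym m p⁻¹ * (Z * sym m (ρ₀ δ : M2)) * sym m p := by
          rw [hP, mul_one]; simp only [mul_assoc]
      _ = sym m p⁻¹ * sym m (ρ₀ δ : M2) * (sym m p * sym m p⁻¹) * Z * sym m p := by
          rw [hZ, hP, mul_one]; simp only [mul_assoc]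
      _ = _ := by simp only [mul_assoc]
  -- `Z'` is diagonal
  have hA : p⁻¹ * (ρ₀ A₁ : M2) * p = !![a, 0; 0, a⁻¹] := by
    rw [mul_assoc, h, ← mul_assoc, hpp', one_mul]
  have hoff : ∀ i j, i ≠ j → Z' i j = 0 := by
    intro i j hij
    have h1 := hconj A₁
    rw [hA, sym_diagonal] at h1
    have h2 := congrFun (congrFun h1 i) j
    rw [Matrix.mul_diagonal, Matrix.diagonal_mul] at h2
    have h3 : Z' i j * (a ^ (m - (j : ℕ)) * a⁻¹ ^ (j : ℕ) - a ^ (m - (i : ℕ)) * a⁻¹ ^ (i : ℕ)) = 0 := by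
      linear_combination h2
    rcases mul_eq_zero.1 h3 with h4 | h4
    · exact h4
    · exact absurd (sub_eq_zero.1 h4).symm (diag_inj ha ha2 hij)
  set H := p⁻¹ * (ρ₀ γ : M2) * p with hH
  have hcol : ∀ i : Fin (m + 1), sym m H i 0 ≠ 0 := by
    intro i
    have h1 : sym m H *ᵥ pw m 1 0 = pw m (H 0 0) (H 1 0) := by
      rw [sym_pw]; simp
    have h2 : pw m 1 0 = Pi.single (0 : Fin (m + 1)) (1 : ℝ) := by
      funext j
      by_cases hj : j = 0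
      · subst hj; simp [pw]
      · have : (j : ℕ) ≠ 0 := fun h => hj (Fin.ext h)
        simp [pw, hj, this]
    rw [h2, Matrix.mulVec_single_one] at h1
    have h3 := congrFun h1 i
    have h4 : sym m H i 0 = pw m (H 0 0) (H 1 0) i := h3
    rw [h4]
    have hi : (i : ℕ) ≤ m := Nat.lt_succ_iff.1 i.2
    have h5 : (m.choose (i : ℕ) : ℝ) ≠ 0 := by
      exact_mod_cast (Nat.choose_pos hi).ne'
    exact mul_ne_zero (mul_ne_zero h5 (pow_ne_zero _ g0)) (pow_ne_zero _ g1)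
  have hdiag : ∀ i, Z' i i = Z' 0 0 := by
    intro i
    have h1 := congrFun (congrFun (hconj γ) i) 0
    rw [Matrix.mul_apply, Matrix.mul_apply, Finset.sum_eq_single i, Finset.sum_eq_single 0] at h1
    · have h2 : (Z' i i - Z' 0 0) * sym m H i 0 = 0 := by linear_combination h1
      rcases mul_eq_zero.1 h2 with h3 | h3
      · exact sub_eq_zero.1 h3
      · exact absurd h3 (hcol i)
    · intro k _ hk
      rw [hoff k 0 hk, mul_zero]
    · simp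
    · intro k _ hk
      rw [hoff i k hk.symm, zero_mul]
    · simp
  have hZs : Z' = Z' 0 0 • (1 : MM m) := by
    ext i j
    by_cases hij : i = j
    · subst hij
      rw [Matrix.smul_apply, Matrix.one_apply_eq, smul_eq_mul, mul_one]
      exact hdiag i
    · rw [hoff i j hij, Matrix.smul_apply, Matrix.one_apply_ne hij, smul_zero]
  refine ⟨Z' 0 0, ?_⟩
  have h1 : Z = sym m p * Z' * sym m p⁻¹ := by
    rw [hZ']
    calc Z = (sym m p * sym m p⁻¹) * Z * (sym m p * sym m p⁻¹) := by rw [hP, one_mul, mul_one]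
      _ = _ := by simp only [mul_assoc]
  rw [h1]
  conv_lhs => rw [hZs]
  rw [mul_smul_comm, mul_one, smul_mul_assoc, hP]

end Pool.Agent.Y245.HS
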