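import Pool.Agent.Y245.HS.Surj
import Pool.Agent.Y245.HS.ClassFun

/-!
# Curves of representations with prescribed velocity
-/

set_option autoImplicit false

open Matrix Filter Topology
open scoped MatrixGroups

namespace Pool.Agent.Y245.HS

variable {m : ℕ}

open scoped Matrix.Norms.Operator in
/-- A curve of matrices satisfying the relation up to a scalar, with given velocity. -/
theorem exists_curve_aux {a : Fin 4 → SL(m + 1, ℝ)}
    (hrel : a 0 * a 1 * a 2 * a 3 = a 3 * a 2 * a 1 * a 0)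
    (hcomm : ∀ T : Matrix (Fin (m + 1)) (Fin (m + 1)) ℝ,
      (∀ i, T * (a i : Matrix (Fin (m + 1)) (Fin (m + 1)) ℝ) = a i * T) → ∃ c : ℝ, T = c • 1)
    {w : Fin 4 → Matrix (Fin (m + 1)) (Fin (m + 1)) ℝ}
    (hw : w 0 * a 1 * a 2 * a 3 + a 0 * w 1 * a 2 * a 3 + a 0 * a 1 * w 2 * a 3 +
        a 0 * a 1 * a 2 * w 3 = w 3 * a 2 * a 1 * a 0 + a 3 * w 2 * a 1 * a 0 +
        a 3 * a 2 * w 1 * a 0 + a 3 * a 2 * a 1 * w 0) :
    ∃ (y : ℝ → Fin 4 → Matrix (Fin (m + 1)) (Fin (m + 1)) ℝ) (s : ℝ → ℝ),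
      (∀ i, y 0 i = a i) ∧ s 0 = 0 ∧ (∀ i, HasDerivAt (fun t => y t i) (w i) 0) ∧
      HasDerivAt s 0 0 ∧
      ∀ᶠ t in 𝓝 (0 : ℝ), y t 0 * y t 1 * y t 2 * y t 3 =
        (1 + s t) • (y t 3 * y t 2 * y t 1 * y t 0) := by
  set A : Fin 4 → Matrix (Fin (m + 1)) (Fin (m + 1)) ℝ := fun i => a i with hA
  have hrelA : A 0 * A 1 * A 2 * A 3 = A 3 * A 2 * A 1 * A 0 :=
    congrArg (fun g : SL(m + 1, ℝ) => (g : Matrix (Fin (m + 1)) (Fin (m + 1)) ℝ)) hrel
  have hΦ : HasStrictFDerivAt relMap (fderiv ℝ relMap ((A, 0) : EE4 (m + 1)))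
      ((A, 0) : EE4 (m + 1)) := contDiff_relMap.hasStrictFDerivAt one_ne_zero
  set L := fderiv ℝ relMap ((A, 0) : EE4 (m + 1)) with hL
  have hu : ∀ i, IsUnit (A i) := by
    intro i
    rw [Matrix.isUnit_iff_isUnit_det]
    have : (A i).det = 1 := (a i).2
    rw [this]
    exact isUnit_one
  have hsurj : (L : EE4 (m + 1) →ₗ[ℝ] Matrix (Fin (m + 1)) (Fin (m + 1)) ℝ).range = ⊤ :=
    relMap_surj (Nat.succ_ne_zero m) hΦ.hasFDerivAt hu hrelA hcomm
  have hx0 : relMap ((A, 0) : EE4 (m + 1)) = 0 := by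
    show A 0 * A 1 * A 2 * A 3 - (1 + (0 : ℝ)) • (A 3 * A 2 * A 1 * A 0) = 0
    rw [add_zero, one_smul, hrelA, sub_self]
  have hker : L (w, 0) = 0 := by
    rw [relMap_deriv hΦ.hasFDerivAt w 0, zero_smul, zero_add, sub_eq_zero]
    exact hw
  set k : (L : EE4 (m + 1) →ₗ[ℝ] Matrix (Fin (m + 1)) (Fin (m + 1)) ℝ).ker := ⟨(w, 0), hker⟩ with hk
  set ψ := HasStrictFDerivAt.implicitFunction relMap L hΦ hsurj (relMap ((A, 0) : EE4 (m + 1)))
    with hψ
  have h0 : ψ 0 = (A, 0) := HasStrictFDerivAt.implicitFunction_apply_image hΦ hsurj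
  have h1 : HasStrictFDerivAt ψ
      (L : EE4 (m + 1) →ₗ[ℝ] Matrix (Fin (m + 1)) (Fin (m + 1)) ℝ).ker.subtypeL 0 :=
    HasStrictFDerivAt.to_implicitFunction hΦ hsurj
  have h2 : HasDerivAt (fun t : ℝ => t • k) k 0 := by
    have := (hasDerivAt_id (0 : ℝ)).smul_const k
    rwa [one_smul] at this
  have h3 : HasDerivAt (fun t : ℝ => ψ (t • k)) ((w, 0) : EE4 (m + 1)) 0 := by
    have h4 : HasFDerivAt ψ
      (L : EE4 (m + 1) →ₗ[ℝ] Matrix (Fin (m + 1)) (Fin (m + 1)) ℝ).ker.subtypeL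
        ((fun t : ℝ => t • k) 0) := by
      have : (fun t : ℝ => t • k) 0 = 0 := zero_smul _ _
      rw [this]
      exact h1.hasFDerivAt
    exact h4.comp_hasDerivAt (0 : ℝ) h2
  have h5 : ∀ᶠ t : ℝ in 𝓝 0, relMap (ψ (t • k)) = 0 := by
    have h6 := HasStrictFDerivAt.map_implicitFunction_eq hΦ hsurj
    have h7 : Tendsto (fun t : ℝ => (relMap ((A, 0) : EE4 (m + 1)), t • k)) (𝓝 0)
        (𝓝 (relMap ((A, 0) : EE4 (m + 1)), 0)) := by
      refine Tendsto.prodMk_nhds tendsto_const_nhds ?_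
      have := h2.continuousAt.tendsto
      rwa [zero_smul] at this
    filter_upwards [h7.eventually h6] with t ht
    rw [← hx0]
    exact ht
  refine ⟨fun t => (ψ (t • k)).1, fun t => (ψ (t • k)).2, ?_, ?_, ?_, ?_, ?_⟩
  · intro i
    show (ψ ((0 : ℝ) • k)).1 i = _
    rw [zero_smul, h0]
  · show (ψ ((0 : ℝ) • k)).2 = 0
    rw [zero_smul, h0]
  · intro i
    have h8 := (hasFDerivAt_fst (𝕜 := ℝ) (E := Fin 4 → Matrix (Fin (m + 1)) (Fin (m + 1)) ℝ)
      (F := ℝ) (p := ψ ((0 : ℝ) • k))).comp_hasDerivAt (0 : ℝ) h3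
    exact hasDerivAt_pi.1 h8 i
  · exact (hasFDerivAt_snd (𝕜 := ℝ) (E := Fin 4 → Matrix (Fin (m + 1)) (Fin (m + 1)) ℝ)
      (F := ℝ) (p := ψ ((0 : ℝ) • k))).comp_hasDerivAt (0 : ℝ) h3
  · filter_upwards [h5] with t ht
    exact sub_eq_zero.1 ht

open scoped Matrix.Norms.Operator in
/-- **Curves of quadruples in `SL` satisfying the relation, with given velocity.** -/
theorem exists_curve {a : Fin 4 → SL(m + 1, ℝ)}
    (hrel : a 0 * a 1 * a 2 * a 3 = a 3 * a 2 * a 1 * a 0)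
    (hcomm : ∀ T : Matrix (Fin (m + 1)) (Fin (m + 1)) ℝ,
      (∀ i, T * (a i : Matrix (Fin (m + 1)) (Fin (m + 1)) ℝ) = a i * T) → ∃ c : ℝ, T = c • 1)
    {u : Fin 4 → Matrix (Fin (m + 1)) (Fin (m + 1)) ℝ} (htr : ∀ i, (u i).trace = 0)
    (hw : (u 0 * a 0) * a 1 * a 2 * a 3 + a 0 * (u 1 * a 1) * a 2 * a 3 +
        a 0 * a 1 * (u 2 * a 2) * a 3 + a 0 * a 1 * a 2 * (u 3 * a 3) =
        (u 3 * a 3) * a 2 * a 1 * a 0 + a 3 * (u 2 * a 2) * a 1 * a 0 +
        a 3 * a 2 * (u 1 * a 1) * a 0 + a 3 * a 2 * a 1 * (u 0 * a 0)) :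
    ∃ z : ℝ → Fin 4 → SL(m + 1, ℝ), z 0 = a ∧
      (∀ t, z t 0 * z t 1 * z t 2 * z t 3 = z t 3 * z t 2 * z t 1 * z t 0) ∧
      ∀ i, HasDerivAt (fun t => (z t i : Matrix (Fin (m + 1)) (Fin (m + 1)) ℝ)) (u i * a i) 0 := by
  obtain ⟨y, s, hy0, hs0, hy, hs, hrely⟩ := exists_curve_aux hrel hcomm
    (w := fun i => u i * (a i : Matrix (Fin (m + 1)) (Fin (m + 1)) ℝ)) hw
  have hdet : ∀ i, HasDerivAt (fun t => (y t i).det) 0 0 := by
    intro i
    have := hasDerivAt_det (hy i) (hy0 i)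
    rwa [htr] at this
  have hdet0 : ∀ i, (y 0 i).det = 1 := fun i => by rw [hy0]; exact (a i).2
  have hpos : ∀ᶠ t in 𝓝 (0 : ℝ), ∀ i, 0 < (y t i).det := by
    rw [eventually_all]
    intro i
    have h1 := (hdet i).continuousAt
    have h2 : 0 < (y 0 i).det := by rw [hdet0]; exact one_pos
    exact h1.eventually (lt_mem_nhds h2)
  have hspos : ∀ᶠ t in 𝓝 (0 : ℝ), 0 < 1 + s t := by
    have h1 : ContinuousAt (fun t => 1 + s t) 0 := (hs.continuousAt).const_add 1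
    have h2 : 0 < (fun t => 1 + s t) 0 := by
      show 0 < 1 + s 0
      rw [hs0]; norm_num
    exact h1.eventually (lt_mem_nhds h2)
  -- the relation holds exactly
  have hrel' : ∀ᶠ t in 𝓝 (0 : ℝ), (∀ i, 0 < (y t i).det) ∧
      y t 0 * y t 1 * y t 2 * y t 3 = y t 3 * y t 2 * y t 1 * y t 0 := by
    filter_upwards [hrely, hpos, hspos] with t h1 h2 h3
    refine ⟨h2, ?_⟩
    have h4 := congrArg Matrix.det h1
    rw [det_smul, Fintype.card_fin, det_mul, det_mul, det_mul, det_mul, det_mul, det_mul] at h4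
    have h5 : 0 < (y t 0).det * (y t 1).det * (y t 2).det * (y t 3).det :=
      mul_pos (mul_pos (mul_pos (h2 0) (h2 1)) (h2 2)) (h2 3)
    have h6 : (1 + s t) ^ (m + 1) = 1 := by
      have h7 : ((1 + s t) ^ (m + 1) - 1) *
          ((y t 0).det * (y t 1).det * (y t 2).det * (y t 3).det) = 0 := by
        linear_combination -h4
      rcases mul_eq_zero.1 h7 with h8 | h8
      · linarith
      · exact absurd h8 h5.ne'
    have h7 : 1 + s t = 1 := (pow_eq_one_iff_of_nonneg h3.le (Nat.succ_ne_zero m)).1 h6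
    rw [h1, h7, one_smul]
  classical
  let c : ℝ → Fin 4 → ℝ := fun t i => (y t i).det ^ (-(1 / ((m : ℝ) + 1)))
  let z : ℝ → Fin 4 → SL(m + 1, ℝ) := fun t i =>
    if h : (∀ i, 0 < (y t i).det) ∧ y t 0 * y t 1 * y t 2 * y t 3 = y t 3 * y t 2 * y t 1 * y t 0
    then ⟨c t i • y t i, exists_scale (h.1 i)⟩ else a i
  have hz : ∀ t i, ((∀ i, 0 < (y t i).det) ∧
      y t 0 * y t 1 * y t 2 * y t 3 = y t 3 * y t 2 * y t 1 * y t 0) →
      (z t i : Matrix (Fin (m + 1)) (Fin (m + 1)) ℝ) = c t i • y t i := by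
    intro t i h
    simp only [z]
    rw [dif_pos h]
  refine ⟨z, ?_, ?_, ?_⟩
  · funext i
    apply Subtype.ext
    have h0 : (∀ i, 0 < (y 0 i).det) ∧
        y 0 0 * y 0 1 * y 0 2 * y 0 3 = y 0 3 * y 0 2 * y 0 1 * y 0 0 := hrel'.self_of_nhds
    show (z 0 i : Matrix (Fin (m + 1)) (Fin (m + 1)) ℝ) = a i
    rw [hz 0 i h0]
    simp only [c]
    rw [hdet0, Real.one_rpow, one_smul, hy0]
  · intro t
    by_cases h : (∀ i, 0 < (y t i).det) ∧
      y t 0 * y t 1 * y t 2 * y t 3 = y t 3 * y t 2 * y t 1 * y t 0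
    · apply Subtype.ext
      show (z t 0 : Matrix (Fin (m + 1)) (Fin (m + 1)) ℝ) * z t 1 * z t 2 * z t 3 =
        (z t 3 : Matrix (Fin (m + 1)) (Fin (m + 1)) ℝ) * z t 2 * z t 1 * z t 0
      rw [hz t 0 h, hz t 1 h, hz t 2 h, hz t 3 h]
      simp only [smul_mul_assoc, mul_smul_comm, smul_smul]
      rw [h.2]
      congr 1
      ring
    · simp only [z, dif_neg h]
      exact hrel
  · intro i
    have h1 : (fun t => (z t i : Matrix (Fin (m + 1)) (Fin (m + 1)) ℝ)) =ᶠ[𝓝 0]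
        fun t => c t i • y t i := by
      filter_upwards [hrel'] with t ht
      exact hz t i ht
    refine HasDerivAt.congr_of_eventuallyEq ?_ h1
    have h2 : HasDerivAt (fun t => c t i) 0 0 := by
      have h3 := (hdet i).rpow_const (p := -(1 / ((m : ℝ) + 1))) (Or.inl (by
        rw [hdet0]; exact one_ne_zero))
      rw [zero_mul, zero_mul] at h3
      exact h3
    have h3 := h2.smul (hy i)
    have h4 : c 0 i • (u i * (a i : Matrix (Fin (m + 1)) (Fin (m + 1)) ℝ)) + (0 : ℝ) • y 0 i =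
        u i * a i := by
      simp only [c]
      rw [hdet0, Real.one_rpow, one_smul, zero_smul, add_zero]
    rw [h4] at h3
    exact h3

end Pool.Agent.Y245.HS
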