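import Pool.Agent.Y245.HS.Form

/-!
# Eigenspaces of the action of traceless matrices on binary sextics
-/

set_option autoImplicit false

open Matrix Module

namespace Pool.Agent.Y245.HS

theorem trace_sym6_aux (p q r : ℝ) :
    (sym 6 !![p, q; r, -p]).trace = (p ^ 2 + q * r) ^ 3 := by
  have c0 : (sym 6 !![p, q; r, -p] *ᵥ Pi.single 0 1 : V6) = ![(1) * p ^ 6, (6) * p ^ 5 * r ^ 1, (15) * p ^ 4 * r ^ 2, (20) * p ^ 3 * r ^ 3, (15) * p ^ 2 * r ^ 4, (6) * p ^ 1 * r ^ 5, (1) * r ^ 6] := by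
    apply ev_inj
    intro y
    rw [ev_sym, ev6, ev6]
    simp
    ring
  have c1 : (sym 6 !![p, q; r, -p] *ᵥ Pi.single 1 1 : V6) = ![(1) * p ^ 5 * q ^ 1, (-1) * p ^ 6 + (5) * p ^ 4 * q ^ 1 * r ^ 1, (-5) * p ^ 5 * r ^ 1 + (10) * p ^ 3 * q ^ 1 * r ^ 2, (-10) * p ^ 4 * r ^ 2 + (10) * p ^ 2 * q ^ 1 * r ^ 3, (-10) * p ^ 3 * r ^ 3 + (5) * p ^ 1 * q ^ 1 * r ^ 4, (-5) * p ^ 2 * r ^ 4 + (1) * q ^ 1 * r ^ 5, (-1) * p ^ 1 * r ^ 5] := by
    apply ev_inj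
    intro y
    rw [ev_sym, ev6, ev6]
    simp
    ring
  have c2 : (sym 6 !![p, q; r, -p] *ᵥ Pi.single 2 1 : V6) = ![(1) * p ^ 4 * q ^ 2, (-2) * p ^ 5 * q ^ 1 + (4) * p ^ 3 * q ^ 2 * r ^ 1, (1) * p ^ 6 + (-8) * p ^ 4 * q ^ 1 * r ^ 1 + (6) * p ^ 2 * q ^ 2 * r ^ 2, (4) * p ^ 5 * r ^ 1 + (-12) * p ^ 3 * q ^ 1 * r ^ 2 + (4) * p ^ 1 * q ^ 2 * r ^ 3, (6) * p ^ 4 * r ^ 2 + (-8) * p ^ 2 * q ^ 1 * r ^ 3 + (1) * q ^ 2 * r ^ 4, (4) * p ^ 3 * r ^ 3 + (-2) * p ^ 1 * q ^ 1 * r ^ 4, (1) * p ^ 2 * r ^ 4] := by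
    apply ev_inj
    intro y
    rw [ev_sym, ev6, ev6]
    simp
    ring
  have c3 : (sym 6 !![p, q; r, -p] *ᵥ Pi.single 3 1 : V6) = ![(1) * p ^ 3 * q ^ 3, (-3) * p ^ 4 * q ^ 2 + (3) * p ^ 2 * q ^ 3 * r ^ 1, (3) * p ^ 5 * q ^ 1 + (-9) * p ^ 3 * q ^ 2 * r ^ 1 + (3) * p ^ 1 * q ^ 3 * r ^ 2, (-1) * p ^ 6 + (9) * p ^ 4 * q ^ 1 * r ^ 1 + (-9) * p ^ 2 * q ^ 2 * r ^ 2 + (1) * q ^ 3 * r ^ 3, (-3) * p ^ 5 * r ^ 1 + (9) * p ^ 3 * q ^ 1 * r ^ 2 + (-3) * p ^ 1 * q ^ 2 * r ^ 3, (-3) * p ^ 4 * r ^ 2 + (3) * p ^ 2 * q ^ 1 * r ^ 3, (-1) * p ^ 3 * r ^ 3] := by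
    apply ev_inj
    intro y
    rw [ev_sym, ev6, ev6]
    simp
    ring
  have c4 : (sym 6 !![p, q; r, -p] *ᵥ Pi.single 4 1 : V6) = ![(1) * p ^ 2 * q ^ 4, (-4) * p ^ 3 * q ^ 3 + (2) * p ^ 1 * q ^ 4 * r ^ 1, (6) * p ^ 4 * q ^ 2 + (-8) * p ^ 2 * q ^ 3 * r ^ 1 + (1) * q ^ 4 * r ^ 2, (-4) * p ^ 5 * q ^ 1 + (12) * p ^ 3 * q ^ 2 * r ^ 1 + (-4) * p ^ 1 * q ^ 3 * r ^ 2, (1) * p ^ 6 + (-8) * p ^ 4 * q ^ 1 * r ^ 1 + (6) * p ^ 2 * q ^ 2 * r ^ 2, (2) * p ^ 5 * r ^ 1 + (-4) * p ^ 3 * q ^ 1 * r ^ 2, (1) * p ^ 4 * r ^ 2] := by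
    apply ev_inj
    intro y
    rw [ev_sym, ev6, ev6]
    simp
    ring
  have c5 : (sym 6 !![p, q; r, -p] *ᵥ Pi.single 5 1 : V6) = ![(1) * p ^ 1 * q ^ 5, (-5) * p ^ 2 * q ^ 4 + (1) * q ^ 5 * r ^ 1, (10) * p ^ 3 * q ^ 3 + (-5) * p ^ 1 * q ^ 4 * r ^ 1, (-10) * p ^ 4 * q ^ 2 + (10) * p ^ 2 * q ^ 3 * r ^ 1, (5) * p ^ 5 * q ^ 1 + (-10) * p ^ 3 * q ^ 2 * r ^ 1, (-1) * p ^ 6 + (5) * p ^ 4 * q ^ 1 * r ^ 1, (-1) * p ^ 5 * r ^ 1] := by
    apply ev_inj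
    intro y
    rw [ev_sym, ev6, ev6]
    simp
    ring
  have c6 : (sym 6 !![p, q; r, -p] *ᵥ Pi.single 6 1 : V6) = ![(1) * q ^ 6, (-6) * p ^ 1 * q ^ 5, (15) * p ^ 2 * q ^ 4, (-20) * p ^ 3 * q ^ 3, (15) * p ^ 4 * q ^ 2, (-6) * p ^ 5 * q ^ 1, (1) * p ^ 6] := by
    apply ev_inj
    intro y
    rw [ev_sym, ev6, ev6]
    simp
    ring
  have e : ∀ j : Fin (6 + 1), sym 6 !![p, q; r, -p] j j =
      (sym 6 !![p, q; r, -p] *ᵥ Pi.single j 1 : V6) j := by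
    intro j
    rw [mulVec_single_one, col_apply]
  have h : (sym 6 !![p, q; r, -p]).trace = sym 6 !![p, q; r, -p] 0 0 +
      sym 6 !![p, q; r, -p] 1 1 + sym 6 !![p, q; r, -p] 2 2 + sym 6 !![p, q; r, -p] 3 3 +
      sym 6 !![p, q; r, -p] 4 4 + sym 6 !![p, q; r, -p] 5 5 + sym 6 !![p, q; r, -p] 6 6 :=
    Fin.sum_univ_seven (fun j : Fin 7 => sym 6 !![p, q; r, -p] j j)
  rw [h, e 0, e 1, e 2, e 3, e 4, e 5, e 6, c0, c1, c2, c3, c4, c5, c6]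
  simp only [cons_val]
  ring

theorem trace_sym6 {S : Matrix (Fin 2) (Fin 2) ℝ} (hS : S.trace = 0) :
    (sym 6 S).trace = -S.det ^ 3 := by
  rw [trace_fin_two] at hS
  have h : S = !![S 0 0, S 0 1; S 1 0, -S 0 0] := by
    ext i j
    fin_cases i <;> fin_cases j <;> simp
    linarith
  rw [h, trace_sym6_aux, det_fin_two_of]
  ring

/-- Eigenspaces of an involution of trace `-1` of a space of dimension `7`. -/
theorem finrank_eig {V : Type*} [AddCommGroup V] [Module ℝ V] [FiniteDimensional ℝ V]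
    (hV : finrank ℝ V = 7) (T : V →ₗ[ℝ] V) (h2 : ∀ v, T (T v) = v)
    (ht : LinearMap.trace ℝ V T = -1) :
    finrank ℝ (LinearMap.ker (T - LinearMap.id)) = 3 ∧
      finrank ℝ (LinearMap.ker (T + LinearMap.id)) = 4 := by
  have hid : LinearMap.trace ℝ V LinearMap.id = 7 := by
    rw [LinearMap.trace_id, hV]
    norm_num
  constructor
  · have hp : LinearMap.IsProj (LinearMap.ker (T - LinearMap.id))
        ((1 / 2 : ℝ) • (LinearMap.id + T)) := by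
      constructor
      · intro x
        rw [LinearMap.mem_ker]
        simp only [LinearMap.sub_apply, LinearMap.smul_apply, LinearMap.add_apply,
          LinearMap.id_apply, map_smul, map_add, h2]
        rw [sub_add_sub_cancel, sub_self, smul_zero]
      · intro x hx
        rw [LinearMap.mem_ker, LinearMap.sub_apply, LinearMap.id_apply, sub_eq_zero] at hx
        simp only [LinearMap.smul_apply, LinearMap.add_apply, LinearMap.id_apply, hx]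
        rw [← two_smul ℝ x, smul_smul]
        norm_num
    have h := hp.trace
    rw [map_smul, map_add, hid, ht, smul_eq_mul] at h
    have h' : ((finrank ℝ (LinearMap.ker (T - LinearMap.id)) : ℕ) : ℝ) = 3 := by
      rw [← h]; norm_num
    exact_mod_cast h'
  · have hp : LinearMap.IsProj (LinearMap.ker (T + LinearMap.id))
        ((1 / 2 : ℝ) • (LinearMap.id - T)) := by
      constructor
      · intro x
        rw [LinearMap.mem_ker]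
        simp only [LinearMap.sub_apply, LinearMap.smul_apply, LinearMap.add_apply,
          LinearMap.id_apply, map_smul, map_sub, h2]
        rw [add_comm x, sub_self, smul_zero]
      · intro x hx
        rw [LinearMap.mem_ker, LinearMap.add_apply, LinearMap.id_apply, add_eq_zero_iff_eq_neg] at hx
        simp only [LinearMap.smul_apply, LinearMap.sub_apply, LinearMap.id_apply, hx]
        rw [sub_neg_eq_add, ← two_smul ℝ x, smul_smul]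
        norm_num
    have h := hp.trace
    rw [map_smul, map_sub, hid, ht, smul_eq_mul] at h
    have h' : ((finrank ℝ (LinearMap.ker (T + LinearMap.id)) : ℕ) : ℝ) = 4 := by
      rw [← h]; norm_num
    exact_mod_cast h'

theorem finrank_V6 : finrank ℝ V6 = 7 := by
  rw [Module.finrank_fin_fun]

/-- The involution of the sextics defined by a traceless matrix `S`. -/
noncomputable def inv6 (S : Matrix (Fin 2) (Fin 2) ℝ) : V6 →ₗ[ℝ] V6 :=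
  (S.det ^ 3)⁻¹ • (sym 6 S).mulVecLin

theorem inv6_apply (S : Matrix (Fin 2) (Fin 2) ℝ) (v : V6) :
    inv6 S v = (S.det ^ 3)⁻¹ • (sym 6 S *ᵥ v) := rfl

theorem sq_traceless {S : Matrix (Fin 2) (Fin 2) ℝ} (hS : S.trace = 0) :
    S * S = (-S.det) • (1 : Matrix (Fin 2) (Fin 2) ℝ) := by
  rw [trace_fin_two] at hS
  rw [det_fin_two]
  ext i j
  fin_cases i <;> fin_cases j
  · simp [Matrix.mul_apply, Fin.sum_univ_two]
    linear_combination S 0 0 * hS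
  · simp [Matrix.mul_apply, Fin.sum_univ_two]
    linear_combination S 0 1 * hS
  · simp [Matrix.mul_apply, Fin.sum_univ_two]
    linear_combination S 1 0 * hS
  · simp [Matrix.mul_apply, Fin.sum_univ_two]
    linear_combination S 1 1 * hS

theorem inv6_inv6 {S : Matrix (Fin 2) (Fin 2) ℝ} (hS : S.trace = 0) (hd : S.det ≠ 0) (v : V6) :
    inv6 S (inv6 S v) = v := by
  rw [inv6_apply, inv6_apply, mulVec_smul, mulVec_mulVec, ← sym_mul, sq_traceless hS, sym_smul,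
    sym_one, smul_mulVec, one_mulVec, smul_smul, smul_smul]
  have : (S.det ^ 3)⁻¹ * (S.det ^ 3)⁻¹ * (-S.det) ^ 6 = 1 := by
    field_simp
  rw [this, one_smul]

theorem trace_inv6 {S : Matrix (Fin 2) (Fin 2) ℝ} (hS : S.trace = 0) (hd : S.det ≠ 0) :
    LinearMap.trace ℝ V6 (inv6 S) = -1 := by
  rw [inv6, map_smul, ← Matrix.toLin'_apply', Matrix.trace_toLin'_eq, trace_sym6 hS, smul_eq_mul]
  field_simp

end Pool.Agent.Y245.HS
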