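import Pool.Agent.Y245.HS.Curve
import Pool.Agent.Y245.HS.Comm
import Pool.Agent.Y473.SA.OutFin

/-!
# The Hitchin components in genus two: no collection of class functions is spanning
-/

set_option autoImplicit false

open Matrix Filter Topology
open scoped MatrixGroups

namespace Pool.Agent.Y245.HS

open Pool.Agent.H225R3.CV Pool.Agent.H225R3.Scc

variable {m : ℕ} {ρ₀ : SurfaceGroup 2 →* SL(2, ℝ)}

theorem IsFuchsian.purelyHyperbolic (h : IsFuchsian ρ₀) : PurelyHyperbolic ρ₀ := by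
  intro γ hγ
  obtain ⟨ε, hε, h1, -⟩ := h.2.trace_gap
  have h2 := h1 ⟨ρ₀ γ, ⟨γ, rfl⟩⟩ (by
    intro h3
    apply hγ
    apply h.1
    rw [map_one]
    exact congrArg Subtype.val h3)
  have h3 : 1 < Real.cosh (ε / 2) := Real.one_lt_cosh.2 (by positivity)
  have h4 : 2 * Real.cosh (ε / 2) ≤ |(ρ₀ γ : M2).trace| := h2
  linarith

/-- The relation in the generators `Y i`, linearised. -/
theorem lin_rel {ρ : SurfaceGroup 2 →* SL(m + 1, ℝ)} {u : SurfaceGroup 2 → MM m}
    (hu : ∀ γ δ, u (γ * δ) = u γ + (ρ γ : MM m) * u δ * (((ρ γ)⁻¹ : SL(m + 1, ℝ)) : MM m)) :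
    (u (Y 0) * ρ (Y 0)) * ρ (Y 1) * ρ (Y 2) * ρ (Y 3) +
      ρ (Y 0) * (u (Y 1) * ρ (Y 1)) * ρ (Y 2) * ρ (Y 3) +
      ρ (Y 0) * ρ (Y 1) * (u (Y 2) * ρ (Y 2)) * ρ (Y 3) +
      ρ (Y 0) * ρ (Y 1) * ρ (Y 2) * (u (Y 3) * ρ (Y 3)) =
    (u (Y 3) * ρ (Y 3)) * ρ (Y 2) * ρ (Y 1) * ρ (Y 0) +
      ρ (Y 3) * (u (Y 2) * ρ (Y 2)) * ρ (Y 1) * ρ (Y 0) +
      ρ (Y 3) * ρ (Y 2) * (u (Y 1) * ρ (Y 1)) * ρ (Y 0) +
      (ρ (Y 3) : MM m) * ρ (Y 2) * ρ (Y 1) * (u (Y 0) * ρ (Y 0)) := by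
  have hD : ∀ γ δ, u (γ * δ) * (ρ (γ * δ) : MM m) =
      (u γ * ρ γ) * ρ δ + ρ γ * (u δ * ρ δ) := by
    intro γ δ
    rw [hu, map_mul, coe_mul_m, add_mul]
    congr 1
    · simp only [mul_assoc]
    · calc (ρ γ : MM m) * u δ * (((ρ γ)⁻¹ : SL(m + 1, ℝ)) : MM m) * ((ρ γ : MM m) * ρ δ)
          = (ρ γ : MM m) * u δ * ((((ρ γ)⁻¹ : SL(m + 1, ℝ)) : MM m) * (ρ γ : MM m)) * ρ δ := by
            simp only [mul_assoc]
        _ = _ := by rw [inv_mul_m, mul_one, mul_assoc]
  have h := congrArg (fun γ => u γ * (ρ γ : MM m)) Y_rel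
  simp only [hD] at h
  simp only [map_mul, coe_mul_m, add_mul] at h
  exact h

/-- **Every cocycle is the velocity of a curve of representations** (for representations with
trivial commutant). -/
theorem exists_rep_curve {ρ : SurfaceGroup 2 →* SL(m + 1, ℝ)} {u : SurfaceGroup 2 → MM m}
    (hu : ∀ γ δ, u (γ * δ) = u γ + (ρ γ : MM m) * u δ * (((ρ γ)⁻¹ : SL(m + 1, ℝ)) : MM m))
    (htr : ∀ γ, (u γ).trace = 0)
    (hcomm : ∀ T : MM m, (∀ γ, T * (ρ γ : MM m) = ρ γ * T) → ∃ c : ℝ, T = c • 1) :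
    ∃ r : ℝ → (SurfaceGroup 2 →* SL(m + 1, ℝ)), r 0 = ρ ∧
      ∀ γ, HasDerivAt (fun t => (r t γ : MM m)) (u γ * (ρ γ : MM m)) 0 := by
  have hrel : ρ (Y 0) * ρ (Y 1) * ρ (Y 2) * ρ (Y 3) = ρ (Y 3) * ρ (Y 2) * ρ (Y 1) * ρ (Y 0) := by
    simp only [← map_mul]
    rw [Y_rel]
  have hcomm' : ∀ T : MM m, (∀ i : Fin 4, T * (ρ (Y i) : MM m) = ρ (Y i) * T) →
      ∃ c : ℝ, T = c • 1 := by
    intro T hT
    apply hcomm
    let H : Subgroup (SurfaceGroup 2) :=
      { carrier := {γ | T * (ρ γ : MM m) = ρ γ * T}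
        mul_mem' := by
          intro a b ha hb
          simp only [Set.mem_ofPred_eq] at ha hb ⊢
          rw [map_mul, coe_mul_m, ← mul_assoc, ha, mul_assoc, hb, mul_assoc]
        one_mem' := by
          simp only [Set.mem_ofPred_eq, map_one, coe_one_m, one_mul, mul_one]
        inv_mem' := by
          intro a ha
          simp only [Set.mem_ofPred_eq] at ha ⊢
          rw [map_inv]
          calc T * (((ρ a)⁻¹ : SL(m + 1, ℝ)) : MM m)
              = (((ρ a)⁻¹ : SL(m + 1, ℝ)) : MM m) * ((ρ a : MM m) * T) *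
                (((ρ a)⁻¹ : SL(m + 1, ℝ)) : MM m) := by
                rw [← mul_assoc, inv_mul_m, one_mul]
            _ = (((ρ a)⁻¹ : SL(m + 1, ℝ)) : MM m) * T * ((ρ a : MM m) *
                (((ρ a)⁻¹ : SL(m + 1, ℝ)) : MM m)) := by
                rw [← ha]; simp only [mul_assoc]
            _ = _ := by rw [mul_inv_m, mul_one] }
    exact fun γ => mem_of_Y H hT γ
  obtain ⟨z, hz0, hzr, hz⟩ := exists_curve (a := fun i => ρ (Y i)) hrel hcomm'
    (u := fun i => u (Y i)) (fun i => htr _) (lin_rel hu)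
  let r : ℝ → (SurfaceGroup 2 →* SL(m + 1, ℝ)) := fun t => mkRep (z t) (hzr t)
  have hr0 : r 0 = ρ := by
    refine Rep.ext_Y fun i => ?_
    show mkRep (z 0) (hzr 0) (Y i) = ρ (Y i)
    rw [mkRep_Y, hz0]
  refine ⟨r, hr0, ?_⟩
  have hu1 : u 1 = 0 := by
    have h := hu 1 1
    rw [mul_one, map_one, inv_one, coe_one_m, one_mul, mul_one] at h
    simpa using h
  let H : Subgroup (SurfaceGroup 2) :=
    { carrier := {γ | HasDerivAt (fun t => (r t γ : MM m)) (u γ * (ρ γ : MM m)) 0}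
      mul_mem' := by
        intro a b ha hb
        simp only [Set.mem_ofPred_eq] at ha hb ⊢
        have h1 := HasDerivAt.matMul ha hb
        have e1 : (fun t => (r t (a * b) : MM m)) = fun t => (r t a : MM m) * (r t b : MM m) := by
          funext t
          rw [map_mul, coe_mul_m]
        have e2 : u (a * b) * (ρ (a * b) : MM m) =
            u a * (ρ a : MM m) * (r 0 b : MM m) + (r 0 a : MM m) * (u b * (ρ b : MM m)) := by
          rw [hr0, hu, map_mul, coe_mul_m, add_mul]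
          congr 1
          · simp only [mul_assoc]
          · calc (ρ a : MM m) * u b * (((ρ a)⁻¹ : SL(m + 1, ℝ)) : MM m) * ((ρ a : MM m) * ρ b)
                = (ρ a : MM m) * u b * ((((ρ a)⁻¹ : SL(m + 1, ℝ)) : MM m) * (ρ a : MM m)) * ρ b := by
                  simp only [mul_assoc]
              _ = _ := by rw [inv_mul_m, mul_one, mul_assoc]
        rw [e1, e2]
        exact h1
      one_mem' := by
        simp only [Set.mem_ofPred_eq]
        have e1 : (fun t => (r t 1 : MM m)) = fun _ => (1 : MM m) := by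
          funext t
          rw [map_one, coe_one_m]
        rw [e1, hu1, zero_mul, hasDerivAt_matrix]
        intro i j
        exact hasDerivAt_const _ _
      inv_mem' := by
        intro a ha
        simp only [Set.mem_ofPred_eq] at ha ⊢
        have h1 := HasDerivAt.slInv ha
        have e1 : (fun t => (r t a⁻¹ : MM m)) = fun t => (((r t a)⁻¹ : SL(m + 1, ℝ)) : MM m) := by
          funext t
          rw [map_inv]
        have e2 : u a⁻¹ * (ρ a⁻¹ : MM m) = -((((r 0 a)⁻¹ : SL(m + 1, ℝ)) : MM m) *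
            (u a * (ρ a : MM m)) * (((r 0 a)⁻¹ : SL(m + 1, ℝ)) : MM m)) := by
          rw [hr0]
          have h2 := hu a⁻¹ a
          rw [inv_mul_cancel, hu1, map_inv, inv_inv] at h2
          have h3 : u a⁻¹ = -((((ρ a)⁻¹ : SL(m + 1, ℝ)) : MM m) * u a * (ρ a : MM m)) :=
            eq_neg_of_add_eq_zero_left h2.symm
          rw [h3, map_inv, neg_mul]
          congr 1
          simp only [mul_assoc]
        rw [e1, e2]
        exact h1 }
  exact fun γ => mem_of_Y H (fun i => by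
    show HasDerivAt (fun t => (r t (Y i) : MM m)) (u (Y i) * (ρ (Y i) : MM m)) 0
    have e1 : (fun t => (r t (Y i) : MM m)) = fun t => (z t i : MM m) := by
      funext t
      show ((mkRep (z t) (hzr t) (Y i) : SL(m + 1, ℝ)) : MM m) = _
      rw [mkRep_Y]
    rw [e1]
    exact hz i) γ

/-- **Main theorem, in terms of curves.** Through every Fuchsian point there is a curve of
representations, not tangent to the conjugation orbit, along which no differentiable class
function of a simple curve changes to first order. -/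
theorem main_curve (hm : 3 ≤ m) (h₀ : PurelyHyperbolic ρ₀) :
    ∃ (r : ℝ → (SurfaceGroup 2 →* SL(m + 1, ℝ))) (u : SurfaceGroup 2 → MM m),
      r 0 = (irr m).comp ρ₀ ∧
      (∀ γ, HasDerivAt (fun t => (r t γ : MM m)) (u γ * (r 0 γ : MM m)) 0) ∧
      (∀ f : PSLR (m + 1) → ℝ, IsDiffClass f → ∀ γ, IsSimple γ →
        HasDerivAt (fun t => f (proj (m + 1) (r t γ))) 0 0) ∧
      ¬ ∃ X : MM m, ∀ γ, u γ = X - (r 0 γ : MM m) * X * (((r 0 γ)⁻¹ : SL(m + 1, ℝ)) : MM m) := by
  obtain ⟨u, hu, htr, hs, hne⟩ := exists_u hm h₀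
  obtain ⟨r, hr0, hr⟩ := exists_rep_curve (ρ := (irr m).comp ρ₀) (u := u) hu htr
    (fun T hT => commutant h₀ hT)
  refine ⟨r, u, hr0, ?_, ?_, ?_⟩
  · intro γ
    rw [hr0]
    exact hr γ
  · intro f hf γ hγ
    obtain ⟨X, hX⟩ := hs γ hγ
    refine class_deriv hf (A := fun t => r t γ) (u := u γ) (X := X) ?_ ?_
    · rw [hr0]
      exact hr γ
    · rw [hr0]
      exact hX
  · rw [hr0]
    exact hne

/-- **No collection of differentiable class functions is spanning at a Fuchsian point.** -/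
theorem not_spanning (hm : 3 ≤ m) (h₀ : PurelyHyperbolic ρ₀) {F : Set (PSLR (m + 1) → ℝ)}
    (hF : ∀ f ∈ F, IsDiffClass f) : ¬ SpanningAt F (fuchsianPoint m ρ₀) := by
  obtain ⟨r, u, hr0, hr, hs, hne⟩ := main_curve hm h₀
  intro h
  obtain ⟨X, hX⟩ := h (fun t => (proj (m + 1)).comp (r t)) u (by
      show (proj (m + 1)).comp (r 0) = _
      rw [hr0]; rfl)
    (fun γ => ⟨fun t => r t γ, fun t => rfl, hr γ⟩)
    (fun f hf γ hγ => hs f (hF f hf) γ hγ)
  apply hne
  refine ⟨X, fun γ => hX γ (r 0 γ) ?_⟩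
  rw [hr0]
  rfl

end Pool.Agent.Y245.HS
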