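import Pool.Agent.Y245.HS.SymDet

/-!
# The invariant bilinear form on binary sextics and the fixed vectors of hyperbolic elements
-/

set_option autoImplicit false

open Matrix

namespace Pool.Agent.Y245.HS

/-- binary sextics -/
abbrev V6 : Type := Fin (6 + 1) → ℝ

/-- The invariant bilinear form on binary sextics. -/
noncomputable def B6 (q q' : V6) : ℝ :=
  q 0 * q' 6 - q 1 * q' 5 / 6 + q 2 * q' 4 / 15 - q 3 * q' 3 / 20 + q 4 * q' 2 / 15
    - q 5 * q' 1 / 6 + q 6 * q' 0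

theorem B6_add_left (q q' w : V6) : B6 (q + q') w = B6 q w + B6 q' w := by
  simp only [B6, Pi.add_apply]; ring

theorem B6_smul_left (c : ℝ) (q w : V6) : B6 (c • q) w = c * B6 q w := by
  simp only [B6, Pi.smul_apply, smul_eq_mul]; ring

theorem B6_add_right (w q q' : V6) : B6 w (q + q') = B6 w q + B6 w q' := by
  simp only [B6, Pi.add_apply]; ring

theorem B6_smul_right (c : ℝ) (w q : V6) : B6 w (c • q) = c * B6 w q := by
  simp only [B6, Pi.smul_apply, smul_eq_mul]; ring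

theorem B6_neg_right (w q : V6) : B6 w (-q) = - B6 w q := by
  simp only [B6, Pi.neg_apply]; ring

theorem B6_neg_left (q w : V6) : B6 (-q) w = - B6 q w := by
  simp only [B6, Pi.neg_apply]; ring

theorem B6_sub_right (w q q' : V6) : B6 w (q - q') = B6 w q - B6 w q' := by
  simp only [B6, Pi.sub_apply]; ring

theorem ev6 (f : V6) (x y : ℝ) : ev f x y = f 0 * x ^ 6 + f 1 * x ^ 5 * y + f 2 * x ^ 4 * y ^ 2 +
    f 3 * x ^ 3 * y ^ 3 + f 4 * x ^ 2 * y ^ 4 + f 5 * x * y ^ 5 + f 6 * y ^ 6 := by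
  refine (Fin.sum_univ_seven (fun j : Fin 7 => f j * x ^ (6 - (j : ℕ)) * y ^ (j : ℕ))).trans ?_
  simp

theorem pw6 (a b : ℝ) : pw 6 a b = ![a ^ 6, 6 * a ^ 5 * b, 15 * a ^ 4 * b ^ 2,
    20 * a ^ 3 * b ^ 3, 15 * a ^ 2 * b ^ 4, 6 * a * b ^ 5, b ^ 6] := by
  have c2 : Nat.choose 6 2 = 15 := rfl
  have c3 : Nat.choose 6 3 = 20 := rfl
  have c4 : Nat.choose 6 4 = 15 := rfl
  funext i
  fin_cases i <;> simp [pw, c2, c3, c4]

theorem B6_pw (a b : ℝ) (q : V6) : B6 (pw 6 a b) q = ev q (-b) a := by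
  rw [ev6, pw6]
  simp only [B6, cons_val]
  ring

theorem B6_inv (g : Matrix (Fin 2) (Fin 2) ℝ) (q q' : V6) :
    B6 (sym 6 g *ᵥ q) (sym 6 g *ᵥ q') = g.det ^ 6 * B6 q q' := by
  let L : V6 →ₗ[ℝ] ℝ :=
    { toFun := fun q => B6 (sym 6 g *ᵥ q) (sym 6 g *ᵥ q')
      map_add' := fun a b => by rw [mulVec_add, B6_add_left]
      map_smul' := fun c a => by rw [mulVec_smul, B6_smul_left]; rfl }
  let L' : V6 →ₗ[ℝ] ℝ :=
    { toFun := fun q => g.det ^ 6 * B6 q q'
      map_add' := fun a b => by rw [B6_add_left]; ring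
      map_smul' := fun c a => by rw [B6_smul_left, RingHom.id_apply, smul_eq_mul]; ring }
  have h : L = L' := by
    apply ext_pw
    intro b
    show B6 (sym 6 g *ᵥ pw 6 1 b) (sym 6 g *ᵥ q') = g.det ^ 6 * B6 (pw 6 1 b) q'
    rw [sym_pw, B6_pw, B6_pw, ev_sym, ← ev_scale, det_fin_two]
    congr 1 <;> ring
  exact congrFun (congrArg DFunLike.coe h) q

/-- The quadratic form fixed by `g`. -/
def Q (g : Matrix (Fin 2) (Fin 2) ℝ) (x y : ℝ) : ℝ :=
  -g 0 1 * x ^ 2 + (g 0 0 - g 1 1) * x * y + g 1 0 * y ^ 2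

/-- The cube of the quadratic form fixed by `g`. -/
def zz (g : Matrix (Fin 2) (Fin 2) ℝ) : V6 :=
  let q := -g 0 1
  let p := g 0 0 - g 1 1
  let r := g 1 0
  ![q ^ 3, 3 * q ^ 2 * p, 3 * q ^ 2 * r + 3 * q * p ^ 2, p ^ 3 + 6 * q * p * r,
    3 * q * r ^ 2 + 3 * p ^ 2 * r, 3 * p * r ^ 2, r ^ 3]

theorem ev_zz (g : Matrix (Fin 2) (Fin 2) ℝ) (x y : ℝ) : ev (zz g) x y = Q g x y ^ 3 := by
  rw [ev6]
  simp only [zz, Q, cons_val]
  ring

theorem Q_conj {k g g' : Matrix (Fin 2) (Fin 2) ℝ} (h : k * g = g' * k) (x y : ℝ) :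
    Q g (x * k 0 0 + y * k 1 0) (x * k 0 1 + y * k 1 1) = k.det * Q g' x y := by
  have h00 := congrFun (congrFun h 0) 0
  have h01 := congrFun (congrFun h 0) 1
  have h10 := congrFun (congrFun h 1) 0
  have h11 := congrFun (congrFun h 1) 1
  simp only [Matrix.mul_apply, Fin.sum_univ_two] at h00 h01 h10 h11
  rw [det_fin_two]
  unfold Q
  -- `v k g J kᵀ vᵀ = v g' k J kᵀ vᵀ`
  linear_combination (x * (x * k 0 1 + y * k 1 1)) * h00 - (x * (x * k 0 0 + y * k 1 0)) * h01 +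
    (y * (x * k 0 1 + y * k 1 1)) * h10 - (y * (x * k 0 0 + y * k 1 0)) * h11

theorem zz_conj {k g g' : Matrix (Fin 2) (Fin 2) ℝ} (h : k * g = g' * k) :
    sym 6 k *ᵥ zz g = k.det ^ 3 • zz g' := by
  apply ev_inj
  intro y
  rw [ev_sym, ev_smul, ev_zz, ev_zz, Q_conj h]
  ring

theorem zz_adj (g : Matrix (Fin 2) (Fin 2) ℝ) : zz (adjugate g) = - zz g := by
  rw [adjugate_fin_two]
  apply ev_inj
  intro y
  rw [ev_neg, ev_zz, ev_zz]
  simp only [Q, of_apply, cons_val', cons_val_zero, cons_val_one, cons_val_fin_one]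
  ring

/-! ### Hyperbolic elements -/

/-- Diagonalisation of hyperbolic elements. -/
theorem exists_diag {g : Matrix (Fin 2) (Fin 2) ℝ} (hg : g.det = 1) (ht : 2 < |g.trace|) :
    ∃ (p : Matrix (Fin 2) (Fin 2) ℝ) (a : ℝ), p.det ≠ 0 ∧ a ≠ 0 ∧ a ^ 2 ≠ 1 ∧
      g * p = p * !![a, 0; 0, a⁻¹] := by
  rw [det_fin_two] at hg
  rw [trace_fin_two] at ht
  have ht2 : 4 < (g 0 0 + g 1 1) ^ 2 := by
    rw [← sq_abs]
    nlinarith [abs_nonneg (g 0 0 + g 1 1)]
  by_cases hc : g 1 0 = 0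
  · rw [hc, mul_zero, sub_zero] at hg
    have ha : g 0 0 ≠ 0 := by
      intro h
      rw [h, zero_mul] at hg
      exact zero_ne_one hg
    have hs : g 1 1 = (g 0 0)⁻¹ := eq_inv_of_mul_eq_one_right hg
    have ha2 : g 0 0 ^ 2 ≠ 1 := by
      intro h
      have h1 : g 1 1 = g 0 0 := by
        have : g 0 0 * (g 1 1 - g 0 0) = 0 := by linear_combination hg - h
        rcases mul_eq_zero.1 this with h2 | h2
        · exact absurd h2 ha
        · linarith
      rw [h1] at ht2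
      nlinarith
    refine ⟨!![1, g 0 1; 0, g 1 1 - g 0 0], g 0 0, ?_, ha, ha2, ?_⟩
    · rw [det_fin_two_of]
      intro h
      have : g 1 1 = g 0 0 := by linarith
      rw [this] at hg
      exact ha2 (by linear_combination hg)
    · rw [← hs]
      ext i j
      fin_cases i <;> fin_cases j
      · simp [Matrix.mul_apply, Fin.sum_univ_two]
      · simp [Matrix.mul_apply, Fin.sum_univ_two]
        ring
      · simp [Matrix.mul_apply, Fin.sum_univ_two, hc]
      · simp [Matrix.mul_apply, Fin.sum_univ_two, hc]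
        ring
  · obtain ⟨d, hd⟩ : ∃ d : ℝ, d ^ 2 = (g 0 0 + g 1 1) ^ 2 - 4 :=
      ⟨Real.sqrt ((g 0 0 + g 1 1) ^ 2 - 4), Real.sq_sqrt (by linarith)⟩
    set a := (g 0 0 + g 1 1 + d) / 2 with had
    set b := (g 0 0 + g 1 1 - d) / 2 with hbd
    have hab : a * b = 1 := by
      rw [had, hbd]
      linear_combination -(1 / 4) * hd
    have hsum : a + b = g 0 0 + g 1 1 := by rw [had, hbd]; ring
    have hne : a ≠ b := by
      intro h
      have : d = 0 := by linarith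
      rw [this] at hd
      linarith
    have ha : a ≠ 0 := left_ne_zero_of_mul_eq_one hab
    have hb : b = a⁻¹ := eq_inv_of_mul_eq_one_right hab
    have ha2 : a ^ 2 ≠ 1 := by
      intro h
      apply hne
      have : a * (a - b) = 0 := by linear_combination h - hab
      rcases mul_eq_zero.1 this with h2 | h2
      · exact absurd h2 ha
      · linarith
    have ea : a ^ 2 = (g 0 0 + g 1 1) * a - 1 := by linear_combination a * hsum - hab
    have eb : b ^ 2 = (g 0 0 + g 1 1) * b - 1 := by linear_combination b * hsum - hab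
    refine ⟨!![a - g 1 1, b - g 1 1; g 1 0, g 1 0], a, ?_, ha, ha2, ?_⟩
    · rw [det_fin_two_of]
      intro h
      have : g 1 0 * (a - b) = 0 := by linear_combination h
      rcases mul_eq_zero.1 this with h2 | h2
      · exact hc h2
      · exact hne (by linarith)
    · rw [← hb]
      ext i j
      fin_cases i <;> fin_cases j
      · simp [Matrix.mul_apply, Fin.sum_univ_two]
        linear_combination -ea - hg
      · simp [Matrix.mul_apply, Fin.sum_univ_two]
        linear_combination -eb - hg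
      · simp [Matrix.mul_apply, Fin.sum_univ_two]
        ring
      · simp [Matrix.mul_apply, Fin.sum_univ_two]
        ring

/-- The action of a diagonal matrix. -/
theorem sym_diag (a b : ℝ) (f : V6) : sym 6 !![a, 0; 0, b] *ᵥ f =
    (fun j : Fin (6 + 1) => a ^ (6 - (j : ℕ)) * b ^ (j : ℕ) * f j) := by
  apply ev_inj
  intro y
  rw [ev_sym]
  unfold ev
  simp only [of_apply, cons_val', cons_val_zero, cons_val_one, cons_val_fin_one]
  refine Finset.sum_congr rfl fun j _ => ?_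
  simp only [one_mul, mul_zero, add_zero, zero_add, mul_pow, one_pow]
  ring

theorem diag_ne {a : ℝ} (ha : a ≠ 0) (ha2 : a ^ 2 ≠ 1) (j : Fin (6 + 1)) (hj : j ≠ 3) :
    a ^ (6 - (j : ℕ)) * a⁻¹ ^ (j : ℕ) ≠ 1 := by
  have key : ∀ k : ℕ, k ≠ 0 → (a ^ 2) ^ k ≠ 1 := by
    intro k hk h
    exact ha2 ((pow_eq_one_iff_of_nonneg (sq_nonneg a) hk).1 h)
  have k1 := key 1 (by norm_num)
  have k2 := key 2 (by norm_num)
  have k3 := key 3 (by norm_num)
  intro h
  rw [inv_pow, ← div_eq_mul_inv, div_eq_one_iff_eq (pow_ne_zero _ ha)] at h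
  fin_cases j
  · apply k3
    simp at h
    rw [← pow_mul]
    exact h
  · simp at h
    apply k2
    have : a * (a ^ 4 - 1) = 0 := by linear_combination h
    rcases mul_eq_zero.1 this with h2 | h2
    · exact absurd h2 ha
    · linear_combination h2
  · simp at h
    apply k1
    have : a ^ 2 * (a ^ 2 - 1) = 0 := by linear_combination h
    rcases mul_eq_zero.1 this with h2 | h2
    · exact absurd h2 (pow_ne_zero 2 ha)
    · linear_combination h2
  · exact hj rfl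
  · simp at h
    apply k1
    have : a ^ 2 * (a ^ 2 - 1) = 0 := by linear_combination -h
    rcases mul_eq_zero.1 this with h2 | h2
    · exact absurd h2 (pow_ne_zero 2 ha)
    · linear_combination h2
  · simp at h
    apply k2
    have : a * (a ^ 4 - 1) = 0 := by linear_combination -h
    rcases mul_eq_zero.1 this with h2 | h2
    · exact absurd h2 ha
    · linear_combination h2
  · apply k3
    simp at h
    rw [← pow_mul]
    exact h.symm

theorem zz_diag (a b : ℝ) : zz !![a, 0; 0, b] = (a - b) ^ 3 • Pi.single 3 1 := by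
  funext i
  fin_cases i <;> simp [zz]

theorem sym_cancel {p : Matrix (Fin 2) (Fin 2) ℝ} (hp : p.det ≠ 0) (w : V6) :
    sym 6 p *ᵥ (sym 6 p⁻¹ *ᵥ w) = w := by
  rw [mulVec_mulVec, ← sym_mul, Matrix.mul_nonsing_inv _ (isUnit_iff_ne_zero.2 hp), sym_one,
    one_mulVec]

theorem sym_cancel' {p : Matrix (Fin 2) (Fin 2) ℝ} (hp : p.det ≠ 0) (w : V6) :
    sym 6 p⁻¹ *ᵥ (sym 6 p *ᵥ w) = w := by
  rw [mulVec_mulVec, ← sym_mul, Matrix.nonsing_inv_mul _ (isUnit_iff_ne_zero.2 hp), sym_one,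
    one_mulVec]

/-- The fixed vectors of a hyperbolic element are the multiples of `zz g`. -/
theorem fixed_hyp {g : Matrix (Fin 2) (Fin 2) ℝ} (hg : g.det = 1) (ht : 2 < |g.trace|) {w : V6}
    (hw : sym 6 g *ᵥ w = w) : ∃ c : ℝ, w = c • zz g := by
  obtain ⟨p, a, hp, ha, ha2, h⟩ := exists_diag hg ht
  set w1 := sym 6 p⁻¹ *ᵥ w with hw1
  have e1 : sym 6 p *ᵥ w1 = w := sym_cancel hp w
  have e2 : sym 6 !![a, 0; 0, a⁻¹] *ᵥ w1 = w1 := by
    have h1 : sym 6 p *ᵥ (sym 6 !![a, 0; 0, a⁻¹] *ᵥ w1) = w := by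
      rw [mulVec_mulVec, ← sym_mul, ← h, sym_mul, ← mulVec_mulVec, e1, hw]
    have h2 : sym 6 p⁻¹ *ᵥ (sym 6 p *ᵥ (sym 6 !![a, 0; 0, a⁻¹] *ᵥ w1)) = w1 := by rw [h1]
    rwa [sym_cancel' hp] at h2
  have e3 : w1 = w1 3 • Pi.single 3 1 := by
    funext j
    by_cases hj : j = 3
    · subst hj; simp
    · rw [Pi.smul_apply, Pi.single_apply, if_neg hj, smul_zero]
      have h1 := congrFun e2 j
      rw [sym_diag] at h1
      have h2 : (a ^ (6 - (j : ℕ)) * a⁻¹ ^ (j : ℕ) - 1) * w1 j = 0 := by linear_combination h1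
      rcases mul_eq_zero.1 h2 with h3 | h3
      · exact absurd (sub_eq_zero.1 h3) (diag_ne ha ha2 j hj)
      · exact h3
  have hz := zz_conj (k := p) (g := !![a, 0; 0, a⁻¹]) (g' := g) h.symm
  have hne : (a - a⁻¹) ^ 3 ≠ 0 := by
    apply pow_ne_zero
    intro h0
    apply ha2
    have : a * (a - a⁻¹) = 0 := by rw [h0, mul_zero]
    rw [mul_sub, mul_inv_cancel₀ ha] at this
    linear_combination this
  refine ⟨w1 3 * ((a - a⁻¹) ^ 3)⁻¹ * p.det ^ 3, ?_⟩
  rw [← e1, e3, mul_smul, ← hz, zz_diag, mulVec_smul, mulVec_smul, smul_smul]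
  congr 1
  simp only [Pi.smul_apply, Pi.single_eq_same, smul_eq_mul, mul_one]
  field_simp

/-- The image of `1 - g` is the orthogonal complement of `zz g`. -/
theorem image_hyp {g : Matrix (Fin 2) (Fin 2) ℝ} (hg : g.det = 1) (ht : 2 < |g.trace|) {w : V6}
    (hw : B6 (zz g) w = 0) : ∃ w' : V6, w = w' - sym 6 g *ᵥ w' := by
  obtain ⟨p, a, hp, ha, ha2, h⟩ := exists_diag hg ht
  set w1 := sym 6 p⁻¹ *ᵥ w with hw1
  have e1 : sym 6 p *ᵥ w1 = w := sym_cancel hp w
  have hz := zz_conj (k := p) (g := !![a, 0; 0, a⁻¹]) (g' := g) h.symm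
  have hne : (a - a⁻¹) ^ 3 ≠ 0 := by
    apply pow_ne_zero
    intro h0
    apply ha2
    have : a * (a - a⁻¹) = 0 := by rw [h0, mul_zero]
    rw [mul_sub, mul_inv_cancel₀ ha] at this
    linear_combination this
  have e2 : w1 3 = 0 := by
    have h1 : B6 (sym 6 p *ᵥ zz !![a, 0; 0, a⁻¹]) (sym 6 p *ᵥ w1) = 0 := by
      rw [hz, e1, B6_smul_left, hw, mul_zero]
    rw [B6_inv, zz_diag, B6_smul_left] at h1
    have h2 : B6 (Pi.single 3 1) w1 = 0 := by
      rcases mul_eq_zero.1 h1 with h3 | h3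
      · exact absurd h3 (pow_ne_zero _ hp)
      · rcases mul_eq_zero.1 h3 with h4 | h4
        · exact absurd h4 hne
        · exact h4
    simp [B6] at h2
    exact h2
  set w2 : V6 := fun j => w1 j / (1 - a ^ (6 - (j : ℕ)) * a⁻¹ ^ (j : ℕ)) with hw2
  have e3 : w1 = w2 - sym 6 !![a, 0; 0, a⁻¹] *ᵥ w2 := by
    funext j
    rw [Pi.sub_apply, sym_diag]
    by_cases hj : j = 3
    · subst hj
      simp [hw2, e2]
    · have := diag_ne ha ha2 j hj
      have h1 : 1 - a ^ (6 - (j : ℕ)) * a⁻¹ ^ (j : ℕ) ≠ 0 := sub_ne_zero.2 this.symm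
      simp only [hw2]
      generalize a ^ (6 - (j : ℕ)) * a⁻¹ ^ (j : ℕ) = k at h1
      field_simp
      try ring
  refine ⟨sym 6 p *ᵥ w2, ?_⟩
  rw [← e1, e3, mulVec_sub, mulVec_mulVec, mulVec_mulVec, ← sym_mul, ← sym_mul, h]

/-- If `zz A` and `zz B` are proportional, then `A` and `B` commute. -/
theorem comm_of_zz {A B : Matrix (Fin 2) (Fin 2) ℝ} {c : ℝ} (h : zz A = c • zz B) :
    A * B = B * A := by
  obtain ⟨d, hd⟩ : ∃ d : ℝ, d ^ 3 = c := by
    rcases le_total 0 c with hc | hc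
    · exact ⟨c ^ (((3 : ℕ) : ℝ)⁻¹), Real.rpow_inv_natCast_pow hc (by norm_num)⟩
    · refine ⟨-(-c) ^ (((3 : ℕ) : ℝ)⁻¹), ?_⟩
      rw [neg_pow, Real.rpow_inv_natCast_pow (neg_nonneg.2 hc) (by norm_num)]
      ring
  have h1 : ∀ x y, Q A x y = d * Q B x y := by
    intro x y
    have h2 : ev (zz A) x y = c * ev (zz B) x y := by rw [h, ev_smul]
    rw [ev_zz, ev_zz, ← hd, ← mul_pow] at h2
    have hodd : Odd 3 := by decide
    exact (Odd.pow_inj hodd).1 h2
  have e1 := h1 1 0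
  have e2 := h1 0 1
  have e3 := h1 1 1
  simp only [Q] at e1 e2 e3
  have f1 : A 0 1 = d * B 0 1 := by linarith
  have f2 : A 1 0 = d * B 1 0 := by linarith
  have f3 : A 0 0 - A 1 1 = d * (B 0 0 - B 1 1) := by linarith
  ext i j
  fin_cases i <;> fin_cases j
  · simp [Matrix.mul_apply, Fin.sum_univ_two]
    linear_combination B 1 0 * f1 - B 0 1 * f2
  · simp [Matrix.mul_apply, Fin.sum_univ_two]
    linear_combination B 0 1 * f3 - (B 0 0 - B 1 1) * f1
  · simp [Matrix.mul_apply, Fin.sum_univ_two]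
    linear_combination (B 0 0 - B 1 1) * f2 - B 1 0 * f3
  · simp [Matrix.mul_apply, Fin.sum_univ_two]
    linear_combination B 0 1 * f2 - B 1 0 * f1

end Pool.Agent.Y245.HS
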