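import Pool.Agent.Y245.HS.Coc3

/-!
# The cocycle with values in `sl_n`
-/

set_option autoImplicit false

open Matrix Module
open scoped MatrixGroups

namespace Pool.Agent.Y245.HS

open Pool.Agent.H225R3.CV Pool.Agent.H225R3.Scc

variable {m : ℕ} {ρ₀ : SurfaceGroup 2 →* SL(2, ℝ)}

/-- square matrices of size `m + 1` -/
abbrev MM (m : ℕ) : Type := Matrix (Fin (m + 1)) (Fin (m + 1)) ℝ

theorem coe_mul_m (a b : SpecialLinearGroup (Fin (m + 1)) ℝ) :
    ((a * b : SpecialLinearGroup (Fin (m + 1)) ℝ) : MM m) = (a : MM m) * (b : MM m) := rfl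

theorem coe_one_m : ((1 : SpecialLinearGroup (Fin (m + 1)) ℝ) : MM m) = 1 := rfl

theorem mul_inv_m (a : SpecialLinearGroup (Fin (m + 1)) ℝ) :
    (a : MM m) * ((a⁻¹ : SpecialLinearGroup (Fin (m + 1)) ℝ) : MM m) = 1 := by
  rw [← coe_mul_m, mul_inv_cancel, coe_one_m]

theorem inv_mul_m (a : SpecialLinearGroup (Fin (m + 1)) ℝ) :
    ((a⁻¹ : SpecialLinearGroup (Fin (m + 1)) ℝ) : MM m) * (a : MM m) = 1 := by
  rw [← coe_mul_m, inv_mul_cancel, coe_one_m]

theorem Th_irr (g : SL(2, ℝ)) (q : V6) :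
    Th m (sym 6 (g : M2) *ᵥ q) = (irr m g : MM m) * Th m q *
      (((irr m g)⁻¹ : SpecialLinearGroup (Fin (m + 1)) ℝ) : MM m) := by
  have hg : (g : M2).det = 1 := g.2
  have h := Th_equiv (m := m) (g : M2) q
  rw [hg, one_pow, one_smul] at h
  have h2 : (irr m g : MM m) = sym m (g : M2) := rfl
  rw [h2, ← h, ← h2, mul_assoc, mul_inv_m, mul_one]

theorem trace_conj_m (a : SpecialLinearGroup (Fin (m + 1)) ℝ) (A : MM m) :
    ((a : MM m) * A * ((a⁻¹ : SpecialLinearGroup (Fin (m + 1)) ℝ) : MM m)).trace = A.trace := by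
  rw [trace_mul_comm, ← mul_assoc, inv_mul_m, one_mul]

/-- Riesz representation for the trace form. -/
theorem BM_riesz (hm : 3 ≤ m) (Ξ : V6 →ₗ[ℝ] ℝ) : ∃ w, ∀ q, BM m w q = Ξ q := by
  let L : V6 →ₗ[ℝ] (V6 →ₗ[ℝ] ℝ) :=
    { toFun := fun w =>
        { toFun := fun q => BM m w q
          map_add' := fun a b => by
            rw [BM, map_add, mul_add, trace_add, BM, BM]
          map_smul' := fun c a => by rw [BM_smul_right]; rfl }
      map_add' := fun a b => LinearMap.ext fun q => BM_add_left a b q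
      map_smul' := fun c a => LinearMap.ext fun q => BM_smul_left c a q }
  have hinj : Function.Injective L := by
    rw [← LinearMap.ker_eq_bot, LinearMap.ker_eq_bot']
    intro w hw
    exact BM_nondeg hm fun q' => congrFun (congrArg DFunLike.coe hw) q'
  have hsurj : Function.Surjective L := by
    rw [← LinearMap.injective_iff_surjective_of_finrank_eq_finrank]
    · exact hinj
    · exact (Subspace.dual_finrank_eq (K := ℝ) (V := V6)).symm
  obtain ⟨w, hw⟩ := hsurj Ξ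
  exact ⟨w, fun q => congrFun (congrArg DFunLike.coe hw) q⟩

/-- **The cocycle `u` with values in `sl_n`**: it is not a coboundary, but its restriction to every
simple element is a coboundary. -/
theorem exists_u (hm : 3 ≤ m) (h₀ : PurelyHyperbolic ρ₀) : ∃ u : SurfaceGroup 2 → MM m,
    (∀ γ δ, u (γ * δ) = u γ + (irr m (ρ₀ γ) : MM m) * u δ *
      (((irr m (ρ₀ γ))⁻¹ : SpecialLinearGroup (Fin (m + 1)) ℝ) : MM m)) ∧
    (∀ γ, (u γ).trace = 0) ∧
    (∀ γ, IsSimple γ → ∃ X : MM m, u γ = X - (irr m (ρ₀ γ) : MM m) * X *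
      (((irr m (ρ₀ γ))⁻¹ : SpecialLinearGroup (Fin (m + 1)) ℝ) : MM m)) ∧
    ¬ ∃ X : MM m, ∀ γ, u γ = X - (irr m (ρ₀ γ) : MM m) * X *
      (((irr m (ρ₀ γ))⁻¹ : SpecialLinearGroup (Fin (m + 1)) ℝ) : MM m) := by
  obtain ⟨v, hv, ha, hne⟩ := exists_anti h₀
  refine ⟨fun γ => Th m (v γ), ?_, fun γ => trace_Th _, ?_, ?_⟩
  · intro γ δ
    show Th m (v (γ * δ)) = Th m (v γ) + _
    rw [hv, map_add, Th_irr]
  · intro γ hγ
    obtain ⟨w, hw⟩ := coc_simple h₀ hv ha hγ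
    refine ⟨Th m w, ?_⟩
    show Th m (v γ) = _
    rw [hw, map_sub, Th_irr]
  · rintro ⟨X, hX⟩
    apply hne
    let Ξ : V6 →ₗ[ℝ] ℝ :=
      { toFun := fun q => (X * Th m q).trace
        map_add' := fun a b => by rw [map_add, mul_add, trace_add]
        map_smul' := fun c a => by
          rw [map_smul, mul_smul_comm, trace_smul]; rfl }
    obtain ⟨w, hw⟩ := BM_riesz hm Ξ
    have hw' : ∀ q, BM m w q = (X * Th m q).trace := hw
    refine ⟨w, fun γ => ?_⟩
    rw [← sub_eq_zero]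
    apply BM_nondeg hm
    intro q
    rw [BM_sub_left, BM_sub_left, sub_eq_zero]
    have hinv : sym 6 (ρ₀ γ : M2) *ᵥ (sym 6 (((ρ₀ γ)⁻¹ : SL(2, ℝ)) : M2) *ᵥ q) = q := by
      rw [mulVec_mulVec, ← sym_mul, mul_inv', sym_one, one_mulVec]
    have h1 : BM m (sym 6 (ρ₀ γ : M2) *ᵥ w) q = BM m w (sym 6 (((ρ₀ γ)⁻¹ : SL(2, ℝ)) : M2) *ᵥ q) := by
      conv_lhs => rw [← hinv]
      exact BM_inv (ρ₀ γ).2 _ _
    rw [h1, hw', hw', Th_irr, map_inv, inv_inv]
    have h2 : BM m (v γ) q = (Th m (v γ) * Th m q).trace := rfl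
    have h3 : Th m (v γ) = X - (irr m (ρ₀ γ) : MM m) * X *
      (((irr m (ρ₀ γ))⁻¹ : SpecialLinearGroup (Fin (m + 1)) ℝ) : MM m) := hX γ
    rw [h2, h3, sub_mul, trace_sub]
    congr 1
    rw [← trace_conj_m (irr m (ρ₀ γ)) (X * _)]
    congr 1
    have h4 := mul_inv_m (irr m (ρ₀ γ))
    set g := (irr m (ρ₀ γ) : MM m)
    set g' := (((irr m (ρ₀ γ))⁻¹ : SpecialLinearGroup (Fin (m + 1)) ℝ) : MM m)
    calc g * X * g' * Th m q = g * X * g' * Th m q * (g * g') := by rw [h4, mul_one]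
      _ = g * (X * (g' * Th m q * g)) * g' := by simp only [mul_assoc]

end Pool.Agent.Y245.HS
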