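import Pool.Agent.Y245.HS.Calc

/-!
# The relation map of the genus two surface group is a submersion at irreducible representations
-/

set_option autoImplicit false

open Matrix Filter Topology
open scoped MatrixGroups

namespace Pool.Agent.Y245.HS

variable {n : ℕ}

/-- Every linear functional on matrices is given by the trace. -/
theorem exists_trace_form (φ : Matrix (Fin n) (Fin n) ℝ →ₗ[ℝ] ℝ) :
    ∃ Z : Matrix (Fin n) (Fin n) ℝ, ∀ A, φ A = (Z * A).trace := by
  refine ⟨Matrix.of fun j i => φ (Matrix.single i j 1), fun A => ?_⟩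
  conv_lhs => rw [Matrix.matrix_eq_sum_single A]
  rw [map_sum, Matrix.trace_mul_comm, Matrix.trace]
  refine Finset.sum_congr rfl fun i _ => ?_
  rw [map_sum, Matrix.diag_apply, Matrix.mul_apply]
  refine Finset.sum_congr rfl fun j _ => ?_
  have h : Matrix.single i j (A i j) = A i j • Matrix.single i j (1 : ℝ) := by
    rw [Matrix.smul_single, smul_eq_mul, mul_one]
  rw [h, map_smul, smul_eq_mul]
  rfl

/-- The algebra behind the surjectivity of the derivative of the relation map. -/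
theorem dual_zero (hn : n ≠ 0) {a0 a1 a2 a3 Z : Matrix (Fin n) (Fin n) ℝ}
    (hu0 : IsUnit a0) (hu1 : IsUnit a1) (hu2 : IsUnit a2) (hu3 : IsUnit a3)
    (hrel : a0 * a1 * a2 * a3 = a3 * a2 * a1 * a0)
    (hcomm : ∀ T : Matrix (Fin n) (Fin n) ℝ, T * a0 = a0 * T → T * a1 = a1 * T →
      T * a2 = a2 * T → T * a3 = a3 * T → ∃ c : ℝ, T = c • 1)
    (e0 : a1 * a2 * a3 * Z = Z * (a3 * a2 * a1))
    (e1 : a2 * a3 * (Z * a0) = a0 * Z * (a3 * a2))
    (e2 : a3 * Z * (a0 * a1) = a1 * a0 * (Z * a3))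
    (e3 : Z * (a0 * a1 * a2) = a2 * a1 * a0 * Z)
    (e4 : (Z * (a0 * a1 * a2 * a3)).trace = 0) : Z = 0 := by
  set T := a0 * a1 * a2 * a3 * Z with hT
  have F0 : T = a0 * Z * (a3 * a2) * a1 := by
    rw [hT]
    calc a0 * a1 * a2 * a3 * Z = a0 * (a1 * a2 * a3 * Z) := by simp only [mul_assoc]
      _ = _ := by rw [e0]; simp only [mul_assoc]
  have F3 : T = a3 * Z * (a0 * a1) * a2 := by
    rw [hT, hrel]
    calc a3 * a2 * a1 * a0 * Z = a3 * (a2 * a1 * a0 * Z) := by simp only [mul_assoc]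
      _ = _ := by rw [← e3]; simp only [mul_assoc]
  have c1 : T * a1 = a1 * T := by
    calc T * a1 = a3 * Z * (a0 * a1) * a2 * a1 := by rw [← F3]
      _ = a1 * (a0 * Z * (a3 * a2) * a1) := by rw [e2]; simp only [mul_assoc]
      _ = a1 * T := by rw [← F0]
  have c2 : T * a2 = a2 * T := by
    calc T * a2 = a0 * Z * (a3 * a2) * a1 * a2 := by rw [← F0]
      _ = a2 * (a3 * Z * (a0 * a1) * a2) := by rw [← e1]; simp only [mul_assoc]
      _ = a2 * T := by rw [← F3]
  have c0 : T * a0 = a0 * T := by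
    have h1 : T * a0 * a1 = a0 * T * a1 := by
      calc T * a0 * a1 = a0 * a1 * (a2 * a3 * (Z * a0)) * a1 := by
            rw [hT]; simp only [mul_assoc]
        _ = a0 * a1 * (a0 * Z * (a3 * a2) * a1) := by rw [e1]; simp only [mul_assoc]
        _ = a0 * T * a1 := by rw [← F0, mul_assoc a0 a1 T, ← c1, ← mul_assoc]
    exact hu1.mul_right_cancel h1
  have c3 : T * a3 = a3 * T := by
    have h1 : T * a3 * a2 = a3 * T * a2 := by
      calc T * a3 * a2 = a3 * a2 * (a1 * a0 * (Z * a3)) * a2 := by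
            rw [hT, hrel]; simp only [mul_assoc]
        _ = a3 * a2 * (a3 * Z * (a0 * a1) * a2) := by rw [← e2]; simp only [mul_assoc]
        _ = a3 * T * a2 := by rw [← F3, mul_assoc a3 a2 T, ← c2, ← mul_assoc]
    exact hu2.mul_right_cancel h1
  obtain ⟨c, hc⟩ := hcomm T c0 c1 c2 c3
  have h1 : (Z * (a0 * a1 * a2 * a3)).trace = c * n := by
    rw [trace_mul_comm, ← hT, hc, trace_smul, trace_one, Fintype.card_fin, smul_eq_mul]
  rw [e4] at h1
  have h2 : c = 0 := by
    rcases mul_eq_zero.1 h1.symm with h | h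
    · exact h
    · exact absurd (by exact_mod_cast h) hn
  rw [h2, zero_smul] at hc
  have hu : IsUnit (a0 * a1 * a2 * a3) := ((hu0.mul hu1).mul hu2).mul hu3
  have h3 : a0 * a1 * a2 * a3 * Z = a0 * a1 * a2 * a3 * 0 := by rw [← hT, hc, mul_zero]
  exact hu.mul_left_cancel h3

/-- The space in which the relation map is considered. -/
abbrev EE4 (n : ℕ) : Type := (Fin 4 → Matrix (Fin n) (Fin n) ℝ) × ℝ

/-- The relation map. -/
def relMap (x : EE4 n) : Matrix (Fin n) (Fin n) ℝ :=
  x.1 0 * x.1 1 * x.1 2 * x.1 3 - (1 + x.2) • (x.1 3 * x.1 2 * x.1 1 * x.1 0)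

open scoped Matrix.Norms.Operator in
theorem contDiff_relMap : ContDiff ℝ 1 (relMap : EE4 n → Matrix (Fin n) (Fin n) ℝ) := by
  unfold relMap
  have h : ∀ i : Fin 4, ContDiff ℝ 1 (fun x : EE4 n => x.1 i) := fun i =>
    (contDiff_apply ℝ (Matrix (Fin n) (Fin n) ℝ) i).comp contDiff_fst
  exact ((((h 0).mul (h 1)).mul (h 2)).mul (h 3)).sub
    ((contDiff_const.add contDiff_snd).smul ((((h 3).mul (h 2)).mul (h 1)).mul (h 0)))

open scoped Matrix.Norms.Operator in
/-- the derivative of the relation map -/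
theorem relMap_deriv {L : EE4 n →L[ℝ] Matrix (Fin n) (Fin n) ℝ}
    {a : Fin 4 → Matrix (Fin n) (Fin n) ℝ} (hL : HasFDerivAt relMap L ((a, 0) : EE4 n))
    (w : Fin 4 → Matrix (Fin n) (Fin n) ℝ) (σ : ℝ) :
    L (w, σ) = w 0 * a 1 * a 2 * a 3 + a 0 * w 1 * a 2 * a 3 + a 0 * a 1 * w 2 * a 3 +
      a 0 * a 1 * a 2 * w 3 - (σ • (a 3 * a 2 * a 1 * a 0) + (w 3 * a 2 * a 1 * a 0 +
      a 3 * w 2 * a 1 * a 0 + a 3 * a 2 * w 1 * a 0 + a 3 * a 2 * a 1 * w 0)) := by
  have h1 : HasDerivAt (fun t : ℝ => ((fun i => a i + t • w i, t * σ) : EE4 n)) (w, σ) 0 := by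
    refine HasDerivAt.prodMk (hasDerivAt_pi.2 fun i => ?_) ?_
    · have := ((hasDerivAt_id (0 : ℝ)).smul_const (w i)).const_add (a i)
      rwa [one_smul] at this
    · have := (hasDerivAt_id (0 : ℝ)).mul_const σ
      rwa [one_mul] at this
  have h0 : (fun t : ℝ => ((fun i => a i + t • w i, t * σ) : EE4 n)) 0 = (a, 0) := by
    simp
  rw [← h0] at hL
  have h2 := hL.comp_hasDerivAt (0 : ℝ) h1
  have hd : ∀ i : Fin 4, HasDerivAt (fun t : ℝ => a i + t • w i) (w i) 0 := by
    intro i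
    have := ((hasDerivAt_id (0 : ℝ)).smul_const (w i)).const_add (a i)
    rwa [one_smul] at this
  have hs : HasDerivAt (fun t : ℝ => 1 + t * σ) σ 0 := by
    have := ((hasDerivAt_id (0 : ℝ)).mul_const σ).const_add 1
    rwa [one_mul] at this
  have h3 := ((((hd 0).mul (hd 1)).mul (hd 2)).mul (hd 3)).sub
    (hs.smul ((((hd 3).mul (hd 2)).mul (hd 1)).mul (hd 0)))
  refine Eq.trans (h2.unique h3) ?_
  simp only [zero_smul, add_zero, zero_mul, one_smul, Pi.mul_apply, mul_zero]
  noncomm_ring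

open scoped Matrix.Norms.Operator in
/-- The relation map is a submersion at irreducible representations. -/
theorem relMap_surj (hn : n ≠ 0) {L : EE4 n →L[ℝ] Matrix (Fin n) (Fin n) ℝ}
    {a : Fin 4 → Matrix (Fin n) (Fin n) ℝ} (hL : HasFDerivAt relMap L ((a, 0) : EE4 n))
    (hu : ∀ i, IsUnit (a i)) (hrel : a 0 * a 1 * a 2 * a 3 = a 3 * a 2 * a 1 * a 0)
    (hcomm : ∀ T : Matrix (Fin n) (Fin n) ℝ, (∀ i, T * a i = a i * T) → ∃ c : ℝ, T = c • 1) :
    (L : EE4 n →ₗ[ℝ] Matrix (Fin n) (Fin n) ℝ).range = ⊤ := by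
  by_contra hne
  obtain ⟨φ, hφ, hk⟩ := Submodule.exists_le_ker_of_lt_top _ (lt_top_iff_ne_top.2 hne)
  obtain ⟨Z, hZ⟩ := exists_trace_form φ
  apply hφ
  have hZ0 : ∀ w σ, (Z * L (w, σ)).trace = 0 := by
    intro w σ
    rw [← hZ]
    exact hk ⟨(w, σ), rfl⟩
  have hform := relMap_deriv hL
  have k : ∀ (i : Fin 4) (x : Matrix (Fin n) (Fin n) ℝ),
      (Z * L (Pi.single i x, 0)).trace = 0 := fun i x => hZ0 _ _
  have n01 : (0 : Fin 4) ≠ 1 := by decide
  have n02 : (0 : Fin 4) ≠ 2 := by decide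
  have n03 : (0 : Fin 4) ≠ 3 := by decide
  have n12 : (1 : Fin 4) ≠ 2 := by decide
  have n13 : (1 : Fin 4) ≠ 3 := by decide
  have n23 : (2 : Fin 4) ≠ 3 := by decide
  have hZ' : Z = 0 := by
    refine dual_zero hn (hu 0) (hu 1) (hu 2) (hu 3) hrel
      (fun T h0 h1 h2 h3 => hcomm T fun i => ?_) ?_ ?_ ?_ ?_ ?_
    · fin_cases i <;> assumption
    · rw [Matrix.ext_iff_trace_mul_left]
      intro x
      have h1 := k 0 x
      rw [hform] at h1
      simp only [Pi.single_eq_same, Pi.single_eq_of_ne n01.symm, Pi.single_eq_of_ne n02.symm,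
        Pi.single_eq_of_ne n03.symm, mul_zero, zero_mul, add_zero, zero_add, zero_smul, mul_sub,
        trace_sub, sub_eq_zero] at h1
      have l1 : (x * (a 1 * a 2 * a 3 * Z)).trace = (Z * (x * a 1 * a 2 * a 3)).trace := by
        rw [trace_mul_comm Z]; simp only [mul_assoc]
      have l2 : (x * (Z * (a 3 * a 2 * a 1))).trace = (Z * (a 3 * a 2 * a 1 * x)).trace := by
        rw [trace_mul_comm x]; simp only [mul_assoc]
      rw [l1, l2, h1]
    · rw [Matrix.ext_iff_trace_mul_left]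
      intro x
      have h1 := k 1 x
      rw [hform] at h1
      simp only [Pi.single_eq_same, Pi.single_eq_of_ne n01, Pi.single_eq_of_ne n12.symm,
        Pi.single_eq_of_ne n13.symm, mul_zero, zero_mul, add_zero, zero_add, zero_smul, mul_sub,
        trace_sub, sub_eq_zero] at h1
      have l1 : (x * (a 2 * a 3 * (Z * a 0))).trace = (Z * (a 0 * x * a 2 * a 3)).trace := by
        rw [trace_mul_comm Z, show a 0 * x * a 2 * a 3 * Z = a 0 * (x * a 2 * a 3 * Z) by
          simp only [mul_assoc], trace_mul_comm (a 0)]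
        simp only [mul_assoc]
      have l2 : (x * (a 0 * Z * (a 3 * a 2))).trace = (Z * (a 3 * a 2 * x * a 0)).trace := by
        rw [trace_mul_comm x, show a 0 * Z * (a 3 * a 2) * x = a 0 * (Z * (a 3 * a 2) * x) by
          simp only [mul_assoc], trace_mul_comm (a 0)]
        simp only [mul_assoc]
      rw [l1, l2, h1]
    · rw [Matrix.ext_iff_trace_mul_left]
      intro x
      have h1 := k 2 x
      rw [hform] at h1
      simp only [Pi.single_eq_same, Pi.single_eq_of_ne n02, Pi.single_eq_of_ne n12,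
        Pi.single_eq_of_ne n23.symm, mul_zero, zero_mul, add_zero, zero_add, zero_smul, mul_sub,
        trace_sub, sub_eq_zero] at h1
      have l1 : (x * (a 3 * Z * (a 0 * a 1))).trace = (Z * (a 0 * a 1 * x * a 3)).trace := by
        rw [trace_mul_comm x, show a 3 * Z * (a 0 * a 1) * x = a 3 * (Z * (a 0 * a 1) * x) by
          simp only [mul_assoc], trace_mul_comm (a 3)]
        simp only [mul_assoc]
      have l2 : (x * (a 1 * a 0 * (Z * a 3))).trace = (Z * (a 3 * x * a 1 * a 0)).trace := by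
        rw [trace_mul_comm Z, show a 3 * x * a 1 * a 0 * Z = a 3 * (x * a 1 * a 0 * Z) by
          simp only [mul_assoc], trace_mul_comm (a 3)]
        simp only [mul_assoc]
      rw [l1, l2, h1]
    · rw [Matrix.ext_iff_trace_mul_left]
      intro x
      have h1 := k 3 x
      rw [hform] at h1
      simp only [Pi.single_eq_same, Pi.single_eq_of_ne n03, Pi.single_eq_of_ne n13,
        Pi.single_eq_of_ne n23, mul_zero, zero_mul, add_zero, zero_add, zero_smul, mul_sub,
        trace_sub, sub_eq_zero] at h1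
      have l1 : (x * (Z * (a 0 * a 1 * a 2))).trace = (Z * (a 0 * a 1 * a 2 * x)).trace := by
        rw [trace_mul_comm x]; simp only [mul_assoc]
      have l2 : (x * (a 2 * a 1 * a 0 * Z)).trace = (Z * (x * a 2 * a 1 * a 0)).trace := by
        rw [trace_mul_comm Z]; simp only [mul_assoc]
      rw [l1, l2, h1]
    · have h1 := hZ0 0 1
      rw [hform] at h1
      simp only [Pi.zero_apply, mul_zero, zero_mul, add_zero, zero_sub, one_smul, mul_neg,
        trace_neg, neg_eq_zero] at h1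
      rw [hrel]
      exact h1
  refine LinearMap.ext fun A => ?_
  rw [hZ, hZ', zero_mul, trace_zero]
  rfl

end Pool.Agent.Y245.HS
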