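import Mathlib

/-!
# Binary forms of degree `m` and the action of `2 × 2` matrices on them
-/

set_option autoImplicit false

open Matrix Polynomial

namespace Pool.Agent.Y245.HS

/-- The value at `(x, y)` of the binary form `∑ f_j x^(m-j) y^j` of degree `m`. -/
def ev {m : ℕ} (f : Fin (m + 1) → ℝ) (x y : ℝ) : ℝ :=
  ∑ j : Fin (m + 1), f j * x ^ (m - (j : ℕ)) * y ^ (j : ℕ)

/-- The matrix, in the basis `x^(m-j) y^j`, of the action of `g` on the binary forms of degree `m`,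
that is the `m`-th symmetric power of `g`. The `j`-th column consists of the coefficients of
`(g₀₀ + g₁₀ X)^(m-j) (g₀₁ + g₁₁ X)^j`. -/
noncomputable def sym (m : ℕ) (g : Matrix (Fin 2) (Fin 2) ℝ) :
    Matrix (Fin (m + 1)) (Fin (m + 1)) ℝ :=
  Matrix.of fun i j => ((C (g 0 0) + C (g 1 0) * X) ^ (m - (j : ℕ)) *
    (C (g 0 1) + C (g 1 1) * X) ^ (j : ℕ)).coeff (i : ℕ)

variable {m : ℕ}

theorem ev_add (f f' : Fin (m + 1) → ℝ) (x y : ℝ) : ev (f + f') x y = ev f x y + ev f' x y := by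
  simp only [ev, Pi.add_apply, add_mul, Finset.sum_add_distrib]

theorem ev_smul (c : ℝ) (f : Fin (m + 1) → ℝ) (x y : ℝ) : ev (c • f) x y = c * ev f x y := by
  simp only [ev, Pi.smul_apply, smul_eq_mul, Finset.mul_sum]
  exact Finset.sum_congr rfl fun j _ => by ring

theorem ev_neg (f : Fin (m + 1) → ℝ) (x y : ℝ) : ev (-f) x y = - ev f x y := by
  have := ev_smul (-1) f x y
  simpa using this

theorem ev_sub (f f' : Fin (m + 1) → ℝ) (x y : ℝ) : ev (f - f') x y = ev f x y - ev f' x y := by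
  rw [sub_eq_add_neg, ev_add, ev_neg, sub_eq_add_neg]

theorem ev_inj {f f' : Fin (m + 1) → ℝ} (h : ∀ y, ev f 1 y = ev f' 1 y) : f = f' := by
  have key : ∀ f : Fin (m + 1) → ℝ, ∀ y, (∑ j : Fin (m + 1), C (f j) * X ^ (j : ℕ)).eval y =
      ev f 1 y := by
    intro f y
    simp [ev, eval_finsetSum]
  have hp : (∑ j : Fin (m + 1), C (f j) * X ^ (j : ℕ)) =
      ∑ j : Fin (m + 1), C (f' j) * X ^ (j : ℕ) := by
    refine Polynomial.funext fun y => ?_
    rw [key, key, h]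
  have hc : ∀ f : Fin (m + 1) → ℝ, ∀ i : Fin (m + 1),
      (∑ j : Fin (m + 1), C (f j) * X ^ (j : ℕ)).coeff (i : ℕ) = f i := by
    intro f i
    rw [finsetSum_coeff, Finset.sum_eq_single i]
    · simp
    · intro j _ hj
      rw [coeff_C_mul, coeff_X_pow, if_neg, mul_zero]
      intro he
      exact hj (Fin.ext he.symm)
    · simp
  funext i
  rw [← hc f i, hp, hc]

theorem ev_continuous (f : Fin (m + 1) → ℝ) (y : ℝ) : Continuous fun x => ev f x y := by
  unfold ev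
  fun_prop

theorem hom_sum (P : ℝ[X]) (hP : P.natDegree ≤ m) {x : ℝ} (hx : x ≠ 0) (y : ℝ) :
    ∑ i : Fin (m + 1), P.coeff i * x ^ (m - (i : ℕ)) * y ^ (i : ℕ) = x ^ m * P.eval (y / x) := by
  rw [eval_eq_sum_range' (Nat.lt_succ_of_le hP), Finset.mul_sum,
    Fin.sum_univ_eq_sum_range (fun i => P.coeff i * x ^ (m - i) * y ^ i)]
  refine Finset.sum_congr rfl fun i hi => ?_
  have hi' : i ≤ m := Nat.lt_succ_iff.1 (Finset.mem_range.1 hi)
  have : x ^ m = x ^ (m - i) * x ^ i := by rw [← pow_add, Nat.sub_add_cancel hi']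
  rw [this, div_pow]
  field_simp

theorem ev_sym_aux (g : Matrix (Fin 2) (Fin 2) ℝ) (f : Fin (m + 1) → ℝ) {x : ℝ} (hx : x ≠ 0)
    (y : ℝ) : ev (sym m g *ᵥ f) x y = ev f (x * g 0 0 + y * g 1 0) (x * g 0 1 + y * g 1 1) := by
  have h1 : ev (sym m g *ᵥ f) x y = ∑ j : Fin (m + 1), f j *
      ∑ i : Fin (m + 1), sym m g i j * x ^ (m - (i : ℕ)) * y ^ (i : ℕ) := by
    simp only [ev, mulVec, dotProduct, Finset.sum_mul, Finset.mul_sum]
    rw [Finset.sum_comm]
    exact Finset.sum_congr rfl fun j _ => Finset.sum_congr rfl fun i _ => by ring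
  rw [h1, ev]
  refine Finset.sum_congr rfl fun j _ => ?_
  have hj : (j : ℕ) ≤ m := Nat.lt_succ_iff.1 j.2
  have hd : ((C (g 0 0) + C (g 1 0) * X) ^ (m - (j : ℕ)) *
      (C (g 0 1) + C (g 1 1) * X) ^ (j : ℕ) : ℝ[X]).natDegree ≤ m := by
    have e1 : ∀ a b : ℝ, (C a + C b * X : ℝ[X]).natDegree ≤ 1 := by
      intro a b
      rw [add_comm]
      exact natDegree_linear_le
    refine natDegree_mul_le.trans ?_
    have h2 := natDegree_pow_le (p := (C (g 0 0) + C (g 1 0) * X : ℝ[X])) (n := m - (j : ℕ))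
    have h3 := natDegree_pow_le (p := (C (g 0 1) + C (g 1 1) * X : ℝ[X])) (n := (j : ℕ))
    have h4 := Nat.mul_le_mul_left (m - (j : ℕ)) (e1 (g 0 0) (g 1 0))
    have h5 := Nat.mul_le_mul_left (j : ℕ) (e1 (g 0 1) (g 1 1))
    omega
  have h2 := hom_sum _ hd hx y
  simp only [sym, of_apply]
  rw [h2]
  simp only [eval_mul, eval_pow, eval_add, eval_C, eval_X]
  have hxm : x ^ m = x ^ (m - (j : ℕ)) * x ^ (j : ℕ) := by
    rw [← pow_add, Nat.sub_add_cancel hj]
  rw [hxm, mul_assoc (f j)]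
  congr 1
  calc x ^ (m - (j : ℕ)) * x ^ (j : ℕ) *
      ((g 0 0 + g 1 0 * (y / x)) ^ (m - (j : ℕ)) * (g 0 1 + g 1 1 * (y / x)) ^ (j : ℕ))
      = (x * (g 0 0 + g 1 0 * (y / x))) ^ (m - (j : ℕ)) *
        (x * (g 0 1 + g 1 1 * (y / x))) ^ (j : ℕ) := by
        rw [mul_pow, mul_pow]; ring
    _ = _ := by
        congr 2 <;> field_simp

/-- The form `sym m g *ᵥ f` is `v ↦ f (v g)`. -/
theorem ev_sym (g : Matrix (Fin 2) (Fin 2) ℝ) (f : Fin (m + 1) → ℝ) (x y : ℝ) :
    ev (sym m g *ᵥ f) x y = ev f (x * g 0 0 + y * g 1 0) (x * g 0 1 + y * g 1 1) := by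
  have h1 : Continuous fun x => ev (sym m g *ᵥ f) x y := ev_continuous _ _
  have h2 : Continuous fun x => ev f (x * g 0 0 + y * g 1 0) (x * g 0 1 + y * g 1 1) := by
    unfold ev
    fun_prop
  have h3 := Continuous.ext_on (dense_compl_singleton (0 : ℝ)) h1 h2
    (fun x hx => ev_sym_aux g f hx y)
  exact congrFun h3 x

theorem sym_mulVec_ext {A B : Matrix (Fin (m + 1)) (Fin (m + 1)) ℝ}
    (h : ∀ f, ∀ y, ev (A *ᵥ f) 1 y = ev (B *ᵥ f) 1 y) : A = B := by
  apply Matrix.ext_of_mulVec_single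
  intro i
  exact ev_inj (h _)

theorem sym_mul (g h : Matrix (Fin 2) (Fin 2) ℝ) : sym m (g * h) = sym m g * sym m h := by
  apply sym_mulVec_ext
  intro f y
  rw [← mulVec_mulVec, ev_sym, ev_sym, ev_sym]
  simp only [Matrix.mul_apply, Fin.sum_univ_two]
  congr 1 <;> ring

theorem sym_one : sym m 1 = 1 := by
  apply sym_mulVec_ext
  intro f y
  rw [ev_sym, one_mulVec]
  simp

theorem ev_scale (f : Fin (m + 1) → ℝ) (c x y : ℝ) : ev f (c * x) (c * y) = c ^ m * ev f x y := by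
  unfold ev
  rw [Finset.mul_sum]
  refine Finset.sum_congr rfl fun j _ => ?_
  have hj : (j : ℕ) ≤ m := Nat.lt_succ_iff.1 j.2
  have : c ^ m = c ^ (m - (j : ℕ)) * c ^ (j : ℕ) := by rw [← pow_add, Nat.sub_add_cancel hj]
  rw [this, mul_pow, mul_pow]
  ring

theorem sym_smul (c : ℝ) (g : Matrix (Fin 2) (Fin 2) ℝ) : sym m (c • g) = c ^ m • sym m g := by
  apply sym_mulVec_ext
  intro f y
  rw [smul_mulVec, ev_smul, ev_sym, ev_sym, ← ev_scale]
  simp only [Matrix.smul_apply, smul_eq_mul]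
  congr 1 <;> ring

/-- The coefficients of `(a x + b y)^m`. -/
def pw (m : ℕ) (a b : ℝ) : Fin (m + 1) → ℝ :=
  fun j => (m.choose j : ℝ) * a ^ (m - (j : ℕ)) * b ^ (j : ℕ)

theorem ev_pw (a b x y : ℝ) : ev (pw m a b) x y = (a * x + b * y) ^ m := by
  rw [add_comm, add_pow, ev, ← Fin.sum_univ_eq_sum_range (fun j => (b * y) ^ j * (a * x) ^ (m - j) *
    (m.choose j : ℝ))]
  refine Finset.sum_congr rfl fun j _ => ?_
  simp only [pw, mul_pow]
  ring

theorem sym_pw (g : Matrix (Fin 2) (Fin 2) ℝ) (a b : ℝ) : sym m g *ᵥ pw m a b =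
    pw m (g 0 0 * a + g 0 1 * b) (g 1 0 * a + g 1 1 * b) := by
  apply ev_inj
  intro y
  rw [ev_sym, ev_pw, ev_pw]
  congr 1
  ring

/-- Linear maps that agree on all powers of linear forms are equal. -/
theorem ext_pw {W : Type*} [AddCommGroup W] [Module ℝ W] (L L' : (Fin (m + 1) → ℝ) →ₗ[ℝ] W)
    (h : ∀ b, L (pw m 1 b) = L' (pw m 1 b)) : L = L' := by
  -- the powers span
  have hspan : Submodule.span ℝ (Set.range fun b : ℝ => pw m 1 b) = ⊤ := by
    by_contra hne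
    obtain ⟨φ, hφ, hφ0⟩ := Submodule.exists_le_ker_of_lt_top _ (lt_top_iff_ne_top.2 hne)
    apply hφ
    have hb : ∀ b, φ (pw m 1 b) = 0 := fun b =>
      hφ0 (Submodule.subset_span ⟨b, rfl⟩)
    -- expand
    have hexp : ∀ f : Fin (m + 1) → ℝ, φ f = ∑ j, f j * φ (Pi.single j 1) := by
      intro f
      conv_lhs => rw [pi_eq_sum_univ' f]
      rw [map_sum]
      refine Finset.sum_congr rfl fun j _ => ?_
      rw [map_smul, smul_eq_mul]
    have hz : (fun j : Fin (m + 1) => (m.choose j : ℝ) * φ (Pi.single j 1)) = 0 := by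
      apply ev_inj
      intro y
      have h1 := hb y
      rw [hexp] at h1
      rw [ev, ev]
      simp only [Pi.zero_apply, zero_mul, Finset.sum_const_zero]
      rw [← h1]
      refine Finset.sum_congr rfl fun j _ => ?_
      simp only [pw, one_pow]
      ring
    apply LinearMap.ext
    intro f
    rw [hexp, LinearMap.zero_apply]
    refine Finset.sum_eq_zero fun j _ => ?_
    have h2 := congrFun hz j
    simp only [Pi.zero_apply] at h2
    have h3 : (m.choose j : ℝ) ≠ 0 := by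
      have := Nat.choose_pos (Nat.lt_succ_iff.1 j.2)
      positivity
    rcases mul_eq_zero.1 h2 with h4 | h4
    · exact absurd h4 h3
    · rw [h4, mul_zero]
  exact LinearMap.ext_on_range hspan h

end Pool.Agent.Y245.HS
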